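import Pool.Agent.Lib_helper45.REll.Defs2

/-!
# Block KF: finite fields and characters
-/

open scoped BigOperators ComplexConjugate
open Polynomial

namespace Pool.Agent.REll
variable {F : Type} [Field F]

theorem exists_big (F : Type) [Field F] [Finite F] (n : ℕ) :
    ∃ (K : Type) (_ : Field K) (_ : Finite K) (_ : Algebra F K), Big F n K := by
  obtain ⟨p, hp⟩ := CharP.exists F
  have : Fact p.Prime := ⟨CharP.char_is_prime F p⟩
  have : NeZero n.factorial := ⟨Nat.factorial_ne_zero n⟩
  refine ⟨FiniteField.Extension F p n.factorial, inferInstance, inferInstance, inferInstance, ?_⟩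
  intro j hj hjn
  rw [FiniteField.natCard_extension]
  obtain ⟨c, hc⟩ := Nat.dvd_factorial hj hjn
  rw [hc, pow_mul]
  simpa only [one_pow] using Nat.sub_dvd_pow_sub_pow (Nat.card F ^ j) 1 c

/-- `X ^ (q ^ j) - X` splits in `K`. -/
theorem splits_frob [Finite F] {K : Type} [Field K] [Finite K] [Algebra F K] (n : ℕ)
    (hK : Big F n K) (j : ℕ) (hj : 1 ≤ j) (hjn : j ≤ n) :
    ((X ^ (Nat.card F ^ j) - X : F[X]).map (algebraMap F K)).Splits := by
  have hq : 1 < Nat.card F := Finite.one_lt_card
  have hqj : 1 ≤ Nat.card F ^ j := Nat.one_le_pow _ _ (by omega)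
  have hQ : 1 < Nat.card K := Finite.one_lt_card
  have h1 : (X ^ Nat.card K - X : K[X]).Splits := by
    obtain ⟨p, hp⟩ := CharP.exists K
    have : Fact p.Prime := ⟨CharP.char_is_prime K p⟩
    have := Fintype.ofFinite K
    rw [splits_iff_card_roots, Nat.card_eq_fintype_card, FiniteField.roots_X_pow_card_sub_X,
      FiniteField.X_pow_card_sub_X_natDegree_eq K Fintype.one_lt_card]
    rfl
  have h0 : (X ^ Nat.card K - X : K[X]) ≠ 0 := FiniteField.X_pow_card_sub_X_ne_zero K hQ
  refine h1.of_dvd h0 ?_
  simp only [Polynomial.map_sub, Polynomial.map_pow, Polynomial.map_X]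
  obtain ⟨c, hc⟩ := hK j hj hjn
  have e1 : (X ^ Nat.card K - X : K[X]) = X * ((X ^ (Nat.card F ^ j - 1)) ^ c - 1 ^ c) := by
    rw [← pow_mul, ← hc, one_pow, mul_sub, mul_one, ← pow_succ', Nat.sub_add_cancel hQ.le]
  have e2 : (X ^ (Nat.card F ^ j) - X : K[X]) = X * (X ^ (Nat.card F ^ j - 1) - 1) := by
    rw [mul_sub, mul_one, ← pow_succ', Nat.sub_add_cancel hqj]
  rw [e1, e2]
  exact mul_dvd_mul_left _ (sub_dvd_pow_sub_pow _ _ _)

theorem big_splits [Finite F] {K : Type} [Field K] [Finite K] [Algebra F K] (n : ℕ)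
    (hK : Big F n K) (P : F[X]) (h0 : P ≠ 0) (hP : P.natDegree ≤ n) :
    (P.map (algebraMap F K)).Splits := by
  revert h0 hP
  induction P using UniqueFactorizationMonoid.induction_on_prime with
  | h₁ => intro h; exact absurd rfl h
  | h₂ u hu =>
    intro _ _
    rw [Polynomial.isUnit_iff] at hu
    obtain ⟨r, hr, rfl⟩ := hu
    rw [Polynomial.map_C]
    exact Splits.C _
  | h₃ a p ha hp ih =>
    intro h0 hP
    have hp0 : p ≠ 0 := hp.ne_zero
    have hdeg : (p * a).natDegree = p.natDegree + a.natDegree := natDegree_mul hp0 ha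
    rw [Polynomial.map_mul]
    refine Splits.mul ?_ (ih ha (by omega))
    have hirr : Irreducible p := hp.irreducible
    have hpos : 1 ≤ p.natDegree := hirr.natDegree_pos
    have hdvd : p ∣ X ^ (Nat.card F ^ p.natDegree) - X :=
      (hirr.natDegree_dvd_iff_dvd_X_pow_card_pow_sub_X).1 dvd_rfl
    refine (splits_frob n hK p.natDegree hpos (by omega)).of_dvd ?_
      (Polynomial.map_dvd _ hdvd)
    rw [Polynomial.map_ne_zero_iff (algebraMap F K).injective]
    exact FiniteField.X_pow_card_pow_sub_X_ne_zero F (by omega) Finite.one_lt_card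

/-- degree of an element and the field it lies in -/
theorem natDegree_minpoly_dvd [Finite F] {K : Type} [Field K] [Finite K] [Algebra F K]
    (n : ℕ) (hn : 1 ≤ n) (x : K) (hx : x ≠ 0) :
    (minpoly F x).natDegree ∣ n ↔ x ^ (Nat.card F ^ n - 1) = 1 := by
  have hint : IsIntegral F x := Algebra.IsIntegral.isIntegral x
  have hqn : 1 ≤ Nat.card F ^ n := Nat.one_le_pow _ _ Nat.card_pos
  rw [(minpoly.irreducible hint).natDegree_dvd_iff_dvd_X_pow_card_pow_sub_X, minpoly.dvd_iff]
  simp only [map_sub, map_pow, aeval_X]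
  have h1 : x ^ (Nat.card F ^ n) = x * x ^ (Nat.card F ^ n - 1) := by
    rw [← pow_succ', Nat.sub_add_cancel hqn]
  rw [h1, sub_eq_zero]
  constructor
  · intro h
    exact mul_left_cancel₀ hx (by rw [h, mul_one])
  · intro h
    rw [h, mul_one]

/-- Frobenius permutes the roots of a polynomial over `F`. -/
theorem eval_frob [Finite F] {K : Type} [Field K] [Algebra F K] (P : F[X]) (x : K) (i : ℕ)
    (hx : aeval x P = 0) : aeval (x ^ (Nat.card F ^ i)) P = 0 := by
  have := Fintype.ofFinite F
  induction i with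
  | zero => simpa using hx
  | succ i ih =>
    have h1 : x ^ (Nat.card F ^ (i + 1)) =
        FiniteField.frobeniusAlgHom F K (x ^ (Nat.card F ^ i)) := by
      rw [FiniteField.coe_frobeniusAlgHom, Nat.card_eq_fintype_card, pow_succ, pow_mul]
    rw [h1, aeval_algHom_apply, ih, map_zero]

theorem frob_inj [Finite F] {K : Type} [Field K] [Algebra F K] (i : ℕ) {x y : K}
    (h : x ^ (Nat.card F ^ i) = y ^ (Nat.card F ^ i)) : x = y := by
  have := Fintype.ofFinite F
  induction i with
  | zero => simpa using h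
  | succ i ih =>
    apply ih
    rw [pow_succ, pow_mul, pow_mul, Nat.card_eq_fintype_card] at h
    have h2 : FiniteField.frobeniusAlgHom F K (x ^ (Fintype.card F ^ i)) =
        FiniteField.frobeniusAlgHom F K (y ^ (Fintype.card F ^ i)) := by
      rw [FiniteField.coe_frobeniusAlgHom]
      exact h
    rw [Nat.card_eq_fintype_card]
    exact (FiniteField.frobeniusAlgHom F K).injective h2

/-- roots in `K` of an irreducible polynomial of degree `d ≤ n`: one Frobenius orbit -/
theorem roots_irreducible [Finite F] {K : Type} [Field K] [Finite K] [Algebra F K] (n : ℕ)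
    (hK : Big F n K) (P : F[X]) (h0 : Irreducible P) (hP : P.natDegree ≤ n) (x : K)
    (hx : (P.map (algebraMap F K)).IsRoot x) :
    (P.map (algebraMap F K)).roots =
      (Multiset.range P.natDegree).map (fun i => x ^ (Nat.card F ^ i)) := by
  classical
  have hx' : aeval x P = 0 := by
    rw [IsRoot.def, eval_map_algebraMap] at hx
    exact hx
  have hP0 : P ≠ 0 := h0.ne_zero
  have hPK0 : P.map (algebraMap F K) ≠ 0 :=
    (Polynomial.map_ne_zero_iff (algebraMap F K).injective).2 hP0
  symm
  apply Multiset.eq_of_le_of_card_le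
  · rw [Multiset.le_iff_subset]
    · intro y hy
      rw [Multiset.mem_map] at hy
      obtain ⟨i, _, rfl⟩ := hy
      rw [mem_roots hPK0, IsRoot.def, eval_map_algebraMap]
      exact eval_frob P x i hx'
    · rw [Multiset.nodup_map_iff_inj_on (Multiset.nodup_range _)]
      have key : ∀ i j, i < j → j < P.natDegree →
          x ^ (Nat.card F ^ i) ≠ x ^ (Nat.card F ^ j) := by
        intro i j hij hj h
        have h2 : x = x ^ (Nat.card F ^ (j - i)) := by
          apply frob_inj (F := F) i
          rw [← pow_mul, ← pow_add, Nat.sub_add_cancel hij.le]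
          exact h
        have h3 : P ∣ X ^ (Nat.card F ^ (j - i)) - X := by
          rw [← h0.dvd_iff_aeval_eq_zero (b := x) hx']
          simp only [map_sub, map_pow, aeval_X]
          rw [← h2, sub_self]
        have h4 := (h0.natDegree_dvd_iff_dvd_X_pow_card_pow_sub_X).2 h3
        have h5 := Nat.le_of_dvd (by omega) h4
        omega
      intro i hi j hj h
      rw [Multiset.mem_range] at hi hj
      rcases lt_trichotomy i j with hij | hij | hij
      · exact absurd h (key i j hij hj)
      · exact hij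
      · exact absurd h.symm (key j i hij hi)
  · rw [Multiset.card_map, Multiset.card_range]
    refine (card_roots' _).trans ?_
    rw [natDegree_map]

theorem card_pow_eq_one_of_dvd (K : Type) [Field K] [Finite K] (m : ℕ) (hm : m ∣ Nat.card K - 1)
    (hm0 : 0 < m) : Nat.card {x : K // x ^ m = 1} = m := by
  classical
  have := Fintype.ofFinite K
  obtain ⟨g, hg⟩ := IsCyclic.exists_generator (α := Kˣ)
  have hQ : 1 < Nat.card K := Finite.one_lt_card
  have hord : orderOf g = Nat.card K - 1 := by
    rw [orderOf_eq_card_of_forall_mem_zpowers hg, Nat.card_units]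
  obtain ⟨c, hc⟩ := hm
  have hζ : IsPrimitiveRoot ((g : K) ^ c) m := by
    have h1 : IsPrimitiveRoot (g : K) (Nat.card K - 1) := by
      rw [← hord]
      exact (IsPrimitiveRoot.coe_units_iff).2 (IsPrimitiveRoot.orderOf g)
    exact h1.pow (by omega) (by rw [hc, mul_comm])
  have h2 := hζ.card_nthRootsFinset
  have h3 : Nat.card {x : K // x ^ m = 1} = (nthRootsFinset m (1 : K)).card :=
    Nat.subtype_card _ (fun x => by rw [mem_nthRootsFinset hm0])
  rw [h3, h2]

theorem card_pow_eq_one [Finite F] {K : Type} [Field K] [Finite K] [Algebra F K] (n : ℕ)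
    (hK : Big F n K) (j : ℕ) (hj : 1 ≤ j) (hjn : j ≤ n) :
    Nat.card {x : K // x ^ (Nat.card F ^ j - 1) = 1} = Nat.card F ^ j - 1 := by
  apply card_pow_eq_one_of_dvd K _ (hK j hj hjn)
  have h1 : 1 < Nat.card F := Finite.one_lt_card
  have h2 : 1 < Nat.card F ^ j := Nat.one_lt_pow (by omega) h1
  omega

/-- a generator `ι` of the character group of `K` -/
theorem exists_gen (K : Type) [Field K] [Finite K] :
    ∃ ι : MulChar K ℂ, (∀ θ : MulChar K ℂ, ∃ a : ℕ, θ = ι ^ a) ∧
      ∀ (m a : ℕ), m ∣ Nat.card K - 1 → 0 < m →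
        (∑ᶠ x : {x : K // x ^ m = 1}, (ι ^ a) x.1 = if m ∣ a then (m : ℂ) else 0) := by
  classical
  have := Fintype.ofFinite K
  obtain ⟨g, hg⟩ := IsCyclic.exists_generator (α := Kˣ)
  have hQ : 1 < Nat.card K := Finite.one_lt_card
  have hcard : Fintype.card Kˣ = Nat.card K - 1 := by
    rw [← Nat.card_eq_fintype_card, Nat.card_units]
  have hcard0 : Fintype.card Kˣ ≠ 0 := Fintype.card_ne_zero
  set N := Fintype.card Kˣ with hN
  set z : ℂ := Complex.exp (2 * Real.pi * Complex.I / N) with hz
  have hζ : IsPrimitiveRoot z N := Complex.isPrimitiveRoot_exp N hcard0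
  set ζ : ℂˣ := (hζ.isUnit hcard0).unit with hζu
  have hζ1 : ζ ∈ rootsOfUnity (Fintype.card Kˣ) ℂ := by
    rw [mem_rootsOfUnity, Units.ext_iff]
    push_cast
    exact hζ.pow_eq_one
  set ι := MulChar.ofRootOfUnity hζ1 hg with hι
  have hιg : ι g = z := MulChar.ofRootOfUnity_spec hζ1 hg
  refine ⟨ι, ?_, ?_⟩
  · intro θ
    have h1 : (θ g) ^ N = 1 := by
      rw [← map_pow, ← Units.val_pow_eq_pow_val, pow_card_eq_one, Units.val_one, map_one]
    obtain ⟨a, _, ha⟩ := hζ.eq_pow_of_pow_eq_one h1
    refine ⟨a, ?_⟩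
    rw [MulChar.eq_iff hg, MulChar.pow_apply_coe, hιg, ha]
  · intro m a hm hm0
    obtain ⟨c, hc⟩ := hm
    have hNc : N = m * c := by rw [hcard, hc]
    have hfin : Fintype {x : K // x ^ m = 1} := Fintype.ofFinite _
    have hne : ∀ x : {x : K // x ^ m = 1}, x.1 ≠ 0 := by
      rintro ⟨x, hx⟩ h0
      simp only at h0
      rw [h0, zero_pow (by omega)] at hx
      exact zero_ne_one hx
    have hval : ∀ x : {x : K // x ^ m = 1}, (ι ^ a) x.1 = (ι x.1) ^ a := by
      intro x
      have := MulChar.pow_apply_coe ι a (Units.mk0 x.1 (hne x))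
      simpa using this
    split_ifs with hma
    · obtain ⟨b, rfl⟩ := hma
      have h1 : ∀ x : {x : K // x ^ m = 1}, (ι ^ (m * b)) x.1 = 1 := by
        intro x
        rw [hval x, pow_mul, ← map_pow, x.2, map_one, one_pow]
      rw [finsum_congr h1, finsum_eq_sum_of_fintype, Finset.sum_const, Finset.card_univ,
        nsmul_one, ← Nat.card_eq_fintype_card, card_pow_eq_one_of_dvd K m ⟨c, hc⟩ hm0]
    · set x0 : {x : K // x ^ m = 1} := ⟨(g : K) ^ c, by
        rw [← pow_mul, mul_comm c m, ← hNc, ← Units.val_pow_eq_pow_val, pow_card_eq_one,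
          Units.val_one]⟩ with hx0
      have hx0v : (ι ^ a) x0.1 = z ^ (c * a) := by
        rw [hval x0, hx0]
        simp only
        rw [map_pow, hιg, pow_mul]
      have hx01 : (ι ^ a) x0.1 ≠ 1 := by
        rw [hx0v]
        intro h
        have h1 := (hζ.pow_eq_one_iff_dvd _).1 h
        rw [hNc, mul_comm m c] at h1
        have hc0 : 0 < c := by
          rcases Nat.eq_zero_or_pos c with h2 | h2
          · rw [h2, mul_zero] at hNc
            exact absurd hNc hcard0
          · exact h2
        exact hma (Nat.dvd_of_mul_dvd_mul_left hc0 h1)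
      rw [finsum_eq_sum_of_fintype]
      set S := ∑ x : {x : K // x ^ m = 1}, (ι ^ a) x.1 with hS
      let e : {x : K // x ^ m = 1} ≃ {x : K // x ^ m = 1} :=
        { toFun := fun x => ⟨x0.1 * x.1, by rw [mul_pow, x0.2, x.2, one_mul]⟩
          invFun := fun x => ⟨x0.1⁻¹ * x.1, by rw [mul_pow, inv_pow, x0.2, x.2, inv_one, one_mul]⟩
          left_inv := fun x => by
            apply Subtype.ext
            simp only
            rw [inv_mul_cancel_left₀ (hne x0)]
          right_inv := fun x => by
            apply Subtype.ext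
            simp only
            rw [mul_inv_cancel_left₀ (hne x0)] }
      have h1 : S = (ι ^ a) x0.1 * S := by
        conv_lhs => rw [hS, ← Equiv.sum_comp e]
        rw [hS, Finset.mul_sum]
        refine Finset.sum_congr rfl fun x _ => ?_
        exact map_mul _ _ _
      have h2 : (1 - (ι ^ a) x0.1) * S = 0 := by linear_combination h1
      rcases mul_eq_zero.1 h2 with h3 | h3
      · exact absurd (sub_eq_zero.1 h3).symm hx01
      · exact h3

end Pool.Agent.REll
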