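import Pool.Agent.Lib_helper97.REll_Orb

/-!
# Block SAN: orbits of multiplication by `q` modulo `q^m - 1`
-/

namespace Pool.Agent.REll
namespace SAN

/-- multiplication by `q` modulo `q^m - 1` -/
def mu (q m : ℕ) : ZMod (q ^ m - 1) → ZMod (q ^ m - 1) := fun x => x * (q : ZMod (q ^ m - 1))

theorem mu_iterate (q m i : ℕ) (x : ZMod (q ^ m - 1)) :
    (mu q m)^[i] x = x * (q : ZMod (q ^ m - 1)) ^ i := by
  induction i generalizing x with
  | zero => simp
  | succ i ih => rw [Function.iterate_succ_apply, ih, mu, pow_succ']; ring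

section
variable (q m : ℕ) (hq : 2 ≤ q) (hm : 1 ≤ m)
include hq

theorem one_le_pow' (k : ℕ) : 1 ≤ q ^ k := Nat.one_le_pow _ _ (by omega)

include hm

theorem N_pos : 0 < q ^ m - 1 := by
  have h1 : 1 < q ^ m := Nat.one_lt_pow (by omega) (by omega)
  omega

omit hm in
theorem q_pow : (q : ZMod (q ^ m - 1)) ^ m = 1 := by
  have h1 := one_le_pow' q hq m
  have h2 : ((q ^ m - 1 : ℕ) : ZMod (q ^ m - 1)) = 0 := ZMod.natCast_self _
  rw [Nat.cast_sub h1, Nat.cast_pow, Nat.cast_one, sub_eq_zero] at h2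
  exact h2

omit hm in
theorem periodic (x : ZMod (q ^ m - 1)) : Function.IsPeriodicPt (mu q m) m x := by
  unfold Function.IsPeriodicPt Function.IsFixedPt
  rw [mu_iterate, q_pow q m hq, mul_one]

theorem mem_periodic (x : ZMod (q ^ m - 1)) : x ∈ Function.periodicPts (mu q m) :=
  Function.mk_mem_periodicPts (by omega) (periodic q m hq x)

omit hm in
theorem dvd_iff (a b i : ℕ) : ((q : ℤ) ^ m - 1) ∣ (a : ℤ) - b * (q : ℤ) ^ i ↔
    (mu q m)^[i] (b : ZMod (q ^ m - 1)) = (a : ZMod (q ^ m - 1)) := by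
  have h1 := one_le_pow' q hq m
  rw [mu_iterate]
  have h2 : ((q : ℤ) ^ m - 1) = ((q ^ m - 1 : ℕ) : ℤ) := by
    rw [Nat.cast_sub h1]; push_cast; ring
  rw [h2, ← ZMod.intCast_zmod_eq_zero_iff_dvd]
  push_cast
  rw [sub_eq_zero, eq_comm]

omit hm in
theorem dvd_iff' (a s : ℕ) : (q ^ m - 1) ∣ a * (q ^ s - 1) ↔
    Function.IsPeriodicPt (mu q m) s (a : ZMod (q ^ m - 1)) := by
  have h1 := one_le_pow' q hq s
  unfold Function.IsPeriodicPt Function.IsFixedPt
  rw [mu_iterate, ← ZMod.natCast_eq_zero_iff, Nat.cast_mul, Nat.cast_sub h1]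
  push_cast
  rw [mul_sub, mul_one, sub_eq_zero]

theorem sa_eq (a : ℕ) : sa q m a = Function.minimalPeriod (mu q m) (a : ZMod (q ^ m - 1)) := by
  unfold sa
  have hp := mem_periodic q m hq hm (a : ZMod (q ^ m - 1))
  have hpos := Function.minimalPeriod_pos_of_mem_periodicPts hp
  apply le_antisymm
  · apply Nat.sInf_le
    exact ⟨hpos, (dvd_iff' q m hq a _).2 (Function.isPeriodicPt_minimalPeriod _ _)⟩
  · apply le_csInf
    · exact ⟨_, hpos, (dvd_iff' q m hq a _).2 (Function.isPeriodicPt_minimalPeriod _ _)⟩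
    · rintro s ⟨hs1, hs⟩
      exact Function.IsPeriodicPt.minimalPeriod_le (by omega) ((dvd_iff' q m hq a _).1 hs)

open Classical in
omit hm in
theorem orb_eq (a b : ℕ) : orb q m a b = ((Finset.range m).filter (fun i : ℕ =>
    (mu q m)^[i] (b : ZMod (q ^ m - 1)) = (a : ZMod (q ^ m - 1)))).card := by
  unfold orb
  congr 1
  ext i
  rw [Finset.mem_filter, Finset.mem_filter, dvd_iff q m hq]

end
end SAN

open SAN

section SAN
variable (q m : ℕ) (hq : 2 ≤ q) (hm : 1 ≤ m)
include hq hm

theorem sa_pos (a : ℕ) : 1 ≤ sa q m a ∧ sa q m a ∣ m := by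
  rw [sa_eq q m hq hm]
  exact ⟨Function.minimalPeriod_pos_of_mem_periodicPts (mem_periodic q m hq hm _),
    (periodic q m hq _).minimalPeriod_dvd⟩

theorem orb_self (a : ℕ) : orb q m a a * sa q m a = m := by
  classical
  rw [orb_eq q m hq, sa_eq q m hq hm]
  set p := Function.minimalPeriod (mu q m) (a : ZMod (q ^ m - 1)) with hp
  have hpos : 0 < p := Function.minimalPeriod_pos_of_mem_periodicPts (mem_periodic q m hq hm _)
  obtain ⟨c, hc⟩ := (periodic q m hq (a : ZMod (q ^ m - 1))).minimalPeriod_dvd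
  rw [← hp] at hc
  have h1 : (Finset.range m).filter (fun i : ℕ =>
      (mu q m)^[i] (a : ZMod (q ^ m - 1)) = (a : ZMod (q ^ m - 1))) =
      (Finset.range c).image (fun j => p * j) := by
    ext i
    rw [Finset.mem_filter, Finset.mem_image, Finset.mem_range]
    constructor
    · rintro ⟨hi, h⟩
      obtain ⟨j, rfl⟩ := Function.isPeriodicPt_iff_minimalPeriod_dvd.1
        (show Function.IsPeriodicPt (mu q m) i (a : ZMod (q ^ m - 1)) from h)
      refine ⟨j, ?_, rfl⟩
      rw [Finset.mem_range]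
      rw [← hp] at hi
      exact Nat.lt_of_mul_lt_mul_left (lt_of_lt_of_eq hi hc)
    · rintro ⟨j, hj, rfl⟩
      rw [Finset.mem_range] at hj
      refine ⟨?_, ?_⟩
      · rw [hc]
        exact Nat.mul_lt_mul_of_pos_left hj hpos
      · exact Function.isPeriodicPt_iff_minimalPeriod_dvd.2 (dvd_mul_right _ _)
  rw [h1, Finset.card_image_of_injective _ (fun x y hxy => Nat.eq_of_mul_eq_mul_left hpos hxy),
    Finset.card_range, hc, mul_comm]

theorem orb_symm (a b : ℕ) : orb q m a b = orb q m b a := by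
  classical
  rw [orb_eq q m hq, orb_eq q m hq]
  have hmod : ∀ (x : ZMod (q ^ m - 1)) (i : ℕ), (mu q m)^[i % m] x = (mu q m)^[i] x :=
    fun x i => (periodic q m hq x).iterate_mod_apply i
  have key : ∀ (x y : ZMod (q ^ m - 1)) (i : ℕ), i < m → (mu q m)^[i] x = y →
      (mu q m)^[(m - i) % m] y = x := by
    intro x y i hi h
    rw [hmod, ← h, ← Function.iterate_add_apply, Nat.sub_add_cancel hi.le]
    exact periodic q m hq x
  refine Finset.card_nbij' (fun i => (m - i) % m) (fun i => (m - i) % m) ?_ ?_ ?_ ?_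
  · intro i hi
    rw [Finset.mem_coe, Finset.mem_filter, Finset.mem_range] at hi ⊢
    exact ⟨Nat.mod_lt _ (by omega), key _ _ i hi.1 hi.2⟩
  · intro i hi
    rw [Finset.mem_coe, Finset.mem_filter, Finset.mem_range] at hi ⊢
    exact ⟨Nat.mod_lt _ (by omega), key _ _ i hi.1 hi.2⟩
  · intro i hi
    rw [Finset.mem_coe, Finset.mem_filter, Finset.mem_range] at hi
    simp only
    rcases Nat.eq_zero_or_pos i with h0 | h0
    · subst h0; simp
    · rw [Nat.mod_eq_of_lt (show m - i < m by omega), Nat.mod_eq_of_lt (by omega)]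
      omega
  · intro i hi
    rw [Finset.mem_coe, Finset.mem_filter, Finset.mem_range] at hi
    simp only
    rcases Nat.eq_zero_or_pos i with h0 | h0
    · subst h0; simp
    · rw [Nat.mod_eq_of_lt (show m - i < m by omega), Nat.mod_eq_of_lt (by omega)]
      omega

theorem orb_ne (a b : ℕ) (h : orb q m a b ≠ 0) :
    sa q m a = sa q m b ∧ orb q m a b = orb q m a a := by
  classical
  rw [orb_eq q m hq, Finset.card_ne_zero] at h
  obtain ⟨i, hi⟩ := h
  rw [Finset.mem_filter, Finset.mem_range] at hi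
  obtain ⟨him, hi⟩ := hi
  constructor
  · rw [sa_eq q m hq hm, sa_eq q m hq hm, ← hi]
    exact Function.minimalPeriod_apply_iterate (mem_periodic q m hq hm _) i
  · rw [orb_eq q m hq, orb_eq q m hq]
    have hmod : ∀ (x : ZMod (q ^ m - 1)) (i : ℕ), (mu q m)^[i % m] x = (mu q m)^[i] x :=
      fun x i => (periodic q m hq x).iterate_mod_apply i
    have hadd : ∀ (x : ZMod (q ^ m - 1)) (j : ℕ), (mu q m)^[j + m] x = (mu q m)^[j] x := by
      intro x j
      rw [Function.iterate_add_apply, show (mu q m)^[m] x = x from periodic q m hq x]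
    refine Finset.card_nbij' (fun j => (j + (m - i)) % m) (fun j => (j + i) % m) ?_ ?_ ?_ ?_
    · intro j hj
      rw [Finset.mem_coe, Finset.mem_filter, Finset.mem_range] at hj ⊢
      refine ⟨Nat.mod_lt _ (by omega), ?_⟩
      rw [hmod]
      conv_lhs => rw [← hi]
      rw [← Function.iterate_add_apply, show j + (m - i) + i = j + m by omega, hadd, hj.2]
    · intro j hj
      rw [Finset.mem_coe, Finset.mem_filter, Finset.mem_range] at hj ⊢
      refine ⟨Nat.mod_lt _ (by omega), ?_⟩
      rw [hmod, Function.iterate_add_apply, hi, hj.2]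
    · intro j hj
      rw [Finset.mem_coe, Finset.mem_filter, Finset.mem_range] at hj
      simp only
      rw [Nat.mod_add_mod, show j + (m - i) + i = j + m by omega, Nat.add_mod_right,
        Nat.mod_eq_of_lt hj.1]
    · intro j hj
      rw [Finset.mem_coe, Finset.mem_filter, Finset.mem_range] at hj
      simp only
      rw [Nat.mod_add_mod, show j + i + (m - i) = j + m by omega, Nat.add_mod_right,
        Nat.mod_eq_of_lt hj.1]

open Classical in
theorem card_orb (a : ℕ) :
    ((Finset.range (q ^ m - 1)).filter (fun b => orb q m a b ≠ 0)).card = sa q m a := by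
  have hN := N_pos q m hq hm
  have : NeZero (q ^ m - 1) := ⟨hN.ne'⟩
  rw [sa_eq q m hq hm]
  set p := Function.minimalPeriod (mu q m) (a : ZMod (q ^ m - 1)) with hp
  rw [← Finset.card_range p]
  symm
  refine Finset.card_bij (fun i _ => ((mu q m)^[i] (a : ZMod (q ^ m - 1))).val) ?_ ?_ ?_
  · intro i hi
    rw [Finset.mem_filter, Finset.mem_range]
    refine ⟨ZMod.val_lt _, ?_⟩
    rw [orb_symm q m hq hm, orb_eq q m hq, Finset.card_ne_zero]
    refine ⟨i % m, ?_⟩
    rw [Finset.mem_filter, Finset.mem_range]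
    refine ⟨Nat.mod_lt _ (by omega), ?_⟩
    rw [(periodic q m hq _).iterate_mod_apply, ZMod.natCast_zmod_val]
  · intro i hi j hj h
    rw [Finset.mem_range] at hi hj
    have h1 := ZMod.val_injective _ h
    exact Function.iterate_injOn_Iio_minimalPeriod hi hj h1
  · intro b hb
    rw [Finset.mem_filter, Finset.mem_range] at hb
    obtain ⟨hb1, hb2⟩ := hb
    rw [orb_symm q m hq hm, orb_eq q m hq, Finset.card_ne_zero] at hb2
    obtain ⟨i, hi⟩ := hb2
    rw [Finset.mem_filter, Finset.mem_range] at hi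
    have hpos : 0 < p := Function.minimalPeriod_pos_of_mem_periodicPts (mem_periodic q m hq hm _)
    refine ⟨i % p, Finset.mem_range.2 (Nat.mod_lt _ hpos), ?_⟩
    rw [Function.iterate_mod_minimalPeriod_eq, hi.2, ZMod.val_natCast, Nat.mod_eq_of_lt hb1]

open Classical in
theorem card_level (s : ℕ) (hs : s ∣ m) :
    ((Finset.range (q ^ m - 1)).filter (fun a => sa q m a = s)).card =
      ((Finset.range (q ^ s - 1)).filter (fun b => sa q s b = s)).card := by
  have hs1 : 1 ≤ s := Nat.pos_of_dvd_of_pos hs (by omega)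
  have hN := N_pos q m hq hm
  have hNs := N_pos q s hq hs1
  obtain ⟨t, ht⟩ : (q ^ s - 1) ∣ (q ^ m - 1) := by
    obtain ⟨c, rfl⟩ := hs
    rw [pow_mul]
    simpa only [one_pow] using Nat.sub_dvd_pow_sub_pow (q ^ s) 1 c
  have ht0 : 0 < t := by
    rcases Nat.eq_zero_or_pos t with h | h
    · rw [h, mul_zero] at ht; omega
    · exact h
  have hsa : ∀ b, sa q m (t * b) = sa q s b := by
    intro b
    unfold sa
    congr 1
    ext r
    simp only [Set.mem_ofPred_eq]
    rw [ht, mul_comm (q ^ s - 1) t, mul_assoc, Nat.mul_dvd_mul_iff_left ht0]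
  symm
  refine Finset.card_bij (fun b _ => t * b) ?_ ?_ ?_
  · intro b hb
    rw [Finset.mem_filter, Finset.mem_range] at hb ⊢
    refine ⟨?_, by rw [hsa]; exact hb.2⟩
    rw [ht, mul_comm (q ^ s - 1) t]
    exact Nat.mul_lt_mul_of_pos_left hb.1 ht0
  · intro b _ c _ h
    exact Nat.eq_of_mul_eq_mul_left ht0 h
  · intro a ha
    rw [Finset.mem_filter, Finset.mem_range] at ha
    have h1 : (q ^ m - 1) ∣ a * (q ^ s - 1) := by
      rw [dvd_iff' q m hq, Function.isPeriodicPt_iff_minimalPeriod_dvd, ← sa_eq q m hq hm, ha.2]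
    rw [ht, mul_comm (q ^ s - 1) t, Nat.mul_dvd_mul_iff_right hNs] at h1
    obtain ⟨b, rfl⟩ := h1
    refine ⟨b, ?_, rfl⟩
    rw [Finset.mem_filter, Finset.mem_range]
    rw [hsa] at ha
    refine ⟨?_, ha.2⟩
    rw [ht, mul_comm (q ^ s - 1) t] at ha
    exact Nat.lt_of_mul_lt_mul_left ha.1

end SAN
end Pool.Agent.REll
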