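import Pool.Agent.Lib_helper45.REll.Defs2
import Pool.Agent.Lib_helper55.REll_RT1

/-!
# Block RT2: Frobenius' formula
-/

open scoped BigOperators ComplexConjugate
open Polynomial

namespace Pool.Agent.REll

section RT2
variable {Γ : Type} [Group Γ] [Finite Γ]

/-- Schur's lemma in the form needed here. -/
theorem schur_scalar {d : ℕ} (ρ : Representation ℂ Γ (Fin d → ℂ)) (hρ : ρ.IsIrreducible)
    (A : (Fin d → ℂ) →ₗ[ℂ] (Fin d → ℂ)) (hA : ∀ g, A * ρ g = ρ g * A) :
    ∃ c : ℂ, A = c • (1 : (Fin d → ℂ) →ₗ[ℂ] (Fin d → ℂ)) := by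
  have := hρ
  let f : Representation.IntertwiningMap ρ ρ := ⟨A, fun g => hA g⟩
  obtain ⟨c, hc⟩ :=
    (Representation.IsIrreducible.algebraMap_intertwiningMap_bijective_of_isAlgClosed
      (ρ := ρ)).2 f
  refine ⟨c, ?_⟩
  have h1 := congrArg (fun F : Representation.IntertwiningMap ρ ρ => F.toLinearMap) hc
  simp only [f] at h1
  rw [← h1]
  rfl

theorem pow_sum [Fintype Γ] {d : ℕ} (ρ : Representation ℂ Γ (Fin d → ℂ)) (w : Γ → ℂ) (k : ℕ) :
    ∑ t : Fin k → Γ, (∏ i, w (t i)) • ρ (List.ofFn t).prod = (∑ g, w g • ρ g) ^ k := by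
  induction k with
  | zero => simp
  | succ k ih =>
    rw [pow_succ', ← ih, Finset.sum_mul_sum, ← (Fin.consEquiv (fun _ : Fin (k + 1) => Γ)).sum_comp,
      Fintype.sum_prod_type]
    refine Finset.sum_congr rfl fun g _ => Finset.sum_congr rfl fun t _ => ?_
    simp only [Fin.consEquiv_apply, Fin.prod_univ_succ, Fin.cons_zero, Fin.cons_succ,
      List.ofFn_succ, List.prod_cons, map_mul]
    rw [smul_mul_smul_comm]

theorem trace_pow_sum [Fintype Γ] {χ : Γ → ℂ} (hχ : χ ∈ IrrChar Γ) (w : Γ → ℂ)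
    (hw : ∀ x g, w (x * g * x⁻¹) = w g) (k : ℕ) (hk : 1 ≤ k) :
    ∑ t : Fin k → Γ, (∏ i, w (t i)) * χ (List.ofFn t).prod =
      (∑ g, w g * χ g) ^ k / χ 1 ^ (k - 1) := by
  classical
  obtain ⟨d, ρ, hρ, rfl⟩ := hχ
  have hd : (d : ℂ) ≠ 0 := by
    intro h
    have h0 : d = 0 := by exact_mod_cast h
    subst h0
    have := hρ
    have hnt : Nontrivial (Subrepresentation ρ) := inferInstance
    obtain ⟨a, b, hab⟩ := hnt
    apply hab
    ext v
    have hv : v = 0 := Subsingleton.elim _ _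
    rw [hv]
    exact ⟨fun _ => b.toSubmodule.zero_mem, fun _ => a.toSubmodule.zero_mem⟩
  have h1 : ρ.character 1 = d := by
    rw [Representation.char_one]
    simp
  obtain ⟨c, hc⟩ := schur_scalar ρ hρ (∑ g, w g • ρ g) (by
    intro x
    rw [Finset.sum_mul, Finset.mul_sum, ← (MulAut.conj x).toEquiv.sum_comp]
    refine Finset.sum_congr rfl fun g _ => ?_
    simp only [MulEquiv.toEquiv_eq_coe, MulEquiv.coe_toEquiv, MulAut.conj_apply]
    rw [hw, smul_mul_assoc, mul_smul_comm, ← map_mul, ← map_mul, inv_mul_cancel_right])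
  have htr : ∑ g, w g * ρ.character g = c * d := by
    have h2 := congrArg (LinearMap.trace ℂ (Fin d → ℂ)) hc
    rw [map_sum, map_smul, LinearMap.trace_one] at h2
    simp only [map_smul, smul_eq_mul] at h2
    rw [show (Module.finrank ℂ (Fin d → ℂ) : ℂ) = d by simp] at h2
    exact h2
  have hpow := pow_sum ρ w k
  rw [hc] at hpow
  have h3 := congrArg (LinearMap.trace ℂ (Fin d → ℂ)) hpow
  rw [map_sum, _root_.smul_pow, one_pow, map_smul, LinearMap.trace_one] at h3
  simp only [map_smul, smul_eq_mul] at h3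
  rw [show (Module.finrank ℂ (Fin d → ℂ) : ℂ) = d by simp] at h3
  have h4 : ∑ t : Fin k → Γ, (∏ i, w (t i)) * ρ.character (List.ofFn t).prod = c ^ k * d := h3
  rw [h4, htr, h1, mul_pow, mul_div_assoc]
  congr 1
  rw [eq_div_iff (pow_ne_zero _ hd), ← pow_succ']
  congr 1
  omega

theorem frob_count_of (hfin : (IrrChar Γ).Finite)
    (hcomp : ∀ (f : Γ → ℂ), (∀ x g, f (x * g * x⁻¹) = f g) →
      f = ∑ χ ∈ hfin.toFinset, gip f χ • χ)
    (T : Set Γ) (hT : ∀ x g, x * g * x⁻¹ ∈ T ↔ g ∈ T) (k : ℕ) (hk : 1 ≤ k) :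
    (Nat.card {t : Fin k → Γ // (∀ i, t i ∈ T) ∧ (List.ofFn t).prod ∈ T} : ℂ) =
      (Nat.card Γ : ℂ) ^ k * ∑ χ ∈ hfin.toFinset,
        gip (T.indicator 1) χ ^ k * conj (gip (T.indicator 1) χ) / χ 1 ^ (k - 1) := by
  classical
  have := Fintype.ofFinite Γ
  set w : Γ → ℂ := T.indicator 1 with hw
  have hwc : ∀ x g, w (x * g * x⁻¹) = w g := by
    intro x g
    simp only [hw, Set.indicator_apply, hT, Pi.one_apply]
  have hwreal : ∀ g, conj (w g) = w g := by
    intro g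
    simp only [hw, Set.indicator_apply]
    split_ifs <;> simp
  -- the count as a sum
  have hN : (Nat.card {t : Fin k → Γ // (∀ i, t i ∈ T) ∧ (List.ofFn t).prod ∈ T} : ℂ) =
      ∑ t : Fin k → Γ, (∏ i, w (t i)) * w (List.ofFn t).prod := by
    rw [Nat.card_eq_fintype_card, Fintype.card_subtype, Finset.card_eq_sum_ones, Nat.cast_sum,
      Finset.sum_filter]
    refine Finset.sum_congr rfl fun t _ => ?_
    have h1 : ∏ i, w (t i) = if ∀ i, t i ∈ T then 1 else 0 := by
      split_ifs with h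
      · refine Finset.prod_eq_one fun i _ => ?_
        simp [hw, h i]
      · push Not at h
        obtain ⟨i, hi⟩ := h
        refine Finset.prod_eq_zero (Finset.mem_univ i) ?_
        simp [hw, hi]
    rw [h1]
    by_cases h2 : ∀ i, t i ∈ T <;> by_cases h3 : (List.ofFn t).prod ∈ T <;>
      simp [hw, h2, h3]
  have hexp : ∀ g, w g = ∑ χ ∈ hfin.toFinset, gip w χ * χ g := by
    intro g
    have := congrFun (hcomp w hwc) g
    rw [Finset.sum_apply] at this
    simpa only [Pi.smul_apply, smul_eq_mul] using this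
  have hgip : ∀ χ : Γ → ℂ, ∑ g, w g * χ g = Nat.card Γ * conj (gip w χ) := by
    intro χ
    unfold gip
    rw [finsum_eq_sum_of_fintype, map_div₀, map_sum, Complex.conj_natCast,
      mul_div_cancel₀ _ (by exact_mod_cast (Nat.card_pos (α := Γ)).ne')]
    refine Finset.sum_congr rfl fun g _ => ?_
    rw [map_mul, Complex.conj_conj, hwreal]
  have hmain : (Nat.card {t : Fin k → Γ // (∀ i, t i ∈ T) ∧ (List.ofFn t).prod ∈ T} : ℂ) =
      ∑ χ ∈ hfin.toFinset, gip w χ * ((Nat.card Γ * conj (gip w χ)) ^ k / χ 1 ^ (k - 1)) := by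
    rw [hN]
    have h1 : ∀ t : Fin k → Γ, (∏ i, w (t i)) * w (List.ofFn t).prod =
        ∑ χ ∈ hfin.toFinset, gip w χ * ((∏ i, w (t i)) * χ (List.ofFn t).prod) := by
      intro t
      rw [hexp (List.ofFn t).prod, Finset.mul_sum]
      exact Finset.sum_congr rfl fun χ _ => by ring
    simp_rw [h1]
    rw [Finset.sum_comm]
    refine Finset.sum_congr rfl fun χ hχ => ?_
    rw [← Finset.mul_sum, trace_pow_sum (hfin.mem_toFinset.1 hχ) w hwc k hk, hgip χ]
  have hconj := congrArg conj hmain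
  rw [Complex.conj_natCast, map_sum] at hconj
  rw [hconj, Finset.mul_sum]
  refine Finset.sum_congr rfl fun χ hχ => ?_
  have hχ1 : conj (χ 1) = χ 1 := by
    obtain ⟨d, ρ, hρ, rfl⟩ := hfin.mem_toFinset.1 hχ
    rw [Representation.char_one, Complex.conj_natCast]
  rw [map_mul, map_div₀, map_pow, map_pow, map_mul, Complex.conj_natCast, Complex.conj_conj, hχ1,
    mul_pow]
  ring

theorem frob_count (T : Set Γ) (hT : ∀ x g, x * g * x⁻¹ ∈ T ↔ g ∈ T) (k : ℕ) (hk : 1 ≤ k) :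
    (Nat.card {t : Fin k → Γ // (∀ i, t i ∈ T) ∧ (List.ofFn t).prod ∈ T} : ℂ) =
      (Nat.card Γ : ℂ) ^ k * ∑ χ ∈ (irrChar_finite Γ).toFinset,
        gip (T.indicator 1) χ ^ k * conj (gip (T.indicator 1) χ) / χ 1 ^ (k - 1) :=
  frob_count_of (irrChar_finite Γ) (fun f hf => irrChar_complete f hf) T hT k hk

end RT2
end Pool.Agent.REll
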