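import Mathlib

/-!
# Abstract operator spaces: basic definitions

Scalar matrices carry their norm as operators between Hilbert spaces (`Matrix.Norms.L2Operator`).
-/

open scoped Matrix.Norms.L2Operator

namespace Pool.Agent.Lib_helper97.OS

variable {E F : Type*} [AddCommGroup E] [Module ℂ E] [AddCommGroup F] [Module ℂ F]

/-- The product `α x β` of a scalar matrix `α`, a matrix `x` with entries in `E` and a scalar
matrix `β`. -/
def sandwich {m n : ℕ} (α : Matrix (Fin m) (Fin n) ℂ) (x : Matrix (Fin n) (Fin n) E)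
    (β : Matrix (Fin n) (Fin m) ℂ) : Matrix (Fin m) (Fin m) E :=
  Matrix.of fun i j => ∑ k, ∑ l, (α i k * β l j) • x k l

/-- The block diagonal matrix `x ⊕ y`. -/
def dsum {m n : ℕ} (x : Matrix (Fin m) (Fin m) E) (y : Matrix (Fin n) (Fin n) E) :
    Matrix (Fin (m + n)) (Fin (m + n)) E :=
  Matrix.reindex finSumFinEquiv finSumFinEquiv (Matrix.fromBlocks x 0 0 y)

/-- Norms on the spaces `M_n(E)` satisfying Ruan's axioms: `‖α x β‖ ≤ ‖α‖ ‖x‖ ‖β‖` for scalar
matrices `α`, `β`, and `‖x ⊕ y‖ = max ‖x‖ ‖y‖`. -/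
structure IsRuan (nrm : (n : ℕ) → Matrix (Fin n) (Fin n) E → ℝ) : Prop where
  eq_zero : ∀ (n : ℕ) (x : Matrix (Fin n) (Fin n) E), nrm n x = 0 → x = 0
  add_le : ∀ (n : ℕ) (x y : Matrix (Fin n) (Fin n) E), nrm n (x + y) ≤ nrm n x + nrm n y
  smul_eq : ∀ (n : ℕ) (c : ℂ) (x : Matrix (Fin n) (Fin n) E), nrm n (c • x) = ‖c‖ * nrm n x
  sandwich_le : ∀ (m n : ℕ) (α : Matrix (Fin m) (Fin n) ℂ) (x : Matrix (Fin n) (Fin n) E)
    (β : Matrix (Fin n) (Fin m) ℂ), nrm m (sandwich α x β) ≤ ‖α‖ * nrm n x * ‖β‖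
  dsum_eq : ∀ (m n : ℕ) (x : Matrix (Fin m) (Fin m) E) (y : Matrix (Fin n) (Fin n) E),
    nrm (m + n) (dsum x y) = max (nrm m x) (nrm n y)

/-- An (abstract) operator space structure, in the sense of Ruan, on a complex vector space `E`. -/
structure OperatorSpace (E : Type*) [AddCommGroup E] [Module ℂ E] where
  /-- the norm on `M_n(E)` -/
  nrm : (n : ℕ) → Matrix (Fin n) (Fin n) E → ℝ
  ruan : IsRuan nrm

/-- The row norm on `M_k(ℂⁿ)`: each entry `v` is replaced by the row `v_1 … v_n`, and the norm of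
the resulting scalar matrix is taken. -/
noncomputable def rowNrm (n k : ℕ) (x : Matrix (Fin k) (Fin k) (Fin n → ℂ)) : ℝ :=
  ‖(Matrix.of fun a q => x a q.1 q.2 : Matrix (Fin k) (Fin k × Fin n) ℂ)‖

/-- The column norm on `M_k(ℂⁿ)`: each entry `v` is replaced by the column with entries
`v_1, …, v_n`, and the norm of the resulting scalar matrix is taken. -/
noncomputable def colNrm (n k : ℕ) (x : Matrix (Fin k) (Fin k) (Fin n → ℂ)) : ℝ :=
  ‖(Matrix.of fun p b => x p.1 b p.2 : Matrix (Fin k × Fin n) (Fin k) ℂ)‖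

/-- The norm on `M_n(V)` of the minimal operator space structure of a normed space `V`: the
supremum of the norms of the scalar matrices `(f(x_{kl}))` over the functionals `f` on `V` of norm
at most `1`. -/
noncomputable def minNrm (V : Type*) [NormedAddCommGroup V] [NormedSpace ℂ V] (n : ℕ)
    (x : Matrix (Fin n) (Fin n) V) : ℝ :=
  ⨆ f : {f : V →L[ℂ] ℂ // ‖f‖ ≤ 1}, ‖x.map f.1‖

/-- The norm of an `n × n` matrix of operators on a Hilbert space `H`, as an operator on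
`H ⊕ ⋯ ⊕ H`: the least `C ≥ 0` with `∑_i ‖∑_k x_{ik} ξ_k‖² ≤ C² ∑_k ‖ξ_k‖²` for all
`ξ_1, …, ξ_n ∈ H`. -/
noncomputable def opNrm {H : Type*} [NormedAddCommGroup H] [InnerProductSpace ℂ H] (n : ℕ)
    (x : Matrix (Fin n) (Fin n) (H →L[ℂ] H)) : ℝ :=
  sInf {C : ℝ | 0 ≤ C ∧ ∀ ξ : Fin n → H,
    ∑ i, ‖∑ k, x i k (ξ k)‖ ^ 2 ≤ C ^ 2 * ∑ k, ‖ξ k‖ ^ 2}

/-- A matrix over the operator space `E` of norm at most `1`. -/
structure Ball (X : OperatorSpace E) where
  /-- the size of the matrix -/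
  size : ℕ
  /-- the matrix -/
  mat : Matrix (Fin size) (Fin size) E
  mat_le : X.nrm size mat ≤ 1

/-- The norm of `φ ∈ M_n(E*)`, which is the completely bounded norm of the associated map
`E → M_n`: the supremum of the norms of the matrices `(φ_{ab}(x_{kl})) ∈ M_n(M_m)` over all `m` and
all `x ∈ M_m(E)` of norm at most `1`. -/
noncomputable def dualNrm (X : OperatorSpace E) (n : ℕ)
    (φ : Matrix (Fin n) (Fin n) (Module.Dual ℂ E)) : ℝ :=
  ⨆ t : Ball X, ‖(Matrix.of fun p q => φ p.1 q.1 (t.mat p.2 q.2) :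
    Matrix (Fin n × Fin t.size) (Fin n × Fin t.size) ℂ)‖

/-- The norm on `M_n(E ⊕ F)` of the `ℓ_∞`-direct sum of the operator spaces `E` and `F`. -/
noncomputable def sumInfNrm (X : OperatorSpace E) (Y : OperatorSpace F) (n : ℕ)
    (z : Matrix (Fin n) (Fin n) (E × F)) : ℝ :=
  max (X.nrm n (z.map Prod.fst)) (Y.nrm n (z.map Prod.snd))

/-- The amplification `M_n(E) → M_n(M_{ι,κ}) = M_{n×ι,n×κ}` of a linear map `j : E → M_{ι,κ}`. -/
def amp {ι κ : Type*} (j : E →ₗ[ℂ] Matrix ι κ ℂ) {n : ℕ} (x : Matrix (Fin n) (Fin n) E) :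
    Matrix (Fin n × ι) (Fin n × κ) ℂ :=
  Matrix.of fun p q => j (x p.1 q.1) p.2 q.2

/-- The linear map `f : E → M_m` is completely contractive. -/
def IsCC (X : OperatorSpace E) {m : ℕ} (f : E →ₗ[ℂ] Matrix (Fin m) (Fin m) ℂ) : Prop :=
  ∀ (n : ℕ) (x : Matrix (Fin n) (Fin n) E), ‖amp f x‖ ≤ X.nrm n x

/-- A pair of completely contractive maps `f : E → M_m`, `g : F → M_m`. -/
structure CCPair (X : OperatorSpace E) (Y : OperatorSpace F) where
  /-- the number `m` -/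
  deg : ℕ
  /-- the map `f` -/
  mapL : E →ₗ[ℂ] Matrix (Fin deg) (Fin deg) ℂ
  /-- the map `g` -/
  mapR : F →ₗ[ℂ] Matrix (Fin deg) (Fin deg) ℂ
  mapL_cc : IsCC X mapL
  mapR_cc : IsCC Y mapR

/-- The norm on `M_n(E ⊕ F)` of the operator space `ℓ_1`-direct sum `E ⊕_1 F`: the norm of
`(x, y)` is the supremum of `‖f_n(x) + g_n(y)‖` over all `m` and all completely contractive maps
`f : E → M_m`, `g : F → M_m` (equivalently, `E ⊕_1 F` sits completely isometrically in the dual of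
`E* ⊕_∞ F*`). -/
noncomputable def sumOneNrm (X : OperatorSpace E) (Y : OperatorSpace F) (n : ℕ)
    (z : Matrix (Fin n) (Fin n) (E × F)) : ℝ :=
  ⨆ t : CCPair X Y, ‖amp t.mapL (z.map Prod.fst) + amp t.mapR (z.map Prod.snd)‖

end Pool.Agent.Lib_helper97.OS
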