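import Mathlib
import Pool.Agent.Lib_helper97.OSDefs

/-!
# Operator spaces: lemmas on scalar matrices and amplifications
-/

open scoped Matrix.Norms.L2Operator ENNReal Kronecker

set_option linter.unusedSectionVars false
set_option linter.unusedSimpArgs false

namespace Pool.Agent.Lib_helper97.OS

section Scalar

variable {ι κ μ ν : Type*} [Fintype ι] [Fintype κ] [Fintype μ] [Fintype ν]
  [DecidableEq ι] [DecidableEq κ] [DecidableEq μ] [DecidableEq ν]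

lemma l2_sq_le (A : Matrix ι κ ℂ) (ξ : κ → ℂ) :
    ∑ i, ‖∑ j, A i j * ξ j‖ ^ 2 ≤ ‖A‖ ^ 2 * ∑ j, ‖ξ j‖ ^ 2 := by
  have h := A.l2_opNorm_mulVec (WithLp.toLp 2 ξ)
  have h2 := pow_le_pow_left₀ (norm_nonneg _) h 2
  rw [mul_pow, EuclideanSpace.norm_sq_eq, EuclideanSpace.norm_sq_eq] at h2
  exact h2

lemma l2_le_of {A : Matrix ι κ ℂ} {C : ℝ} (hC : 0 ≤ C)
    (h : ∀ ξ : κ → ℂ, ∑ i, ‖∑ j, A i j * ξ j‖ ^ 2 ≤ C ^ 2 * ∑ j, ‖ξ j‖ ^ 2) : ‖A‖ ≤ C := by
  rw [Matrix.l2_opNorm_def]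
  refine ContinuousLinearMap.opNorm_le_bound _ hC (fun x => ?_)
  rw [← sq_le_sq₀ (norm_nonneg _) (mul_nonneg hC (norm_nonneg _)), mul_pow,
    EuclideanSpace.norm_sq_eq, EuclideanSpace.norm_sq_eq]
  exact h x

lemma norm_entry_le (A : Matrix ι κ ℂ) (i : ι) (j : κ) : ‖A i j‖ ≤ ‖A‖ := by
  have h := l2_sq_le A (fun k => if k = j then 1 else 0)
  have h1 : ∑ k, ‖(if k = j then (1 : ℂ) else 0)‖ ^ 2 = 1 := by
    rw [Finset.sum_eq_single j]
    · simp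
    · intro b _ hb; simp [hb]
    · intro h; exact absurd (Finset.mem_univ _) h
  have h2 : ∀ i', ∑ k, A i' k * (if k = j then (1 : ℂ) else 0) = A i' j := by
    intro i'; simp
  simp only [h2] at h
  rw [h1, mul_one] at h
  have h3 : ‖A i j‖ ^ 2 ≤ ∑ i', ‖A i' j‖ ^ 2 :=
    Finset.single_le_sum (f := fun i' => ‖A i' j‖ ^ 2) (fun _ _ => by positivity)
      (Finset.mem_univ i)
  exact (sq_le_sq₀ (norm_nonneg _) (norm_nonneg _)).1 (h3.trans h)

/-- a scalar matrix acting on vectors of a Hilbert space -/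
lemma l2_sq_le_vec {H : Type*} [NormedAddCommGroup H] [InnerProductSpace ℂ H]
    (A : Matrix ι κ ℂ) (ξ : κ → H) :
    ∑ i, ‖∑ j, A i j • ξ j‖ ^ 2 ≤ ‖A‖ ^ 2 * ∑ j, ‖ξ j‖ ^ 2 := by
  classical
  let S : Submodule ℂ H := Submodule.span ℂ (Set.range ξ)
  have hfin : FiniteDimensional ℂ S := FiniteDimensional.span_of_finite ℂ (Set.finite_range ξ)
  let η : κ → S := fun j => ⟨ξ j, Submodule.subset_span (Set.mem_range_self j)⟩
  have hη : ∀ j, ‖ξ j‖ = ‖η j‖ := fun j => rfl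
  have hη2 : ∀ i, ‖∑ j, A i j • ξ j‖ = ‖∑ j, A i j • η j‖ := by
    intro i
    rw [Submodule.coe_norm]
    congr 1
    rw [Submodule.coe_sum]
    rfl
  let b := stdOrthonormalBasis ℂ S
  have hb : ∀ x : S, ‖x‖ ^ 2 = ∑ t, ‖inner ℂ (b t) x‖ ^ 2 := fun x =>
    (b.sum_sq_norm_inner_right x).symm
  simp only [hη, hη2, hb]
  rw [Finset.sum_comm]
  have h1 : ∀ t, ∑ i, ‖inner ℂ (b t) (∑ j, A i j • η j)‖ ^ 2 ≤
      ‖A‖ ^ 2 * ∑ j, ‖inner ℂ (b t) (η j)‖ ^ 2 := by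
    intro t
    have := l2_sq_le A (fun j => inner ℂ (b t) (η j))
    simpa only [inner_sum, inner_smul_right] using this
  refine (Finset.sum_le_sum (fun t _ => h1 t)).trans ?_
  rw [← Finset.mul_sum, Finset.sum_comm]

lemma norm_mul_le' (A : Matrix ι κ ℂ) (B : Matrix κ μ ℂ) : ‖A * B‖ ≤ ‖A‖ * ‖B‖ :=
  Matrix.l2_opNorm_mul A B

lemma norm_kron_one_le (A : Matrix ι κ ℂ) : ‖A ⊗ₖ (1 : Matrix μ μ ℂ)‖ ≤ ‖A‖ := by
  apply l2_le_of (norm_nonneg _)
  intro ξ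
  have h1 : ∀ p : ι × μ, ∑ q : κ × μ, (A ⊗ₖ (1 : Matrix μ μ ℂ)) p q * ξ q =
      ∑ k, A p.1 k * ξ (k, p.2) := by
    intro p
    rw [Fintype.sum_prod_type]
    refine Finset.sum_congr rfl (fun k _ => ?_)
    rw [Finset.sum_eq_single p.2]
    · simp [Matrix.kroneckerMap_apply]
    · intro b _ hb
      simp [Matrix.kroneckerMap_apply, Matrix.one_apply, hb.symm]
    · intro h; exact absurd (Finset.mem_univ _) h
  simp only [h1]
  rw [Fintype.sum_prod_type, Finset.sum_comm, Fintype.sum_prod_type (f := fun q => ‖ξ q‖ ^ 2),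
    Finset.sum_comm (f := fun k a => ‖ξ (k, a)‖ ^ 2), Finset.mul_sum]
  exact Finset.sum_le_sum (fun a _ => l2_sq_le A (fun k => ξ (k, a)))

/-- submatrices given by injective index maps have smaller norm -/
lemma norm_submatrix_le (A : Matrix ι κ ℂ) {f : μ → ι} {g : ν → κ} (hf : Function.Injective f)
    (hg : Function.Injective g) : ‖A.submatrix f g‖ ≤ ‖A‖ := by
  apply l2_le_of (norm_nonneg _)
  intro ξ
  let η : κ → ℂ := Function.extend g ξ (fun _ => (0 : ℂ))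
  have hη : ∀ k, η (g k) = ξ k := fun k => hg.extend_apply ξ (fun _ => (0 : ℂ)) k
  have hη0 : ∀ k, k ∉ Set.range g → η k = 0 := fun k hk =>
    Function.extend_apply' ξ (fun _ => (0 : ℂ)) k (fun ⟨a, ha⟩ => hk ⟨a, ha⟩)
  have h1 : ∀ i, ∑ j, A.submatrix f g i j * ξ j = ∑ k, A (f i) k * η k := by
    intro i
    apply Fintype.sum_of_injective g hg
    · intro k hk; rw [hη0 k hk, mul_zero]
    · intro j; rw [hη]; rfl
  have h2 : ∑ j, ‖ξ j‖ ^ 2 = ∑ k, ‖η k‖ ^ 2 := by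
    apply Fintype.sum_of_injective g hg
    · intro k hk; rw [hη0 k hk]; simp
    · intro j; rw [hη]
  have h3 : ∑ i, ‖∑ k, A (f i) k * η k‖ ^ 2 ≤ ∑ i, ‖∑ k, A i k * η k‖ ^ 2 := by
    rw [← Finset.sum_image (s := Finset.univ) (g := f)
      (f := fun i => ‖∑ k, A i k * η k‖ ^ 2) (fun a _ b _ h => hf h)]
    exact Finset.sum_le_sum_of_subset_of_nonneg (Finset.subset_univ _)
      (fun _ _ _ => by positivity)
  simp only [h1]
  rw [h2]
  exact h3.trans (l2_sq_le A η)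

lemma norm_submatrix_equiv (A : Matrix ι κ ℂ) (f : μ ≃ ι) (g : ν ≃ κ) :
    ‖A.submatrix f g‖ = ‖A‖ := by
  apply le_antisymm (norm_submatrix_le A f.injective g.injective)
  have h := norm_submatrix_le (A.submatrix f g) f.symm.injective g.symm.injective
  have h2 : (A.submatrix f g).submatrix f.symm g.symm = A := by
    ext i j; simp
  rwa [h2] at h

lemma norm_transpose (A : Matrix ι κ ℂ) : ‖A.transpose‖ = ‖A‖ := by
  have key : ∀ {ι' κ' : Type _} [Fintype ι'] [Fintype κ'] [DecidableEq ι'] [DecidableEq κ']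
      (B : Matrix ι' κ' ℂ), ‖B.map (starRingEnd ℂ)‖ ≤ ‖B‖ := by
    intro ι' κ' _ _ _ _ B
    apply l2_le_of (norm_nonneg _)
    intro ξ
    have h := l2_sq_le B (fun j => starRingEnd ℂ (ξ j))
    have h1 : ∀ i, ‖∑ j, B.map (starRingEnd ℂ) i j * ξ j‖ =
        ‖∑ j, B i j * starRingEnd ℂ (ξ j)‖ := by
      intro i
      rw [← RCLike.norm_conj, map_sum]
      congr 1
      refine Finset.sum_congr rfl (fun j _ => ?_)
      simp
    simp only [h1]
    simpa using h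
  have h1 : A.transpose = (A.conjTranspose).map (starRingEnd ℂ) := by
    ext i j; simp
  have h2 : A.conjTranspose = (A.transpose).map (starRingEnd ℂ) := by
    ext i j; simp
  have h3 := key A.conjTranspose
  have h4 := key A.transpose
  rw [← h1, Matrix.l2_opNorm_conjTranspose] at h3
  rw [← h2, Matrix.l2_opNorm_conjTranspose] at h4
  exact le_antisymm h3 h4

end Scalar

section Amp

variable {E : Type*} [AddCommGroup E] [Module ℂ E]

lemma sandwich_apply {m n : ℕ} (α : Matrix (Fin m) (Fin n) ℂ) (x : Matrix (Fin n) (Fin n) E)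
    (β : Matrix (Fin n) (Fin m) ℂ) (i j : Fin m) :
    sandwich α x β i j = ∑ k, ∑ l, (α i k * β l j) • x k l := rfl

@[simp] lemma dsum_castAdd_castAdd {m n : ℕ} (x : Matrix (Fin m) (Fin m) E)
    (y : Matrix (Fin n) (Fin n) E) (i j : Fin m) :
    dsum x y (Fin.castAdd n i) (Fin.castAdd n j) = x i j := by
  simp [dsum]

@[simp] lemma dsum_castAdd_natAdd {m n : ℕ} (x : Matrix (Fin m) (Fin m) E)
    (y : Matrix (Fin n) (Fin n) E) (i : Fin m) (j : Fin n) :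
    dsum x y (Fin.castAdd n i) (Fin.natAdd m j) = 0 := by
  simp [dsum]

@[simp] lemma dsum_natAdd_castAdd {m n : ℕ} (x : Matrix (Fin m) (Fin m) E)
    (y : Matrix (Fin n) (Fin n) E) (i : Fin n) (j : Fin m) :
    dsum x y (Fin.natAdd m i) (Fin.castAdd n j) = 0 := by
  simp [dsum]

@[simp] lemma dsum_natAdd_natAdd {m n : ℕ} (x : Matrix (Fin m) (Fin m) E)
    (y : Matrix (Fin n) (Fin n) E) (i j : Fin n) :
    dsum x y (Fin.natAdd m i) (Fin.natAdd m j) = y i j := by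
  simp [dsum]

/-- the inclusion of the first block -/
def inl' (m n : ℕ) : Matrix (Fin m) (Fin (m + n)) ℂ :=
  Matrix.of fun i j => if j = Fin.castAdd n i then 1 else 0

/-- the inclusion of the second block -/
def inr' (m n : ℕ) : Matrix (Fin n) (Fin (m + n)) ℂ :=
  Matrix.of fun i j => if j = Fin.natAdd m i then 1 else 0

lemma norm_inl'_le (m n : ℕ) : ‖inl' m n‖ ≤ 1 := by
  apply l2_le_of zero_le_one
  intro ξ
  simp only [inl', Matrix.of_apply, ite_mul, one_mul, zero_mul, Finset.sum_ite_eq',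
    Finset.mem_univ, if_true, one_pow]
  rw [Fin.sum_univ_add (fun j => ‖ξ j‖ ^ 2)]
  have : 0 ≤ ∑ i : Fin n, ‖ξ (Fin.natAdd m i)‖ ^ 2 := Finset.sum_nonneg (fun _ _ => by positivity)
  linarith

lemma norm_inr'_le (m n : ℕ) : ‖inr' m n‖ ≤ 1 := by
  apply l2_le_of zero_le_one
  intro ξ
  simp only [inr', Matrix.of_apply, ite_mul, one_mul, zero_mul, Finset.sum_ite_eq',
    Finset.mem_univ, if_true, one_pow]
  rw [Fin.sum_univ_add (fun j => ‖ξ j‖ ^ 2)]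
  have : 0 ≤ ∑ i : Fin m, ‖ξ (Fin.castAdd n i)‖ ^ 2 := Finset.sum_nonneg (fun _ _ => by positivity)
  linarith

lemma sandwich_inl' {m n : ℕ} (x : Matrix (Fin m) (Fin m) E) (y : Matrix (Fin n) (Fin n) E) :
    sandwich (inl' m n) (dsum x y) (inl' m n).transpose = x := by
  ext i j
  rw [sandwich_apply]
  rw [Finset.sum_eq_single (Fin.castAdd n i)]
  · rw [Finset.sum_eq_single (Fin.castAdd n j)]
    · simp [inl']
    · intro b _ hb; simp [inl', hb]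
    · intro h; exact absurd (Finset.mem_univ _) h
  · intro b _ hb
    apply Finset.sum_eq_zero
    intro l _
    simp [inl', hb]
  · intro h; exact absurd (Finset.mem_univ _) h

lemma sandwich_inr' {m n : ℕ} (x : Matrix (Fin m) (Fin m) E) (y : Matrix (Fin n) (Fin n) E) :
    sandwich (inr' m n) (dsum x y) (inr' m n).transpose = y := by
  ext i j
  rw [sandwich_apply]
  rw [Finset.sum_eq_single (Fin.natAdd m i)]
  · rw [Finset.sum_eq_single (Fin.natAdd m j)]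
    · simp [inr']
    · intro b _ hb; simp [inr', hb]
    · intro h; exact absurd (Finset.mem_univ _) h
  · intro b _ hb
    apply Finset.sum_eq_zero
    intro l _
    simp [inr', hb]
  · intro h; exact absurd (Finset.mem_univ _) h

/-- equality in Ruan's second axiom follows from the first one and the upper bound -/
lemma dsum_eq_max {nrm : (n : ℕ) → Matrix (Fin n) (Fin n) E → ℝ}
    (hnn : ∀ n x, 0 ≤ nrm n x)
    (hs : ∀ (m n : ℕ) (α : Matrix (Fin m) (Fin n) ℂ) (x : Matrix (Fin n) (Fin n) E)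
      (β : Matrix (Fin n) (Fin m) ℂ), nrm m (sandwich α x β) ≤ ‖α‖ * nrm n x * ‖β‖)
    (hle : ∀ (m n : ℕ) (x : Matrix (Fin m) (Fin m) E) (y : Matrix (Fin n) (Fin n) E),
      nrm (m + n) (dsum x y) ≤ max (nrm m x) (nrm n y))
    (m n : ℕ) (x : Matrix (Fin m) (Fin m) E) (y : Matrix (Fin n) (Fin n) E) :
    nrm (m + n) (dsum x y) = max (nrm m x) (nrm n y) := by
  apply le_antisymm (hle m n x y)
  apply max_le
  · have h := hs m (m + n) (inl' m n) (dsum x y) (inl' m n).transpose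
    rw [sandwich_inl', norm_transpose] at h
    refine h.trans ?_
    have h1 := norm_inl'_le m n
    have h0 := norm_nonneg (inl' m n)
    have h2 := hnn (m + n) (dsum x y)
    calc ‖inl' m n‖ * nrm (m + n) (dsum x y) * ‖inl' m n‖
        ≤ 1 * nrm (m + n) (dsum x y) * 1 := by gcongr
      _ = _ := by ring
  · have h := hs n (m + n) (inr' m n) (dsum x y) (inr' m n).transpose
    rw [sandwich_inr', norm_transpose] at h
    refine h.trans ?_
    have h1 := norm_inr'_le m n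
    have h0 := norm_nonneg (inr' m n)
    have h2 := hnn (m + n) (dsum x y)
    calc ‖inr' m n‖ * nrm (m + n) (dsum x y) * ‖inr' m n‖
        ≤ 1 * nrm (m + n) (dsum x y) * 1 := by gcongr
      _ = _ := by ring

variable {ι κ : Type*}

lemma amp_add (j : E →ₗ[ℂ] Matrix ι κ ℂ) {n : ℕ} (x y : Matrix (Fin n) (Fin n) E) :
    amp j (x + y) = amp j x + amp j y := by
  ext p q
  simp [amp]

lemma amp_smul (j : E →ₗ[ℂ] Matrix ι κ ℂ) {n : ℕ} (c : ℂ) (x : Matrix (Fin n) (Fin n) E) :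
    amp j (c • x) = c • amp j x := by
  ext p q
  simp [amp]

variable [Fintype ι] [Fintype κ] [DecidableEq ι] [DecidableEq κ]

lemma amp_sandwich (j : E →ₗ[ℂ] Matrix ι κ ℂ) {m n : ℕ} (α : Matrix (Fin m) (Fin n) ℂ)
    (x : Matrix (Fin n) (Fin n) E) (β : Matrix (Fin n) (Fin m) ℂ) :
    amp j (sandwich α x β) = (α ⊗ₖ (1 : Matrix ι ι ℂ)) * amp j x * (β ⊗ₖ (1 : Matrix κ κ ℂ)) := by
  ext p q
  simp only [amp, Matrix.of_apply, sandwich_apply, map_sum, map_smul, Matrix.mul_apply,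
    Matrix.sum_apply, Matrix.smul_apply, smul_eq_mul, Matrix.kroneckerMap_apply,
    Fintype.sum_prod_type]
  have h1 : ∀ (l : Fin n) (b : κ), (∑ k, ∑ a, α p.1 k * (1 : Matrix ι ι ℂ) p.2 a *
      (j (x k l)) a b) = ∑ k, α p.1 k * (j (x k l)) p.2 b := by
    intro l b
    refine Finset.sum_congr rfl (fun k _ => ?_)
    rw [Finset.sum_eq_single p.2]
    · simp
    · intro a _ ha; simp [Matrix.one_apply, ha.symm]
    · intro h; exact absurd (Finset.mem_univ _) h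
  simp only [h1]
  have h2 : ∀ l : Fin n, (∑ b, (∑ k, α p.1 k * (j (x k l)) p.2 b) *
      (β l q.1 * (1 : Matrix κ κ ℂ) b q.2)) = (∑ k, α p.1 k * (j (x k l)) p.2 q.2) * β l q.1 := by
    intro l
    rw [Finset.sum_eq_single q.2]
    · simp
    · intro b _ hb; simp [Matrix.one_apply, hb]
    · intro h; exact absurd (Finset.mem_univ _) h
  simp only [h2]
  rw [Finset.sum_comm]
  refine Finset.sum_congr rfl (fun l _ => ?_)
  rw [Finset.sum_mul]
  refine Finset.sum_congr rfl (fun k _ => ?_)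
  ring

lemma norm_amp_sandwich_le (j : E →ₗ[ℂ] Matrix ι κ ℂ) {m n : ℕ} (α : Matrix (Fin m) (Fin n) ℂ)
    (x : Matrix (Fin n) (Fin n) E) (β : Matrix (Fin n) (Fin m) ℂ) :
    ‖amp j (sandwich α x β)‖ ≤ ‖α‖ * ‖amp j x‖ * ‖β‖ := by
  rw [amp_sandwich]
  calc ‖(α ⊗ₖ (1 : Matrix ι ι ℂ)) * amp j x * (β ⊗ₖ (1 : Matrix κ κ ℂ))‖
      ≤ ‖(α ⊗ₖ (1 : Matrix ι ι ℂ)) * amp j x‖ * ‖β ⊗ₖ (1 : Matrix κ κ ℂ)‖ := norm_mul_le' _ _
    _ ≤ (‖α ⊗ₖ (1 : Matrix ι ι ℂ)‖ * ‖amp j x‖) * ‖β ⊗ₖ (1 : Matrix κ κ ℂ)‖ := by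
        gcongr; exact norm_mul_le' _ _
    _ ≤ (‖α‖ * ‖amp j x‖) * ‖β‖ := by
        gcongr
        · exact norm_kron_one_le α
        · exact norm_kron_one_le β

lemma norm_amp_dsum_le (j : E →ₗ[ℂ] Matrix ι κ ℂ) {m n : ℕ} (x : Matrix (Fin m) (Fin m) E)
    (y : Matrix (Fin n) (Fin n) E) :
    ‖amp j (dsum x y)‖ ≤ max ‖amp j x‖ ‖amp j y‖ := by
  apply l2_le_of (le_max_of_le_left (norm_nonneg _))
  intro ξ
  have hx := l2_sq_le (amp j x) (fun q => ξ (Fin.castAdd n q.1, q.2))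
  have hy := l2_sq_le (amp j y) (fun q => ξ (Fin.natAdd m q.1, q.2))
  simp only [Fintype.sum_prod_type, Fin.sum_univ_add, amp, Matrix.of_apply,
    dsum_castAdd_castAdd, dsum_castAdd_natAdd, dsum_natAdd_castAdd, dsum_natAdd_natAdd,
    map_zero, Matrix.zero_apply, zero_mul, Finset.sum_const_zero, add_zero, zero_add] at hx hy ⊢
  set a := ‖(Matrix.of fun (p : Fin m × ι) (q : Fin m × κ) => j (x p.1 q.1) p.2 q.2)‖ with hadef
  set b := ‖(Matrix.of fun (p : Fin n × ι) (q : Fin n × κ) => j (y p.1 q.1) p.2 q.2)‖ with hbdef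
  have ha0 : 0 ≤ a := by rw [hadef]; exact norm_nonneg _
  have hb0 : 0 ≤ b := by rw [hbdef]; exact norm_nonneg _
  have ha : a ^ 2 ≤ (max a b) ^ 2 := pow_le_pow_left₀ ha0 (le_max_left _ _) 2
  have hb : b ^ 2 ≤ (max a b) ^ 2 := pow_le_pow_left₀ hb0 (le_max_right _ _) 2
  rw [mul_add]
  apply add_le_add
  · refine hx.trans ?_
    gcongr
  · refine hy.trans ?_
    gcongr

end Amp

section OpMat

variable {H : Type*} [NormedAddCommGroup H] [InnerProductSpace ℂ H]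

/-- The operator on `ℓ₂ⁿ(H)` given by an `n × n` matrix of operators on the Hilbert space `H`. -/
noncomputable def opMat {n : ℕ} (x : Matrix (Fin n) (Fin n) (H →L[ℂ] H)) :
    PiLp 2 (fun _ : Fin n => H) →L[ℂ] PiLp 2 (fun _ : Fin n => H) :=
  ((PiLp.continuousLinearEquiv 2 ℂ (fun _ : Fin n => H)).symm :
      (Fin n → H) →L[ℂ] PiLp 2 (fun _ : Fin n => H)).comp
    (ContinuousLinearMap.pi fun i => ∑ k, (x i k).comp (PiLp.proj (𝕜 := ℂ) 2 (fun _ : Fin n => H) k))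

lemma opMat_apply {n : ℕ} (x : Matrix (Fin n) (Fin n) (H →L[ℂ] H))
    (ξ : PiLp 2 (fun _ : Fin n => H)) (i : Fin n) :
    (opMat x ξ) i = ∑ k, x i k (ξ k) := by
  simp [opMat]

lemma opMat_sq_le {n : ℕ} (x : Matrix (Fin n) (Fin n) (H →L[ℂ] H)) (ξ : Fin n → H) :
    ∑ i, ‖∑ k, x i k (ξ k)‖ ^ 2 ≤ ‖opMat x‖ ^ 2 * ∑ k, ‖ξ k‖ ^ 2 := by
  have h := (opMat x).le_opNorm (WithLp.toLp 2 ξ)
  have h2 := pow_le_pow_left₀ (norm_nonneg _) h 2
  rw [mul_pow, PiLp.norm_sq_eq_of_L2, PiLp.norm_sq_eq_of_L2] at h2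
  simpa only [opMat_apply] using h2

lemma opMat_le_of {n : ℕ} {x : Matrix (Fin n) (Fin n) (H →L[ℂ] H)} {C : ℝ} (hC : 0 ≤ C)
    (h : ∀ ξ : Fin n → H, ∑ i, ‖∑ k, x i k (ξ k)‖ ^ 2 ≤ C ^ 2 * ∑ k, ‖ξ k‖ ^ 2) :
    ‖opMat x‖ ≤ C := by
  refine ContinuousLinearMap.opNorm_le_bound _ hC (fun ξ => ?_)
  rw [← sq_le_sq₀ (norm_nonneg _) (mul_nonneg hC (norm_nonneg _)), mul_pow,
    PiLp.norm_sq_eq_of_L2, PiLp.norm_sq_eq_of_L2]
  simp only [opMat_apply]
  exact h ξ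

lemma opNrm_eq {n : ℕ} (x : Matrix (Fin n) (Fin n) (H →L[ℂ] H)) : opNrm n x = ‖opMat x‖ := by
  have h0 : 0 ≤ ‖opMat x‖ := norm_nonneg (opMat x)
  apply le_antisymm
  · exact csInf_le ⟨0, fun C hC => hC.1⟩ ⟨h0, opMat_sq_le x⟩
  · exact le_csInf ⟨‖opMat x‖, h0, opMat_sq_le x⟩ (fun C hC => opMat_le_of hC.1 hC.2)

lemma opMat_add {n : ℕ} (x y : Matrix (Fin n) (Fin n) (H →L[ℂ] H)) :
    opMat (x + y) = opMat x + opMat y := by
  ext ξ i
  simp [opMat_apply, Finset.sum_add_distrib]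

lemma opMat_smul {n : ℕ} (c : ℂ) (x : Matrix (Fin n) (Fin n) (H →L[ℂ] H)) :
    opMat (c • x) = c • opMat x := by
  ext ξ i
  simp [opMat_apply, Finset.smul_sum]

lemma norm_opMat_smul_le {n : ℕ} (c : ℂ) (x : Matrix (Fin n) (Fin n) (H →L[ℂ] H)) :
    ‖opMat (c • x)‖ ≤ ‖c‖ * ‖opMat x‖ := by
  have h0 : 0 ≤ ‖opMat x‖ := norm_nonneg (opMat x)
  apply opMat_le_of (by positivity)
  intro ξ
  have h1 : ∀ i, ‖∑ k, (c • x) i k (ξ k)‖ ^ 2 = ‖c‖ ^ 2 * ‖∑ k, x i k (ξ k)‖ ^ 2 := by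
    intro i
    rw [← mul_pow, ← norm_smul, Finset.smul_sum]
    rfl
  simp only [h1]
  rw [← Finset.mul_sum, mul_pow, mul_assoc]
  exact mul_le_mul_of_nonneg_left (opMat_sq_le x ξ) (by positivity)

lemma norm_opMat_smul {n : ℕ} (c : ℂ) (x : Matrix (Fin n) (Fin n) (H →L[ℂ] H)) :
    ‖opMat (c • x)‖ = ‖c‖ * ‖opMat x‖ := by
  apply le_antisymm (norm_opMat_smul_le c x)
  by_cases hc : c = 0
  · rw [hc, norm_zero, zero_mul]
    exact norm_nonneg (opMat ((0 : ℂ) • x))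
  · have h := norm_opMat_smul_le c⁻¹ (c • x)
    rw [smul_smul, inv_mul_cancel₀ hc, one_smul, norm_inv] at h
    have hc' : 0 < ‖c‖ := norm_pos_iff.2 hc
    calc ‖c‖ * ‖opMat x‖ ≤ ‖c‖ * (‖c‖⁻¹ * ‖opMat (c • x)‖) := by gcongr
      _ = _ := by rw [← mul_assoc, mul_inv_cancel₀ hc'.ne', one_mul]

lemma norm_opMat_add_le {n : ℕ} (x y : Matrix (Fin n) (Fin n) (H →L[ℂ] H)) :
    ‖opMat (x + y)‖ ≤ ‖opMat x‖ + ‖opMat y‖ := by
  rw [opMat_add]
  exact ContinuousLinearMap.opNorm_add_le _ _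

lemma norm_opMat_nonneg {n : ℕ} (x : Matrix (Fin n) (Fin n) (H →L[ℂ] H)) : 0 ≤ ‖opMat x‖ :=
  norm_nonneg (opMat x)

lemma opMat_eq_zero {n : ℕ} {x : Matrix (Fin n) (Fin n) (H →L[ℂ] H)} (h : ‖opMat x‖ = 0) :
    x = 0 := by
  ext i k ξ
  have h1 := opMat_sq_le x (fun l => if l = k then ξ else 0)
  rw [h] at h1
  have h2 : ∀ i', ∑ l, x i' l (if l = k then ξ else 0) = x i' k ξ := by
    intro i'
    rw [Finset.sum_eq_single k]
    · simp
    · intro b _ hb; simp [hb]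
    · intro h; exact absurd (Finset.mem_univ _) h
  simp only [h2] at h1
  have h3 : ‖x i k ξ‖ ^ 2 ≤ ∑ i', ‖x i' k ξ‖ ^ 2 :=
    Finset.single_le_sum (f := fun i' => ‖x i' k ξ‖ ^ 2) (fun _ _ => by positivity)
      (Finset.mem_univ i)
  have h4 : ‖x i k ξ‖ ^ 2 ≤ 0 := by
    refine h3.trans (h1.trans ?_)
    simp
  have h5 : ‖x i k ξ‖ = 0 := by
    have := sq_nonneg ‖x i k ξ‖
    exact pow_eq_zero_iff (two_ne_zero) |>.1 (le_antisymm h4 this)
  simpa using h5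

lemma opMat_sandwich_le {m n : ℕ} (α : Matrix (Fin m) (Fin n) ℂ)
    (x : Matrix (Fin n) (Fin n) (H →L[ℂ] H)) (β : Matrix (Fin n) (Fin m) ℂ) :
    ‖opMat (sandwich α x β)‖ ≤ ‖α‖ * ‖opMat x‖ * ‖β‖ := by
  apply opMat_le_of (by positivity)
  intro ξ
  have h1 : ∀ i, ∑ k, (sandwich α x β) i k (ξ k) =
      ∑ k, α i k • (∑ l, x k l (∑ r, β l r • ξ r)) := by
    intro i
    simp only [sandwich_apply, sum_apply, smul_apply,
      map_sum, map_smul, Finset.smul_sum, smul_smul]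
    rw [Finset.sum_comm]
    refine Finset.sum_congr rfl (fun k _ => ?_)
    rw [Finset.sum_comm]
  simp only [h1]
  refine (l2_sq_le_vec α _).trans ?_
  have h2 := opMat_sq_le x (fun l => ∑ r, β l r • ξ r)
  have h3 := l2_sq_le_vec β ξ
  rw [mul_pow, mul_pow, mul_assoc, mul_assoc]
  gcongr
  refine h2.trans ?_
  gcongr

lemma opMat_dsum_le {m n : ℕ} (x : Matrix (Fin m) (Fin m) (H →L[ℂ] H))
    (y : Matrix (Fin n) (Fin n) (H →L[ℂ] H)) :
    ‖opMat (dsum x y)‖ ≤ max ‖opMat x‖ ‖opMat y‖ := by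
  apply opMat_le_of (C := max ‖opMat x‖ ‖opMat y‖) (le_max_of_le_left (norm_nonneg (opMat x)))
  intro ξ
  have hx := opMat_sq_le x (fun q => ξ (Fin.castAdd n q))
  have hy := opMat_sq_le y (fun q => ξ (Fin.natAdd m q))
  simp only [Fin.sum_univ_add,
    dsum_castAdd_castAdd, dsum_castAdd_natAdd, dsum_natAdd_castAdd, dsum_natAdd_natAdd,
    zero_apply, Finset.sum_const_zero, add_zero, zero_add]
  have ha : ‖opMat x‖ ^ 2 ≤ (max ‖opMat x‖ ‖opMat y‖) ^ 2 :=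
    pow_le_pow_left₀ (norm_nonneg (opMat x)) (le_max_left _ _) 2
  have hb : ‖opMat y‖ ^ 2 ≤ (max ‖opMat x‖ ‖opMat y‖) ^ 2 :=
    pow_le_pow_left₀ (norm_nonneg (opMat y)) (le_max_right _ _) 2
  rw [mul_add]
  apply add_le_add
  · refine hx.trans ?_
    gcongr
  · refine hy.trans ?_
    gcongr

end OpMat

section Bounds

variable {ι κ : Type*} [Fintype ι] [Fintype κ] [DecidableEq ι] [DecidableEq κ]

/-- a bound for the norm of a scalar matrix by the bilinear form -/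
lemma l2_le_of_bilin {A : Matrix ι κ ℂ} {C : ℝ} (hC : 0 ≤ C)
    (h : ∀ (η : ι → ℂ) (ξ : κ → ℂ), ‖∑ i, ∑ j, η i * (A i j * ξ j)‖ ≤
      C * Real.sqrt (∑ i, ‖η i‖ ^ 2) * Real.sqrt (∑ j, ‖ξ j‖ ^ 2)) : ‖A‖ ≤ C := by
  apply l2_le_of hC
  intro ξ
  set v : ι → ℂ := fun i => ∑ j, A i j * ξ j with hv
  have h1 := h (fun i => starRingEnd ℂ (v i)) ξ
  have h2 : ∑ i, ∑ j, starRingEnd ℂ (v i) * (A i j * ξ j) = ((∑ i, ‖v i‖ ^ 2 : ℝ) : ℂ) := by
    push_cast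
    refine Finset.sum_congr rfl (fun i _ => ?_)
    rw [← Finset.mul_sum]
    change starRingEnd ℂ (v i) * v i = _
    rw [mul_comm, Complex.mul_conj, Complex.normSq_eq_norm_sq]
    push_cast; rfl
  rw [h2] at h1
  have hnn : 0 ≤ ∑ i, ‖v i‖ ^ 2 := Finset.sum_nonneg (fun _ _ => by positivity)
  have hnn' : 0 ≤ ∑ i, ‖ξ i‖ ^ 2 := Finset.sum_nonneg (fun _ _ => by positivity)
  rw [Complex.norm_of_nonneg hnn] at h1
  have h3 : ∑ i, ‖starRingEnd ℂ (v i)‖ ^ 2 = ∑ i, ‖v i‖ ^ 2 := by simp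
  rw [h3] at h1
  set S := Real.sqrt (∑ i, ‖v i‖ ^ 2) with hS
  set R := Real.sqrt (∑ j, ‖ξ j‖ ^ 2) with hR
  have hS2 : S ^ 2 = ∑ i, ‖v i‖ ^ 2 := Real.sq_sqrt hnn
  have hR2 : R ^ 2 = ∑ i, ‖ξ i‖ ^ 2 := Real.sq_sqrt hnn'
  rw [← hS2] at h1
  change ∑ i, ‖v i‖ ^ 2 ≤ _
  rw [← hS2, ← hR2, ← mul_pow]
  have hS0 : 0 ≤ S := Real.sqrt_nonneg _
  have hR0 : 0 ≤ R := Real.sqrt_nonneg _
  apply pow_le_pow_left₀ hS0
  rcases eq_or_lt_of_le hS0 with h0 | h0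
  · rw [← h0]; positivity
  · have : S * S ≤ (C * R) * S := by nlinarith
    exact le_of_mul_le_mul_right this h0

lemma norm_rowvec_le (η : ι → ℂ) :
    ‖(Matrix.of fun (_ : Fin 1) i => η i : Matrix (Fin 1) ι ℂ)‖ ≤ Real.sqrt (∑ i, ‖η i‖ ^ 2) := by
  apply l2_le_of (Real.sqrt_nonneg _)
  intro ξ
  rw [Real.sq_sqrt (Finset.sum_nonneg (fun _ _ => by positivity))]
  simp only [Matrix.of_apply, Finset.univ_unique, Finset.sum_singleton]
  have h1 : ‖∑ i, η i * ξ i‖ ≤ ∑ i, ‖η i‖ * ‖ξ i‖ := by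
    refine (norm_sum_le _ _).trans (le_of_eq ?_)
    simp
  calc ‖∑ i, η i * ξ i‖ ^ 2 ≤ (∑ i, ‖η i‖ * ‖ξ i‖) ^ 2 :=
        pow_le_pow_left₀ (norm_nonneg _) h1 2
    _ ≤ _ := Finset.sum_mul_sq_le_sq_mul_sq _ _ _

lemma norm_colvec_le (ξ : κ → ℂ) :
    ‖(Matrix.of fun j (_ : Fin 1) => ξ j : Matrix κ (Fin 1) ℂ)‖ ≤ Real.sqrt (∑ i, ‖ξ i‖ ^ 2) := by
  have h := norm_rowvec_le ξ
  have h2 : (Matrix.of fun j (_ : Fin 1) => ξ j : Matrix κ (Fin 1) ℂ) =
      (Matrix.of fun (_ : Fin 1) i => ξ i : Matrix (Fin 1) κ ℂ).transpose := by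
    ext i j; rfl
  rw [h2, norm_transpose]
  exact h

/-- the norm of a scalar matrix is at most the sum of the absolute values of its entries -/
lemma norm_le_sum_entries (A : Matrix ι κ ℂ) : ‖A‖ ≤ ∑ i, ∑ j, ‖A i j‖ := by
  have hnn : 0 ≤ ∑ i, ∑ j, ‖A i j‖ :=
    Finset.sum_nonneg (fun _ _ => Finset.sum_nonneg (fun _ _ => norm_nonneg _))
  apply l2_le_of hnn
  intro ξ
  have hξ : ∀ j, ‖ξ j‖ ≤ Real.sqrt (∑ j, ‖ξ j‖ ^ 2) := by
    intro j
    apply Real.le_sqrt_of_sq_le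
    exact Finset.single_le_sum (f := fun j => ‖ξ j‖ ^ 2) (fun _ _ => by positivity)
      (Finset.mem_univ j)
  set R := Real.sqrt (∑ j, ‖ξ j‖ ^ 2) with hR
  have hR2 : R ^ 2 = ∑ i, ‖ξ i‖ ^ 2 :=
    Real.sq_sqrt (Finset.sum_nonneg (fun _ _ => by positivity))
  have h1 : ∀ i, ‖∑ j, A i j * ξ j‖ ^ 2 ≤ (∑ j, ‖A i j‖) ^ 2 * R ^ 2 := by
    intro i
    rw [← mul_pow]
    apply pow_le_pow_left₀ (norm_nonneg _)
    refine (norm_sum_le _ _).trans ?_
    rw [Finset.sum_mul]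
    apply Finset.sum_le_sum
    intro j _
    rw [norm_mul]
    exact mul_le_mul_of_nonneg_left (hξ j) (norm_nonneg _)
  rw [← hR2]
  refine (Finset.sum_le_sum (fun i _ => h1 i)).trans ?_
  rw [← Finset.sum_mul]
  apply mul_le_mul_of_nonneg_right _ (sq_nonneg R)
  exact Finset.sum_sq_le_sq_sum_of_nonneg (fun i _ => Finset.sum_nonneg (fun _ _ => norm_nonneg _))

end Bounds

section General

variable {E : Type*} [AddCommGroup E] [Module ℂ E] (X : OperatorSpace E)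

namespace OperatorSpace

lemma eq_zero_of_nrm_eq_zero (n : ℕ) (x : Matrix (Fin n) (Fin n) E) (h : X.nrm n x = 0) : x = 0 :=
  X.ruan.eq_zero n x h

lemma nrm_add_le (n : ℕ) (x y : Matrix (Fin n) (Fin n) E) :
    X.nrm n (x + y) ≤ X.nrm n x + X.nrm n y := X.ruan.add_le n x y

lemma nrm_smul (n : ℕ) (c : ℂ) (x : Matrix (Fin n) (Fin n) E) :
    X.nrm n (c • x) = ‖c‖ * X.nrm n x := X.ruan.smul_eq n c x

lemma nrm_sandwich_le (m n : ℕ) (α : Matrix (Fin m) (Fin n) ℂ) (x : Matrix (Fin n) (Fin n) E)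
    (β : Matrix (Fin n) (Fin m) ℂ) : X.nrm m (sandwich α x β) ≤ ‖α‖ * X.nrm n x * ‖β‖ :=
  X.ruan.sandwich_le m n α x β

lemma nrm_dsum (m n : ℕ) (x : Matrix (Fin m) (Fin m) E) (y : Matrix (Fin n) (Fin n) E) :
    X.nrm (m + n) (dsum x y) = max (X.nrm m x) (X.nrm n y) := X.ruan.dsum_eq m n x y

lemma nrm_zero (n : ℕ) : X.nrm n 0 = 0 := by
  have := X.nrm_smul n 0 0
  simpa using this

lemma nrm_neg (n : ℕ) (x : Matrix (Fin n) (Fin n) E) : X.nrm n (-x) = X.nrm n x := by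
  have := X.nrm_smul n (-1) x
  simpa using this

lemma nrm_nonneg (n : ℕ) (x : Matrix (Fin n) (Fin n) E) : 0 ≤ X.nrm n x := by
  have h := X.nrm_add_le n x (-x)
  rw [add_neg_cancel, X.nrm_zero, X.nrm_neg] at h
  linarith

/-- the norm on `E = M_1(E)` -/
def n1 (e : E) : ℝ := X.nrm 1 (Matrix.of fun _ _ => e)

/-- the underlying norm as an additive group norm -/
def groupNorm : AddGroupNorm E where
  toFun := X.n1
  map_zero' := X.nrm_zero 1
  add_le' x y := X.nrm_add_le 1 _ _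
  neg' x := X.nrm_neg 1 (Matrix.of fun _ _ => x)
  eq_zero_of_map_eq_zero' x h := by
    have := X.eq_zero_of_nrm_eq_zero 1 _ h
    exact congrFun (congrFun this 0) 0

lemma n1_smul (c : ℂ) (e : E) : X.n1 (c • e) = ‖c‖ * X.n1 e :=
  X.nrm_smul 1 c (Matrix.of fun _ _ => e)

/-- every linear functional on a finite-dimensional operator space is bounded -/
lemma exists_bound [FiniteDimensional ℂ E] (f : E →ₗ[ℂ] ℂ) :
    ∃ C : ℝ, 0 ≤ C ∧ ∀ e, ‖f e‖ ≤ C * X.n1 e := by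
  let _ : NormedAddCommGroup E := X.groupNorm.toNormedAddCommGroup
  let _ : NormedSpace ℂ E := ⟨fun c e => (X.n1_smul c e).le⟩
  refine ⟨‖LinearMap.toContinuousLinearMap f‖, norm_nonneg _, fun e => ?_⟩
  exact (LinearMap.toContinuousLinearMap f).le_opNorm e

/-- Hahn-Banach -/
lemma exists_functional {e : E} (he : e ≠ 0) :
    ∃ f : E →ₗ[ℂ] ℂ, (∀ e', ‖f e'‖ ≤ X.n1 e') ∧ f e = X.n1 e := by
  let _ : NormedAddCommGroup E := X.groupNorm.toNormedAddCommGroup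
  let _ : NormedSpace ℂ E := ⟨fun c e => (X.n1_smul c e).le⟩
  obtain ⟨g, hg1, hg2⟩ := exists_dual_vector ℂ e (norm_ne_zero_iff.2 he)
  refine ⟨g, fun e' => ?_, hg2⟩
  have := g.le_opNorm e'
  rw [hg1, one_mul] at this
  exact this

lemma n1_pos {e : E} (he : e ≠ 0) : 0 < X.n1 e := by
  rcases eq_or_lt_of_le (X.nrm_nonneg 1 (Matrix.of fun _ _ => e)) with h | h
  · exfalso
    apply he
    have := X.eq_zero_of_nrm_eq_zero 1 _ h.symm
    exact congrFun (congrFun this 0) 0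
  · exact h

/-- a functional of norm at most `C` has completely bounded norm at most `C` -/
lemma norm_map_functional_le (f : E →ₗ[ℂ] ℂ) {C : ℝ} (hC : 0 ≤ C)
    (hf : ∀ e, ‖f e‖ ≤ C * X.n1 e) {n : ℕ} (x : Matrix (Fin n) (Fin n) E) :
    ‖x.map f‖ ≤ C * X.nrm n x := by
  apply l2_le_of_bilin (mul_nonneg hC (X.nrm_nonneg _ _))
  intro η ξ
  have h1 := X.nrm_sandwich_le 1 n (Matrix.of fun (_ : Fin 1) i => η i) x
    (Matrix.of fun j (_ : Fin 1) => ξ j)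
  have h2 : sandwich (Matrix.of fun (_ : Fin 1) i => η i) x (Matrix.of fun j (_ : Fin 1) => ξ j) =
      Matrix.of fun (_ _ : Fin 1) => ∑ k, ∑ l, (η k * ξ l) • x k l := by
    ext i j; rfl
  rw [h2] at h1
  have h3 := hf (∑ k, ∑ l, (η k * ξ l) • x k l)
  have h4 : f (∑ k, ∑ l, (η k * ξ l) • x k l) = ∑ i, ∑ j, η i * ((x.map f) i j * ξ j) := by
    simp only [map_sum, map_smul, smul_eq_mul, Matrix.map_apply]
    refine Finset.sum_congr rfl (fun i _ => Finset.sum_congr rfl (fun j _ => ?_))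
    ring
  rw [← h4]
  refine h3.trans ?_
  have h5 := norm_rowvec_le η
  have h6 := norm_colvec_le ξ
  have h0 := X.nrm_nonneg n x
  calc C * X.n1 (∑ k, ∑ l, (η k * ξ l) • x k l)
      ≤ C * (‖(Matrix.of fun (_ : Fin 1) i => η i : Matrix (Fin 1) (Fin n) ℂ)‖ * X.nrm n x *
        ‖(Matrix.of fun j (_ : Fin 1) => ξ j : Matrix (Fin n) (Fin 1) ℂ)‖) :=
        mul_le_mul_of_nonneg_left h1 hC
    _ ≤ C * (Real.sqrt (∑ i, ‖η i‖ ^ 2) * X.nrm n x * Real.sqrt (∑ i, ‖ξ i‖ ^ 2)) := by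
        gcongr
    _ = _ := by ring

end OperatorSpace

end General

end Pool.Agent.Lib_helper97.OS
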