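import Mathlib
import Pool.Agent.Lib_helper97.OSDefs
import Pool.Agent.Lib_helper97.OSLemmas

/-!
# Operator spaces: verification of Ruan's axioms
-/

open scoped Matrix.Norms.L2Operator ENNReal

namespace Pool.Agent.Lib_helper97.OS

section Constructions

variable {E F : Type*} [AddCommGroup E] [Module ℂ E] [AddCommGroup F] [Module ℂ F]

lemma ruan_ofMap {ι κ : Type*} [Fintype ι] [Fintype κ] [DecidableEq ι] [DecidableEq κ]
    (j : E →ₗ[ℂ] Matrix ι κ ℂ) (hj : ∀ e, j e = 0 → e = 0) :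
    IsRuan (E := E) fun _ x => ‖amp j x‖ where
  eq_zero n x h := by
    ext k l
    apply hj
    ext a b
    have h1 := norm_eq_zero.1 h
    exact congrFun (congrFun h1 (k, a)) (l, b)
  add_le n x y := by rw [amp_add]; exact norm_add_le _ _
  smul_eq n c x := by rw [amp_smul]; exact norm_smul _ _
  sandwich_le m n α x β := norm_amp_sandwich_le j α x β
  dsum_eq m n x y := dsum_eq_max (nrm := fun _ x => ‖amp j x‖) (fun _ _ => norm_nonneg _)
    (fun m n α x β => norm_amp_sandwich_le j α x β) (fun m n x y => norm_amp_dsum_le j x y) m n x y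

lemma ruan_iSup {T : Type*} [Nonempty T] (κ : T → ℕ)
    (j : ∀ t, E →ₗ[ℂ] Matrix (Fin (κ t)) (Fin (κ t)) ℂ)
    (bdd : ∀ (n : ℕ) (x : Matrix (Fin n) (Fin n) E), BddAbove (Set.range fun t => ‖amp (j t) x‖))
    (sep : ∀ e, (∀ t, j t e = 0) → e = 0) : IsRuan (E := E) fun _ x => ⨆ t, ‖amp (j t) x‖ where
  eq_zero n x h := by
    ext k l
    apply sep
    intro t
    ext a b
    have h0 : ‖amp (j t) x‖ = 0 := by
      apply le_antisymm _ (norm_nonneg _)
      rw [← h]
      exact le_ciSup (bdd n x) t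
    have h1 := norm_eq_zero.1 h0
    exact congrFun (congrFun h1 (k, a)) (l, b)
  add_le n x y := by
    apply ciSup_le
    intro t
    rw [amp_add]
    exact (norm_add_le _ _).trans (add_le_add (le_ciSup (bdd n x) t) (le_ciSup (bdd n y) t))
  smul_eq n c x := by
    simp only [amp_smul, norm_smul]
    rw [Real.mul_iSup_of_nonneg (norm_nonneg c)]
  sandwich_le m n α x β := by
    apply ciSup_le
    intro t
    refine (norm_amp_sandwich_le (j t) α x β).trans ?_
    gcongr
    exact le_ciSup (bdd n x) t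
  dsum_eq m n x y := dsum_eq_max (nrm := fun _ x => ⨆ t, ‖amp (j t) x‖)
    (fun _ _ => Real.iSup_nonneg (fun _ => norm_nonneg _))
    (fun m n α x β => by
      apply ciSup_le
      intro t
      refine (norm_amp_sandwich_le (j t) α x β).trans ?_
      gcongr
      exact le_ciSup (bdd n x) t)
    (fun m n x y => by
      apply ciSup_le
      intro t
      refine (norm_amp_dsum_le (j t) x y).trans ?_
      exact max_le_max (le_ciSup (bdd m x) t) (le_ciSup (bdd n y) t)) m n x y

end Constructions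

section Examples

/-- `c ↦ (c)`, the identification `ℂ = M_1`. -/
def scalarMap : ℂ →ₗ[ℂ] Matrix (Fin 1) (Fin 1) ℂ where
  toFun c := Matrix.of fun _ _ => c
  map_add' _ _ := rfl
  map_smul' _ _ := rfl

/-- `v ↦` the row `(v_1, …, v_n)`, the identification `R_n = M_{1,n}`. -/
def rowMap (n : ℕ) : (Fin n → ℂ) →ₗ[ℂ] Matrix (Fin 1) (Fin n) ℂ where
  toFun v := Matrix.of fun _ k => v k
  map_add' _ _ := rfl
  map_smul' _ _ := rfl

/-- `v ↦` the column `(v_1, …, v_n)ᵗ`, the identification `C_n = M_{n,1}`. -/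
def colMap (n : ℕ) : (Fin n → ℂ) →ₗ[ℂ] Matrix (Fin n) (Fin 1) ℂ where
  toFun v := Matrix.of fun k _ => v k
  map_add' _ _ := rfl
  map_smul' _ _ := rfl

lemma norm_amp_scalarMap {n : ℕ} (x : Matrix (Fin n) (Fin n) ℂ) : ‖amp scalarMap x‖ = ‖x‖ := by
  rw [← norm_submatrix_equiv x (Equiv.prodUnique (Fin n) (Fin 1))
    (Equiv.prodUnique (Fin n) (Fin 1))]
  rfl

lemma norm_amp_scalarMap_comp {E : Type*} [AddCommGroup E] [Module ℂ E] (f : E →ₗ[ℂ] ℂ) {n : ℕ}
    (x : Matrix (Fin n) (Fin n) E) : ‖amp (scalarMap ∘ₗ f) x‖ = ‖x.map f‖ := by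
  rw [← norm_amp_scalarMap]
  rfl

lemma ruan_scalar : IsRuan (E := ℂ) fun _ x => ‖x‖ := by
  have h := ruan_ofMap scalarMap (fun _ h => congrFun (congrFun h 0) 0)
  simpa only [norm_amp_scalarMap] using h

lemma rowNrm_eq (n k : ℕ) (x : Matrix (Fin k) (Fin k) (Fin n → ℂ)) :
    rowNrm n k x = ‖amp (rowMap n) x‖ := by
  rw [rowNrm, ← norm_submatrix_equiv (Matrix.of fun a q => x a q.1 q.2 :
    Matrix (Fin k) (Fin k × Fin n) ℂ) (Equiv.prodUnique (Fin k) (Fin 1)) (Equiv.refl _)]
  rfl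

lemma colNrm_eq (n k : ℕ) (x : Matrix (Fin k) (Fin k) (Fin n → ℂ)) :
    colNrm n k x = ‖amp (colMap n) x‖ := by
  rw [colNrm, ← norm_submatrix_equiv (Matrix.of fun p b => x p.1 b p.2 :
    Matrix (Fin k × Fin n) (Fin k) ℂ) (Equiv.refl _) (Equiv.prodUnique (Fin k) (Fin 1))]
  rfl

lemma ruan_row (n : ℕ) : IsRuan (rowNrm n) := by
  have h := ruan_ofMap (rowMap n) (fun _ h => funext fun k => congrFun (congrFun h 0) k)
  simpa only [← rowNrm_eq] using h

lemma ruan_col (n : ℕ) : IsRuan (colNrm n) := by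
  have h := ruan_ofMap (colMap n) (fun _ h => funext fun k => congrFun (congrFun h k) 0)
  simpa only [← colNrm_eq] using h

lemma norm_map_le_sum {V : Type*} [NormedAddCommGroup V] [NormedSpace ℂ V]
    (f : V →L[ℂ] ℂ) (hf : ‖f‖ ≤ 1) {n : ℕ} (x : Matrix (Fin n) (Fin n) V) :
    ‖amp (scalarMap ∘ₗ (f : V →ₗ[ℂ] ℂ)) x‖ ≤ ∑ k, ∑ l, ‖x k l‖ := by
  refine (norm_le_sum_entries _).trans ?_
  simp only [Fintype.sum_prod_type, Finset.univ_unique, Finset.sum_singleton]
  refine Finset.sum_le_sum (fun k _ => Finset.sum_le_sum (fun l _ => ?_))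
  change ‖f (x k l)‖ ≤ _
  calc ‖f (x k l)‖ ≤ ‖f‖ * ‖x k l‖ := f.le_opNorm _
    _ ≤ 1 * ‖x k l‖ := by gcongr
    _ = _ := one_mul _

lemma ruan_min (V : Type*) [NormedAddCommGroup V] [NormedSpace ℂ V] : IsRuan (minNrm V) := by
  have : Nonempty {f : V →L[ℂ] ℂ // ‖f‖ ≤ 1} := ⟨⟨0, by simp⟩⟩
  have h := ruan_iSup (T := {f : V →L[ℂ] ℂ // ‖f‖ ≤ 1}) (fun _ => 1)
    (fun f => scalarMap ∘ₗ (f.1 : V →ₗ[ℂ] ℂ))
    (fun n x => ⟨∑ k, ∑ l, ‖x k l‖, by
      rintro _ ⟨f, rfl⟩
      exact norm_map_le_sum f.1 f.2 x⟩)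
    (fun e h => by
      by_contra he
      obtain ⟨g, hg1, hg2⟩ := exists_dual_vector ℂ e (norm_ne_zero_iff.2 he)
      have h1 := congrFun (congrFun (h ⟨g, hg1.le⟩) 0) 0
      change g e = 0 at h1
      rw [hg2] at h1
      exact he (by simpa using h1))
  have e : (fun (n : ℕ) (x : Matrix (Fin n) (Fin n) V) =>
      ⨆ f : {f : V →L[ℂ] ℂ // ‖f‖ ≤ 1}, ‖amp (scalarMap ∘ₗ (f.1 : V →ₗ[ℂ] ℂ)) x‖) = minNrm V := by
    funext n x
    rw [minNrm]
    congr 1
    funext f
    exact norm_amp_scalarMap_comp (f.1 : V →ₗ[ℂ] ℂ) x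
  rw [← e]
  exact h

variable {E F : Type*} [AddCommGroup E] [Module ℂ E] [AddCommGroup F] [Module ℂ F]

/-- For `x ∈ M_m(E)`, the linear map `φ ↦ (φ(x_{kl}))` from the dual of `E` to `M_m`. -/
def evalMap {m : ℕ} (x : Matrix (Fin m) (Fin m) E) :
    Module.Dual ℂ E →ₗ[ℂ] Matrix (Fin m) (Fin m) ℂ where
  toFun φ := Matrix.of fun k l => φ (x k l)
  map_add' _ _ := rfl
  map_smul' _ _ := rfl

lemma norm_amp_evalMap_le (X : OperatorSpace E) [FiniteDimensional ℂ E] {n : ℕ}
    (φ : Matrix (Fin n) (Fin n) (Module.Dual ℂ E)) :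
    ∃ C : ℝ, ∀ (m : ℕ) (x : Matrix (Fin m) (Fin m) E), X.nrm m x ≤ 1 →
      ‖amp (evalMap x) φ‖ ≤ C := by
  classical
  choose C hC0 hC using fun f : Module.Dual ℂ E => X.exists_bound f
  refine ⟨∑ a, ∑ b, C (φ a b), fun m x hx => ?_⟩
  -- the `(a, b)` block has norm at most `C (φ a b)`
  have hblock : ∀ a b, ‖x.map (φ a b)‖ ≤ C (φ a b) := by
    intro a b
    refine (X.norm_map_functional_le (φ a b) (hC0 _) (hC (φ a b)) x).trans ?_
    have := mul_le_mul_of_nonneg_left hx (hC0 (φ a b))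
    linarith
  have hsum : amp (evalMap x) φ = ∑ a, ∑ b, Matrix.of (fun (p q : Fin n × Fin m) =>
      if p.1 = a ∧ q.1 = b then φ a b (x p.2 q.2) else 0) := by
    ext p q
    rw [Matrix.sum_apply]
    rw [Finset.sum_eq_single p.1]
    · rw [Matrix.sum_apply, Finset.sum_eq_single q.1]
      · simp [amp, evalMap]
      · intro b _ hb; simp [hb.symm]
      · intro h; exact absurd (Finset.mem_univ _) h
    · intro a _ ha
      rw [Matrix.sum_apply]
      apply Finset.sum_eq_zero
      intro b _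
      simp [ha.symm]
    · intro h; exact absurd (Finset.mem_univ _) h
  rw [hsum]
  refine (norm_sum_le _ _).trans (Finset.sum_le_sum fun a _ => ?_)
  refine (norm_sum_le _ _).trans (Finset.sum_le_sum fun b _ => ?_)
  refine le_trans ?_ (hblock a b)
  apply l2_le_of (norm_nonneg _)
  intro ξ
  have h := l2_sq_le (x.map (φ a b)) (fun l => ξ (b, l))
  have h1 : ∀ p : Fin n × Fin m, ∑ q : Fin n × Fin m,
      (Matrix.of (fun (p q : Fin n × Fin m) =>
        if p.1 = a ∧ q.1 = b then φ a b (x p.2 q.2) else 0)) p q * ξ q =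
      if p.1 = a then ∑ l, (x.map (φ a b)) p.2 l * ξ (b, l) else 0 := by
    intro p
    rw [Fintype.sum_prod_type]
    split_ifs with hp
    · rw [Finset.sum_eq_single b]
      · simp [hp]
      · intro b' _ hb'; simp [hb']
      · intro h; exact absurd (Finset.mem_univ _) h
    · simp [hp]
  simp only [h1]
  rw [Fintype.sum_prod_type, Finset.sum_eq_single a]
  · simp only [if_true]
    refine h.trans ?_
    gcongr
    rw [Fintype.sum_prod_type]
    exact Finset.single_le_sum (f := fun b' => ∑ l, ‖ξ (b', l)‖ ^ 2)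
      (fun _ _ => Finset.sum_nonneg (fun _ _ => by positivity)) (Finset.mem_univ b)
  · intro a' _ ha'
    simp [ha']
  · intro h; exact absurd (Finset.mem_univ _) h

lemma nonempty_ball (X : OperatorSpace E) : Nonempty (Ball X) :=
  ⟨⟨0, 0, by rw [X.nrm_zero]; exact zero_le_one⟩⟩

lemma dualNrm_eq (X : OperatorSpace E) (n : ℕ) (φ : Matrix (Fin n) (Fin n) (Module.Dual ℂ E)) :
    dualNrm X n φ = ⨆ t : Ball X, ‖amp (evalMap t.mat) φ‖ := rfl

lemma ruan_dual (X : OperatorSpace E) [FiniteDimensional ℂ E] : IsRuan (dualNrm X) := by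
  have := nonempty_ball X
  have h := ruan_iSup (T := Ball X) (fun t => t.size) (fun t => evalMap t.mat)
    (fun n φ => by
      obtain ⟨C, hC⟩ := norm_amp_evalMap_le X φ
      exact ⟨C, by rintro _ ⟨t, rfl⟩; exact hC _ _ t.mat_le⟩)
    (fun φ h => by
      ext e
      rw [LinearMap.zero_apply]
      by_cases he : e = 0
      · rw [he, map_zero]
      have hpos := X.n1_pos he
      have h1 : X.nrm 1 (Matrix.of fun _ _ => ((X.n1 e : ℂ)⁻¹ • e)) ≤ 1 := by
        have h2 := X.n1_smul ((X.n1 e : ℂ)⁻¹) e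
        change X.n1 _ ≤ 1
        rw [h2, norm_inv, Complex.norm_of_nonneg hpos.le, inv_mul_cancel₀ hpos.ne']
      have h3 := congrFun (congrFun (h ⟨1, Matrix.of fun _ _ => ((X.n1 e : ℂ)⁻¹ • e), h1⟩) 0) 0
      change φ ((X.n1 e : ℂ)⁻¹ • e) = 0 at h3
      rw [map_smul, smul_eq_mul] at h3
      rcases mul_eq_zero.1 h3 with h4 | h4
      · exfalso
        rw [inv_eq_zero] at h4
        exact hpos.ne' (by exact_mod_cast h4)
      · exact h4)
  exact h

lemma amp_coprod {m : ℕ} (f : E →ₗ[ℂ] Matrix (Fin m) (Fin m) ℂ)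
    (g : F →ₗ[ℂ] Matrix (Fin m) (Fin m) ℂ) {n : ℕ} (z : Matrix (Fin n) (Fin n) (E × F)) :
    amp (f.coprod g) z = amp f (z.map Prod.fst) + amp g (z.map Prod.snd) := by
  ext p q
  simp [amp]

lemma isCC_scalarMap_comp (X : OperatorSpace E) (f : E →ₗ[ℂ] ℂ) (hf : ∀ e, ‖f e‖ ≤ X.n1 e) :
    IsCC X (scalarMap ∘ₗ f) := by
  intro n x
  have h := X.norm_map_functional_le f zero_le_one (fun e => by rw [one_mul]; exact hf e) x
  rw [one_mul] at h
  refine le_trans (le_of_eq ?_) h
  exact norm_amp_scalarMap_comp f x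

lemma isCC_zero (X : OperatorSpace E) (m : ℕ) :
    IsCC X (0 : E →ₗ[ℂ] Matrix (Fin m) (Fin m) ℂ) := by
  intro n x
  have : amp (0 : E →ₗ[ℂ] Matrix (Fin m) (Fin m) ℂ) x = 0 := by
    ext p q; rfl
  rw [this, norm_zero]
  exact X.nrm_nonneg n x

lemma ruan_sumInf (X : OperatorSpace E) (Y : OperatorSpace F) : IsRuan (sumInfNrm X Y) where
  eq_zero n z h := by
    have h1 : X.nrm n (z.map Prod.fst) = 0 :=
      le_antisymm (h ▸ le_max_left _ _) (X.nrm_nonneg _ _)
    have h2 : Y.nrm n (z.map Prod.snd) = 0 :=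
      le_antisymm (h ▸ le_max_right _ _) (Y.nrm_nonneg _ _)
    have h3 := X.eq_zero_of_nrm_eq_zero _ _ h1
    have h4 := Y.eq_zero_of_nrm_eq_zero _ _ h2
    ext k l
    · exact congrFun (congrFun h3 k) l
    · exact congrFun (congrFun h4 k) l
  add_le n z w := by
    have h1 := X.nrm_add_le n (z.map Prod.fst) (w.map Prod.fst)
    have h2 := Y.nrm_add_le n (z.map Prod.snd) (w.map Prod.snd)
    have e1 : (z + w).map Prod.fst = z.map Prod.fst + w.map Prod.fst := by ext k l; rfl
    have e2 : (z + w).map Prod.snd = z.map Prod.snd + w.map Prod.snd := by ext k l; rfl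
    rw [sumInfNrm, e1, e2]
    apply max_le
    · exact h1.trans (add_le_add (le_max_left _ _) (le_max_left _ _))
    · exact h2.trans (add_le_add (le_max_right _ _) (le_max_right _ _))
  smul_eq n c z := by
    have e1 : (c • z).map Prod.fst = c • z.map Prod.fst := by ext k l; rfl
    have e2 : (c • z).map Prod.snd = c • z.map Prod.snd := by ext k l; rfl
    rw [sumInfNrm, e1, e2, X.nrm_smul, Y.nrm_smul, sumInfNrm, mul_max_of_nonneg _ _ (norm_nonneg c)]
  sandwich_le m n α z β := by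
    have e1 : (sandwich α z β).map Prod.fst = sandwich α (z.map Prod.fst) β := by
      ext k l; simp [sandwich, Prod.fst_sum]
    have e2 : (sandwich α z β).map Prod.snd = sandwich α (z.map Prod.snd) β := by
      ext k l; simp [sandwich, Prod.snd_sum]
    rw [sumInfNrm, e1, e2]
    apply max_le
    · refine (X.nrm_sandwich_le m n α _ β).trans ?_
      gcongr
      exact le_max_left _ _
    · refine (Y.nrm_sandwich_le m n α _ β).trans ?_
      gcongr
      exact le_max_right _ _
  dsum_eq m n z w := by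
    have e1 : (dsum z w).map Prod.fst = dsum (z.map Prod.fst) (w.map Prod.fst) := by
      ext k l
      refine Fin.addCases (fun k => ?_) (fun k => ?_) k <;>
      refine Fin.addCases (fun l => ?_) (fun l => ?_) l <;> simp
    have e2 : (dsum z w).map Prod.snd = dsum (z.map Prod.snd) (w.map Prod.snd) := by
      ext k l
      refine Fin.addCases (fun k => ?_) (fun k => ?_) k <;>
      refine Fin.addCases (fun l => ?_) (fun l => ?_) l <;> simp
    rw [sumInfNrm, e1, e2, X.nrm_dsum, Y.nrm_dsum]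
    exact max_max_max_comm _ _ _ _

lemma nonempty_ccPair (X : OperatorSpace E) (Y : OperatorSpace F) : Nonempty (CCPair X Y) :=
  ⟨⟨0, 0, 0, isCC_zero X 0, isCC_zero Y 0⟩⟩

lemma sumOneNrm_eq (X : OperatorSpace E) (Y : OperatorSpace F) (n : ℕ)
    (z : Matrix (Fin n) (Fin n) (E × F)) :
    sumOneNrm X Y n z = ⨆ t : CCPair X Y, ‖amp (t.mapL.coprod t.mapR) z‖ := by
  simp only [sumOneNrm, amp_coprod]

lemma ruan_sumOne (X : OperatorSpace E) (Y : OperatorSpace F) : IsRuan (sumOneNrm X Y) := by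
  have := nonempty_ccPair X Y
  have h := ruan_iSup (T := CCPair X Y) (fun t => t.deg) (fun t => t.mapL.coprod t.mapR)
    (fun n z => by
      refine ⟨X.nrm n (z.map Prod.fst) + Y.nrm n (z.map Prod.snd), ?_⟩
      rintro _ ⟨t, rfl⟩
      dsimp only
      rw [amp_coprod]
      exact (norm_add_le _ _).trans (add_le_add (t.mapL_cc n _) (t.mapR_cc n _)))
    (fun z h => by
      obtain ⟨e, f⟩ := z
      have he : e = 0 := by
        by_contra he
        obtain ⟨g, hg1, hg2⟩ := X.exists_functional he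
        have h1 := h ⟨1, scalarMap ∘ₗ g, 0, isCC_scalarMap_comp X g hg1, isCC_zero Y 1⟩
        have h2 := congrFun (congrFun h1 0) 0
        simp [scalarMap] at h2
        rw [hg2] at h2
        exact (X.n1_pos he).ne' (by exact_mod_cast h2)
      have hf : f = 0 := by
        by_contra hf
        obtain ⟨g, hg1, hg2⟩ := Y.exists_functional hf
        have h1 := h ⟨1, 0, scalarMap ∘ₗ g, isCC_zero X 1, isCC_scalarMap_comp Y g hg1⟩
        have h2 := congrFun (congrFun h1 0) 0
        simp [scalarMap] at h2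
        rw [hg2] at h2
        exact (Y.n1_pos hf).ne' (by exact_mod_cast h2)
      rw [he, hf]; rfl)
  have e : (fun (n : ℕ) (z : Matrix (Fin n) (Fin n) (E × F)) =>
      ⨆ t : CCPair X Y, ‖amp (t.mapL.coprod t.mapR) z‖) = sumOneNrm X Y := by
    funext n z
    rw [sumOneNrm_eq]
  rw [← e]
  exact h

lemma ruan_sub {H : Type*} [NormedAddCommGroup H] [InnerProductSpace ℂ H]
    (G : Submodule ℂ (H →L[ℂ] H)) :
    IsRuan (E := G) fun n x => opNrm n (x.map Subtype.val) where
  eq_zero n x h := by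
    rw [opNrm_eq] at h
    have h1 := opMat_eq_zero h
    ext1 k l
    apply Subtype.ext
    exact congrFun (congrFun h1 k) l
  add_le n x y := by
    have : (x + y).map Subtype.val = x.map Subtype.val + y.map Subtype.val := by ext1 k l; rfl
    rw [this, opNrm_eq, opNrm_eq, opNrm_eq]
    exact norm_opMat_add_le _ _
  smul_eq n c x := by
    have : (c • x).map Subtype.val = c • x.map Subtype.val := by ext1 k l; rfl
    rw [this, opNrm_eq, opNrm_eq]
    exact norm_opMat_smul _ _
  sandwich_le m n α x β := by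
    have : (sandwich α x β).map Subtype.val = sandwich α (x.map Subtype.val) β := by
      ext1 k l
      simp [sandwich]
    rw [this, opNrm_eq, opNrm_eq]
    exact opMat_sandwich_le _ _ _
  dsum_eq m n x y := by
    refine dsum_eq_max
      (nrm := fun n (x : Matrix (Fin n) (Fin n) G) => opNrm n (x.map Subtype.val))
      (fun _ _ => by rw [opNrm_eq]; exact norm_opMat_nonneg _)
      (fun m n α x β => ?_) (fun m n x y => ?_) m n x y
    · have : (sandwich α x β).map Subtype.val = sandwich α (x.map Subtype.val) β := by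
        ext1 k l
        simp [sandwich]
      rw [this, opNrm_eq, opNrm_eq]
      exact opMat_sandwich_le _ _ _
    · have : (dsum x y).map Subtype.val = dsum (x.map Subtype.val) (y.map Subtype.val) := by
        ext1 k l
        refine Fin.addCases (fun k => ?_) (fun k => ?_) k <;>
        refine Fin.addCases (fun l => ?_) (fun l => ?_) l <;> simp
      rw [this, opNrm_eq, opNrm_eq, opNrm_eq]
      exact opMat_dsum_le _ _

end Examples

end Pool.Agent.Lib_helper97.OS
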