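import Mathlib
import Pool.Agent.Lib_helper97.OSDefs
import Pool.Agent.Lib_helper97.OSRuan

/-!
# Operator spaces: examples, duals, direct sums, completely bounded maps, `d_cb` and `d_SK`
-/

open scoped Matrix.Norms.L2Operator ENNReal

namespace Pool.Agent.Lib_helper97.OS

variable {E F : Type*} [AddCommGroup E] [Module ℂ E] [AddCommGroup F] [Module ℂ F]

theorem isRuan_scalar : IsRuan (E := ℂ) fun _ x => ‖x‖ := ruan_scalar

/-- The operator space `ℂ`. -/
noncomputable def scalarOS : OperatorSpace ℂ := ⟨fun _ x => ‖x‖, isRuan_scalar⟩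

theorem isRuan_row (n : ℕ) : IsRuan (rowNrm n) := ruan_row n

/-- The row Hilbert space `R_n`. -/
noncomputable def row (n : ℕ) : OperatorSpace (Fin n → ℂ) := ⟨rowNrm n, isRuan_row n⟩

theorem isRuan_col (n : ℕ) : IsRuan (colNrm n) := ruan_col n

/-- The column Hilbert space `C_n`. -/
noncomputable def col (n : ℕ) : OperatorSpace (Fin n → ℂ) := ⟨colNrm n, isRuan_col n⟩

theorem isRuan_min (V : Type*) [NormedAddCommGroup V] [NormedSpace ℂ V] : IsRuan (minNrm V) :=
  ruan_min V

/-- The minimal operator space structure `min(V)` of a normed space `V`. -/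
noncomputable def minOS (V : Type*) [NormedAddCommGroup V] [NormedSpace ℂ V] : OperatorSpace V :=
  ⟨minNrm V, isRuan_min V⟩

theorem isRuan_dual (X : OperatorSpace E) [FiniteDimensional ℂ E] : IsRuan (dualNrm X) :=
  ruan_dual X

/-- The dual operator space `E*` of a finite-dimensional operator space `E`. -/
noncomputable def dual (X : OperatorSpace E) [FiniteDimensional ℂ E] :
    OperatorSpace (Module.Dual ℂ E) := ⟨dualNrm X, isRuan_dual X⟩

theorem isRuan_sumInf (X : OperatorSpace E) (Y : OperatorSpace F) : IsRuan (sumInfNrm X Y) :=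
  ruan_sumInf X Y

/-- The `ℓ_∞`-direct sum `E ⊕ F` of operator spaces. -/
noncomputable def sumInf (X : OperatorSpace E) (Y : OperatorSpace F) : OperatorSpace (E × F) :=
  ⟨sumInfNrm X Y, isRuan_sumInf X Y⟩

theorem isRuan_sumOne (X : OperatorSpace E) (Y : OperatorSpace F) : IsRuan (sumOneNrm X Y) :=
  ruan_sumOne X Y

/-- The operator space `ℓ_1`-direct sum `E ⊕_1 F`. -/
noncomputable def sumOne (X : OperatorSpace E) (Y : OperatorSpace F) : OperatorSpace (E × F) :=
  ⟨sumOneNrm X Y, isRuan_sumOne X Y⟩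

theorem isRuan_sub {H : Type*} [NormedAddCommGroup H] [InnerProductSpace ℂ H]
    (G : Submodule ℂ (H →L[ℂ] H)) : IsRuan (E := G) fun n x => opNrm n (x.map Subtype.val) :=
  ruan_sub G

/-- The operator space structure of a linear subspace `G` of `B(H)`, for a Hilbert space `H`. -/
noncomputable def subOS {H : Type*} [NormedAddCommGroup H] [InnerProductSpace ℂ H]
    (G : Submodule ℂ (H →L[ℂ] H)) : OperatorSpace G :=
  ⟨fun n x => opNrm n (x.map Subtype.val), isRuan_sub G⟩

/-- The completely bounded norm of a linear map `u : E → F`, an element of `[0, ∞]`: the supremum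
over `n` of the norms of the amplifications `M_n(E) → M_n(F)`. -/
noncomputable def cbNorm (X : OperatorSpace E) (Y : OperatorSpace F) (u : E →ₗ[ℂ] F) : ℝ≥0∞ :=
  ⨆ (n : ℕ) (x : Matrix (Fin n) (Fin n) E) (_ : X.nrm n x ≤ 1), ENNReal.ofReal (Y.nrm n (x.map u))

/-- The completely bounded Banach-Mazur distance, an element of `[0, ∞]`. -/
noncomputable def dcb (X : OperatorSpace E) (Y : OperatorSpace F) : ℝ≥0∞ :=
  ⨅ u : E ≃ₗ[ℂ] F, cbNorm X Y u * cbNorm Y X u.symm

/-- Complete isometry of operator spaces. -/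
def CompletelyIsometric (X : OperatorSpace E) (Y : OperatorSpace F) : Prop :=
  ∃ u : E ≃ₗ[ℂ] F, ∀ (n : ℕ) (x : Matrix (Fin n) (Fin n) E), Y.nrm n (x.map u) = X.nrm n x

/-- For a Hilbert space `H`, the infimum of `d_cb(E, G)` over all subspaces `G` of the space of
compact operators on `H`. -/
noncomputable def dCompact (H : Type*) [NormedAddCommGroup H] [InnerProductSpace ℂ H]
    (X : OperatorSpace E) : ℝ≥0∞ :=
  ⨅ (G : Submodule ℂ (H →L[ℂ] H)) (_ : ∀ T ∈ G, IsCompactOperator T), dcb X (subOS G)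

/-- `d_{SK}(E)` for a finite-dimensional operator space `E`: the infimum of `d_cb(E, G)` over all
subspaces `G` of the space `K` of compact operators on `ℓ_2`. -/
noncomputable def dSK (X : OperatorSpace E) [FiniteDimensional ℂ E] : ℝ≥0∞ :=
  dCompact (lp (fun _ : ℕ => ℂ) 2) X

/-- The list of finite-dimensional spaces in the question: `ℓ_∞^2`, `ℓ_1^2`, `R_k`, `C_k`,
`ℂ ⊕ R_k`, `ℂ ⊕ C_k`, `ℂ ⊕_1 R_k`, `ℂ ⊕_1 C_k` with `k > 1`, up to complete isometry. -/
def InList (X : OperatorSpace E) : Prop :=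
  CompletelyIsometric X (minOS (Fin 2 → ℂ)) ∨
  CompletelyIsometric X (minOS (PiLp 1 (fun _ : Fin 2 => ℂ))) ∨
  ∃ k : ℕ, 1 < k ∧
    (CompletelyIsometric X (row k) ∨ CompletelyIsometric X (col k) ∨
      CompletelyIsometric X (sumInf scalarOS (row k)) ∨
      CompletelyIsometric X (sumInf scalarOS (col k)) ∨
      CompletelyIsometric X (sumOne scalarOS (row k)) ∨
      CompletelyIsometric X (sumOne scalarOS (col k)))

end Pool.Agent.Lib_helper97.OS
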