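import Mathlib
import Pool.Agent.Lib_helper97.OSSpaces

/-!
# Operator spaces: bounds for `d_SK`
-/

open scoped Matrix.Norms.L2Operator ENNReal

set_option linter.unusedSectionVars false

namespace Pool.Agent.Lib_helper97.OS

section Lower

variable {E F : Type*} [AddCommGroup E] [Module ℂ E] [AddCommGroup F] [Module ℂ F]

lemma le_cbNorm (X : OperatorSpace E) (Y : OperatorSpace F) (u : E →ₗ[ℂ] F) {n : ℕ}
    (x : Matrix (Fin n) (Fin n) E) (hx : X.nrm n x ≤ 1) :
    ENNReal.ofReal (Y.nrm n (x.map u)) ≤ cbNorm X Y u :=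
  le_iSup_of_le n (le_iSup_of_le x (le_iSup_of_le hx le_rfl))

lemma cbNorm_le (X : OperatorSpace E) (Y : OperatorSpace F) (u : E →ₗ[ℂ] F) {C : ℝ}
    (h : ∀ (n : ℕ) (x : Matrix (Fin n) (Fin n) E), X.nrm n x ≤ 1 → Y.nrm n (x.map u) ≤ C) :
    cbNorm X Y u ≤ ENNReal.ofReal C :=
  iSup_le fun n => iSup_le fun x => iSup_le fun hx => ENNReal.ofReal_le_ofReal (h n x hx)

lemma one_le_dcb (X : OperatorSpace E) (Y : OperatorSpace F) {e : E} (he : e ≠ 0) :
    1 ≤ dcb X Y := by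
  refine le_iInf fun u => ?_
  have ha := X.n1_pos he
  have hue : u e ≠ 0 := fun h => he (by simpa using h)
  have hb := Y.n1_pos hue
  set a := X.n1 e with hadef
  set b := Y.n1 (u e) with hbdef
  have h1 : X.nrm 1 (Matrix.of fun _ _ => ((a : ℂ)⁻¹ • e)) ≤ 1 := by
    change X.n1 _ ≤ 1
    rw [X.n1_smul, norm_inv, Complex.norm_of_nonneg ha.le, ← hadef, inv_mul_cancel₀ ha.ne']
  have h2 := le_cbNorm X Y (u : E →ₗ[ℂ] F) _ h1
  have h3 : Y.nrm 1 ((Matrix.of fun _ _ => ((a : ℂ)⁻¹ • e) : Matrix (Fin 1) (Fin 1) E).map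
      (u : E →ₗ[ℂ] F)) = a⁻¹ * b := by
    have : (Matrix.of fun _ _ => ((a : ℂ)⁻¹ • e) : Matrix (Fin 1) (Fin 1) E).map
      (u : E →ₗ[ℂ] F) = Matrix.of fun _ _ => ((a : ℂ)⁻¹ • u e) := by
      ext i j; simp
    rw [this]
    change Y.n1 _ = _
    rw [Y.n1_smul, norm_inv, Complex.norm_of_nonneg ha.le]
  rw [h3] at h2
  have h4 : Y.nrm 1 (Matrix.of fun _ _ => ((b : ℂ)⁻¹ • u e)) ≤ 1 := by
    change Y.n1 _ ≤ 1
    rw [Y.n1_smul, norm_inv, Complex.norm_of_nonneg hb.le, ← hbdef, inv_mul_cancel₀ hb.ne']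
  have h5 := le_cbNorm Y X (u.symm : F →ₗ[ℂ] E) _ h4
  have h6 : X.nrm 1 ((Matrix.of fun _ _ => ((b : ℂ)⁻¹ • u e) : Matrix (Fin 1) (Fin 1) F).map
      (u.symm : F →ₗ[ℂ] E)) = b⁻¹ * a := by
    have : (Matrix.of fun _ _ => ((b : ℂ)⁻¹ • u e) : Matrix (Fin 1) (Fin 1) F).map
      (u.symm : F →ₗ[ℂ] E) = Matrix.of fun _ _ => ((b : ℂ)⁻¹ • e) := by
      ext i j; simp
    rw [this]
    change X.n1 _ = _
    rw [X.n1_smul, norm_inv, Complex.norm_of_nonneg hb.le]
  rw [h6] at h5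
  calc (1 : ℝ≥0∞) = ENNReal.ofReal (a⁻¹ * b) * ENNReal.ofReal (b⁻¹ * a) := by
        rw [← ENNReal.ofReal_mul (by positivity)]
        have : a⁻¹ * b * (b⁻¹ * a) = 1 := by field_simp
        rw [this, ENNReal.ofReal_one]
    _ ≤ _ := mul_le_mul' h2 h5

lemma one_le_dSK (X : OperatorSpace E) [FiniteDimensional ℂ E] {e : E} (he : e ≠ 0) :
    1 ≤ dSK X :=
  le_iInf fun _ => le_iInf fun _ => one_le_dcb X _ he

end Lower

section Upper

variable {ι κ : Type*} [Fintype ι] [Fintype κ] [DecidableEq ι] [DecidableEq κ]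

/-- The Hilbert space `ℓ_2`. -/
abbrev ell2 : Type := lp (fun _ : ℕ => ℂ) 2

lemma exists_isometry (ι : Type*) [Fintype ι] [DecidableEq ι] :
    Nonempty (EuclideanSpace ℂ ι →ₗᵢ[ℂ] ell2) := by
  classical
  let e : ι → ℕ := fun i => (Fintype.equivFin ι i : ℕ)
  have he : Function.Injective e := fun i j h => (Fintype.equivFin ι).injective (Fin.ext h)
  let b := EuclideanSpace.basisFun ι ℂ
  have hv : Orthonormal ℂ b.toBasis := by
    rw [OrthonormalBasis.coe_toBasis]; exact b.orthonormal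
  let w : ι → ell2 := fun i => lp.single 2 (e i) (1 : ℂ)
  have hw : Orthonormal ℂ w := by
    rw [orthonormal_iff_ite]
    intro i j
    simp only [w]
    rw [lp.inner_single_left]
    by_cases hij : i = j
    · subst hij; simp
    · rw [if_neg hij]
      have : e i ≠ e j := fun h => hij (he h)
      rw [lp.single_apply_ne _ _ _ this]
      simp
  have hf : Orthonormal ℂ ((b.toBasis.constr ℂ w) ∘ b.toBasis) := by
    have : (b.toBasis.constr ℂ w) ∘ b.toBasis = w := by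
      funext i; simp
    rw [this]; exact hw
  exact ⟨LinearMap.isometryOfOrthonormal (b.toBasis.constr ℂ w) hv hf⟩

/-- the operator on `ℓ_2` associated with a scalar matrix -/
noncomputable def theta (U : EuclideanSpace ℂ ι →ₗᵢ[ℂ] ell2) (V : EuclideanSpace ℂ κ →ₗᵢ[ℂ] ell2) :
    Matrix ι κ ℂ →ₗ[ℂ] (ell2 →L[ℂ] ell2) where
  toFun A := U.toContinuousLinearMap.comp
    ((Matrix.toEuclideanLin A).toContinuousLinearMap.comp
      (ContinuousLinearMap.adjoint V.toContinuousLinearMap))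
  map_add' A B := by
    ext1 ξ
    simp
  map_smul' c A := by
    ext1 ξ
    simp

lemma theta_apply (U : EuclideanSpace ℂ ι →ₗᵢ[ℂ] ell2) (V : EuclideanSpace ℂ κ →ₗᵢ[ℂ] ell2)
    (A : Matrix ι κ ℂ) (ξ : ell2) :
    theta U V A ξ = U (Matrix.toEuclideanLin A
      (ContinuousLinearMap.adjoint V.toContinuousLinearMap ξ)) := rfl

lemma theta_compact (U : EuclideanSpace ℂ ι →ₗᵢ[ℂ] ell2) (V : EuclideanSpace ℂ κ →ₗᵢ[ℂ] ell2)
    (A : Matrix ι κ ℂ) : IsCompactOperator (theta U V A) := by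
  have h : IsCompactOperator (((Matrix.toEuclideanLin A).toContinuousLinearMap.comp
      (ContinuousLinearMap.adjoint V.toContinuousLinearMap)) : ell2 →L[ℂ] EuclideanSpace ℂ ι) :=
    isCompactOperator_of_locallyCompactSpace_dom _
  exact h.clm_comp U.toContinuousLinearMap

lemma norm_adjoint_isometry_le (V : EuclideanSpace ℂ κ →ₗᵢ[ℂ] ell2) (ξ : ell2) :
    ‖ContinuousLinearMap.adjoint V.toContinuousLinearMap ξ‖ ≤ ‖ξ‖ := by
  have h := (ContinuousLinearMap.adjoint V.toContinuousLinearMap).le_opNorm ξ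
  have h2 : ‖ContinuousLinearMap.adjoint V.toContinuousLinearMap‖ ≤ 1 := by
    rw [LinearIsometryEquiv.norm_map]
    exact V.norm_toContinuousLinearMap_le
  calc _ ≤ _ := h
    _ ≤ 1 * ‖ξ‖ := by gcongr
    _ = _ := one_mul _

lemma adjoint_isometry_apply (V : EuclideanSpace ℂ κ →ₗᵢ[ℂ] ell2) (η : EuclideanSpace ℂ κ) :
    ContinuousLinearMap.adjoint V.toContinuousLinearMap (V η) = η := by
  apply ext_inner_right ℂ
  intro v
  rw [ContinuousLinearMap.adjoint_inner_left]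
  exact V.inner_map_map η v

variable {E : Type*} [AddCommGroup E] [Module ℂ E]

lemma norm_opMat_theta (U : EuclideanSpace ℂ ι →ₗᵢ[ℂ] ell2) (V : EuclideanSpace ℂ κ →ₗᵢ[ℂ] ell2)
    (j : E →ₗ[ℂ] Matrix ι κ ℂ) {n : ℕ} (x : Matrix (Fin n) (Fin n) E) :
    ‖opMat (x.map (theta U V ∘ₗ j))‖ = ‖amp j x‖ := by
  have key : ∀ (ζ : Fin n → EuclideanSpace ℂ κ) (k : Fin n),
      ‖∑ l, U (Matrix.toEuclideanLin (j (x k l)) (ζ l))‖ ^ 2 =
        ∑ a, ‖∑ l, ∑ b, (j (x k l)) a b * ζ l b‖ ^ 2 := by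
    intro ζ k
    rw [← map_sum, U.norm_map, EuclideanSpace.norm_sq_eq]
    refine Finset.sum_congr rfl (fun a _ => ?_)
    congr 2
    simp [Matrix.toLpLin_apply, Matrix.mulVec, dotProduct]
  apply le_antisymm
  · apply opMat_le_of (norm_nonneg _)
    intro ξ
    have h := l2_sq_le (amp j x)
      (fun q => (ContinuousLinearMap.adjoint V.toContinuousLinearMap (ξ q.1)) q.2)
    have h1 : ∀ k, ∑ l, (x.map (theta U V ∘ₗ j)) k l (ξ l) = ∑ l, U (Matrix.toEuclideanLin
        (j (x k l)) (ContinuousLinearMap.adjoint V.toContinuousLinearMap (ξ l))) := fun k => rfl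
    simp only [h1, key]
    simp only [Fintype.sum_prod_type] at h
    refine le_trans h ?_
    apply mul_le_mul_of_nonneg_left _ (sq_nonneg _)
    apply Finset.sum_le_sum
    intro l _
    rw [← EuclideanSpace.norm_sq_eq]
    exact pow_le_pow_left₀ (norm_nonneg _) (norm_adjoint_isometry_le V (ξ l)) 2
  · apply l2_le_of (norm_nonneg _)
    intro η
    have h := opMat_sq_le (x.map (theta U V ∘ₗ j))
      (fun l => V (WithLp.toLp 2 fun b => η (l, b)))
    have h1 : ∀ k, ∑ l, (x.map (theta U V ∘ₗ j)) k l (V (WithLp.toLp 2 fun b => η (l, b))) =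
        ∑ l, U (Matrix.toEuclideanLin (j (x k l)) (WithLp.toLp 2 fun b => η (l, b))) := by
      intro k
      refine Finset.sum_congr rfl (fun l _ => ?_)
      change theta U V (j (x k l)) _ = _
      rw [theta_apply, adjoint_isometry_apply]
    simp only [h1, key] at h
    simp only [V.norm_map, EuclideanSpace.norm_sq_eq] at h
    simp only [Fintype.sum_prod_type]
    exact h

/-- If `E` embeds linearly into scalar matrices with distortion `1/c` then `d_SK(E) ≤ 1/c`. -/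
lemma dSK_le (X : OperatorSpace E) [FiniteDimensional ℂ E] (j : E →ₗ[ℂ] Matrix ι κ ℂ) {c : ℝ}
    (hc : 0 < c)
    (h1 : ∀ (n : ℕ) (x : Matrix (Fin n) (Fin n) E), ‖amp j x‖ ≤ X.nrm n x)
    (h2 : ∀ (n : ℕ) (x : Matrix (Fin n) (Fin n) E), c * X.nrm n x ≤ ‖amp j x‖) :
    dSK X ≤ ENNReal.ofReal (1 / c) := by
  obtain ⟨U⟩ := exists_isometry ι
  obtain ⟨V⟩ := exists_isometry κ
  let Φ : E →ₗ[ℂ] (ell2 →L[ℂ] ell2) := theta U V ∘ₗ j
  have hinj : Function.Injective Φ := by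
    rw [← LinearMap.ker_eq_bot, LinearMap.ker_eq_bot']
    intro e he
    have h3 := norm_opMat_theta U V j (Matrix.of fun (_ _ : Fin 1) => e)
    have h4 : ((Matrix.of fun (_ _ : Fin 1) => e).map (theta U V ∘ₗ j)) =
        (0 : Matrix (Fin 1) (Fin 1) (ell2 →L[ℂ] ell2)) := by
      ext1 a b
      exact he
    have h5 : opMat (0 : Matrix (Fin 1) (Fin 1) (ell2 →L[ℂ] ell2)) = 0 := by
      ext1 ξ
      ext1 i
      rw [opMat_apply]
      simp
    rw [h4, h5, norm_zero] at h3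
    have h6 := h2 1 (Matrix.of fun (_ _ : Fin 1) => e)
    rw [← h3] at h6
    by_contra hne
    have h7 : 0 < c * X.n1 e := mul_pos hc (X.n1_pos hne)
    exact absurd h6 (not_le.2 h7)
  let u : E ≃ₗ[ℂ] LinearMap.range Φ := LinearEquiv.ofInjective Φ hinj
  have hmap : ∀ (n : ℕ) (x : Matrix (Fin n) (Fin n) E),
      (subOS (LinearMap.range Φ)).nrm n (x.map (u : E →ₗ[ℂ] LinearMap.range Φ)) = ‖amp j x‖ := by
    intro n x
    rw [← norm_opMat_theta U V j x, ← opNrm_eq]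
    rfl
  refine (iInf_le_of_le (LinearMap.range Φ) (iInf_le_of_le ?_ (iInf_le_of_le u ?_)))
  · rintro _ ⟨e, rfl⟩
    exact theta_compact U V (j e)
  · have hA : cbNorm X (subOS (LinearMap.range Φ)) (u : E →ₗ[ℂ] LinearMap.range Φ) ≤
        ENNReal.ofReal 1 := by
      apply cbNorm_le
      intro n x hx
      rw [hmap]
      exact (h1 n x).trans hx
    have hB : cbNorm (subOS (LinearMap.range Φ)) X (u.symm : LinearMap.range Φ →ₗ[ℂ] E) ≤
        ENNReal.ofReal (1 / c) := by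
      apply cbNorm_le
      intro n y hy
      set x := y.map (u.symm : LinearMap.range Φ →ₗ[ℂ] E) with hx
      have hy' : y = x.map (u : E →ₗ[ℂ] LinearMap.range Φ) := by
        ext1 a b
        simp [hx]
      rw [hy', hmap] at hy
      rw [le_div_iff₀ hc, mul_comm]
      exact (h2 n x).trans hy
    calc _ ≤ ENNReal.ofReal 1 * ENNReal.ofReal (1 / c) := mul_le_mul' hA hB
      _ = _ := by rw [ENNReal.ofReal_one, one_mul]

end Upper

end Pool.Agent.Lib_helper97.OS
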