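import Mathlib
import Pool.Agent.Lib_helper97.OSDistance

/-!
# Truncated Fock spaces and the dual of `R_n ⊕ C_m`
-/

open scoped Matrix.Norms.L2Operator ENNReal Kronecker MatrixOrder ComplexOrder

set_option linter.unusedSectionVars false

namespace Pool.Agent.Lib_helper97.OS

section Words

/-- words of length at most `N` in the letters `L` -/
def Wd (L : Type) : ℕ → Type
  | 0 => Unit
  | (N + 1) => Option (L × Wd L N)

instance instFintypeWd (L : Type) [Fintype L] : (N : ℕ) → Fintype (Wd L N)
  | 0 => inferInstanceAs (Fintype Unit)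
  | (N + 1) =>
    haveI := instFintypeWd L N
    inferInstanceAs (Fintype (Option (L × Wd L N)))

instance instDecEqWd (L : Type) [DecidableEq L] : (N : ℕ) → DecidableEq (Wd L N)
  | 0 => inferInstanceAs (DecidableEq Unit)
  | (N + 1) =>
    haveI := instDecEqWd L N
    inferInstanceAs (DecidableEq (Option (L × Wd L N)))

/-- the inclusion of words of length at most `N` into words of length at most `N + 1` -/
def emb (L : Type) : (N : ℕ) → Wd L N → Option (L × Wd L N)
  | 0, _ => none
  | (_ + 1), none => none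
  | (N + 1), some (q, w) => some (q, emb L N w)

lemma emb_injective (L : Type) : ∀ N, Function.Injective (emb L N)
  | 0 => fun _ _ _ => rfl
  | (N + 1) => by
    intro v w h
    match v, w, h with
    | none, none, _ => rfl
    | none, some (q, w), h => simp [emb] at h
    | some (q, v), none, h => simp [emb] at h
    | some (q, v), some (q', w), h =>
      simp only [emb, Option.some.injEq, Prod.mk.injEq] at h
      obtain ⟨h1, h2⟩ := h
      rw [h1, emb_injective L N h2]

variable {L : Type} [Fintype L] [DecidableEq L]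
variable {Λ : Type} [Fintype Λ] [DecidableEq Λ]

/-- products of matrices along words, alternating between two families of matrices -/
def SS (M : Bool → L → Matrix Λ Λ ℂ) : Bool → (N : ℕ) → Wd L N → Matrix Λ Λ ℂ
  | _, 0, _ => 1
  | _, (_ + 1), none => 1
  | b, (N + 1), some (q, w) => M b q * SS M (!b) N w

lemma SS_emb (M : Bool → L → Matrix Λ Λ ℂ) : ∀ (b : Bool) (N : ℕ) (w : Wd L N),
    SS M b (N + 1) (emb L N w) = SS M b N w
  | _, 0, _ => rfl
  | _, (_ + 1), none => rfl
  | b, (N + 1), some (q, w) => by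
    change M b q * SS M (!b) (N + 1) (emb L N w) = M b q * SS M (!b) N w
    rw [SS_emb M (!b) N w]

lemma sum_SS (M : Bool → L → Matrix Λ Λ ℂ) (hM : ∀ b, ∑ q, M b q * (M b q).conjTranspose = 1) :
    ∀ (N : ℕ) (b : Bool), ∑ w : Wd L N, SS M b N w * (SS M b N w).conjTranspose =
      ((N : ℂ) + 1) • (1 : Matrix Λ Λ ℂ)
  | 0, b => by
    change ∑ w : Unit, (1 : Matrix Λ Λ ℂ) * (1 : Matrix Λ Λ ℂ).conjTranspose = _
    simp
  | (N + 1), b => by
    change ∑ w : Option (L × Wd L N), SS M b (N + 1) w * (SS M b (N + 1) w).conjTranspose = _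
    rw [Fintype.sum_option, Fintype.sum_prod_type]
    have h1 : SS M b (N + 1) (none : Option (L × Wd L N)) = 1 := rfl
    have h2 : ∀ q (w : Wd L N), SS M b (N + 1) (some (q, w) : Option (L × Wd L N)) =
      M b q * SS M (!b) N w := fun _ _ => rfl
    rw [h1]
    simp only [h2, Matrix.conjTranspose_mul]
    have h3 : ∀ q, ∑ w : Wd L N, M b q * SS M (!b) N w *
        ((SS M (!b) N w).conjTranspose * (M b q).conjTranspose) =
        ((N : ℂ) + 1) • (M b q * (M b q).conjTranspose) := by
      intro q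
      have : ∀ w : Wd L N, M b q * SS M (!b) N w *
        ((SS M (!b) N w).conjTranspose * (M b q).conjTranspose) =
        M b q * (SS M (!b) N w * (SS M (!b) N w).conjTranspose) * (M b q).conjTranspose := by
        intro w; simp only [Matrix.mul_assoc]
      simp only [this]
      rw [← Finset.sum_mul, ← Finset.mul_sum, sum_SS M hM N (!b)]
      simp
    simp only [h3]
    rw [← Finset.smul_sum, hM b]
    push_cast
    simp only [Matrix.conjTranspose_one, mul_one]
    module

/-- the truncated creation operators -/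
def shat (L : Type) [DecidableEq L] (N : ℕ) (q : L) :
    Matrix (Option (L × Wd L N)) (Option (L × Wd L N)) ℂ :=
  Matrix.of fun w' w => match w' with
    | none => 0
    | some (q', v) => if q' = q ∧ w = emb L N v then 1 else 0

lemma shat_none (N : ℕ) (q : L) (w : Option (L × Wd L N)) : shat L N q none w = 0 := rfl

lemma shat_some (N : ℕ) (q q' : L) (v : Wd L N) (w : Option (L × Wd L N)) :
    shat L N q (some (q', v)) w = if q' = q ∧ w = emb L N v then 1 else 0 := rfl

/-- summation against the truncated creation operator -/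
lemma sum_shat {A : Type*} [AddCommGroup A] [Module ℂ A] (N : ℕ) (q : L)
    (f : Option (L × Wd L N) → Option (L × Wd L N) → A) :
    ∑ w', ∑ w, shat L N q w' w • f w' w = ∑ v : Wd L N, f (some (q, v)) (emb L N v) := by
  rw [Fintype.sum_option]
  simp only [shat_none, zero_smul, Finset.sum_const_zero, zero_add]
  rw [Fintype.sum_prod_type, Finset.sum_eq_single q]
  · refine Finset.sum_congr rfl (fun v _ => ?_)
    rw [Finset.sum_eq_single (emb L N v)]
    · rw [shat_some, if_pos ⟨rfl, rfl⟩, one_smul]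
    · intro w _ hw
      rw [shat_some, if_neg (fun h => hw h.2), zero_smul]
    · intro h; exact absurd (Finset.mem_univ _) h
  · intro q' _ hq'
    apply Finset.sum_eq_zero
    intro v _
    apply Finset.sum_eq_zero
    intro w _
    rw [shat_some, if_neg (fun h => hq' h.1), zero_smul]
  · intro h; exact absurd (Finset.mem_univ _) h

end Words

section Compression

variable {K W Λ : Type*} [Fintype K] [DecidableEq K] [Fintype W] [DecidableEq W]
  [Fintype Λ] [DecidableEq Λ]

/-- the isometry associated with a column of matrices -/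
def VV (K : Type*) [DecidableEq K] (Q : W → Matrix Λ Λ ℂ) : Matrix ((K × W) × Λ) (K × Λ) ℂ :=
  Matrix.of fun p q => if p.1.1 = q.1 then Q p.1.2 p.2 q.2 else 0

lemma norm_VV_le (Q : W → Matrix Λ Λ ℂ) (hQ : ∑ w, (Q w).conjTranspose * Q w = 1) :
    ‖VV K Q‖ ≤ 1 := by
  have h1 : (VV K Q).conjTranspose * VV K Q = 1 := by
    ext ⟨p1, p2⟩ ⟨q1, q2⟩
    rw [Matrix.mul_apply, Fintype.sum_prod_type, Fintype.sum_prod_type]
    have h2 : ∀ (a : K), ∑ w, ∑ z, (VV K Q).conjTranspose (p1, p2) ((a, w), z) *
        VV K Q ((a, w), z) (q1, q2) =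
        if a = p1 ∧ a = q1 then (∑ w, (Q w).conjTranspose * Q w) p2 q2 else 0 := by
      intro a
      rw [Matrix.sum_apply]
      simp only [Matrix.mul_apply, Matrix.conjTranspose_apply, VV, Matrix.of_apply]
      by_cases hp : a = p1
      · by_cases hq : a = q1
        · rw [if_pos ⟨hp, hq⟩]
          simp only [if_pos hp, if_pos hq]
        · rw [if_neg (fun h => hq h.2)]
          simp only [if_neg hq, mul_zero, Finset.sum_const_zero]
      · rw [if_neg (fun h => hp h.1)]
        simp only [if_neg hp, star_zero, zero_mul, Finset.sum_const_zero]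
    simp only [h2, hQ]
    by_cases hpq : p1 = q1
    · rw [Finset.sum_eq_single p1]
      · rw [if_pos ⟨rfl, hpq⟩]
        by_cases h3 : p2 = q2
        · rw [h3, hpq]; simp
        · rw [Matrix.one_apply_ne h3, Matrix.one_apply_ne (fun h => h3 (congrArg Prod.snd h))]
      · intro b _ hb
        rw [if_neg (fun h => hb h.1)]
      · intro h; exact absurd (Finset.mem_univ _) h
    · rw [Matrix.one_apply_ne (fun h => hpq (congrArg Prod.fst h))]
      apply Finset.sum_eq_zero
      intro b _
      rw [if_neg]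
      rintro ⟨h4, h5⟩
      exact hpq (h4.symm.trans h5)
  have h2 := Matrix.l2_opNorm_conjTranspose_mul_self (VV K Q)
  rw [h1] at h2
  have h3 : ‖(1 : Matrix (K × Λ) (K × Λ) ℂ)‖ ≤ 1 := by
    apply l2_le_of zero_le_one
    intro ξ
    simp [Matrix.one_apply]
  nlinarith [norm_nonneg (VV K Q)]

/-- compression of `A ⊗ 1` by two isometries -/
lemma norm_compress_le (A : Matrix (K × W) (K × W) ℂ) (P Q : W → Matrix Λ Λ ℂ)
    (hP : ∑ w, (P w).conjTranspose * P w = 1) (hQ : ∑ w, (Q w).conjTranspose * Q w = 1)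
    (B : Matrix (K × Λ) (K × Λ) ℂ)
    (hB : ∀ a y' b y, B (a, y') (b, y) =
      ∑ w', ∑ w, A (a, w') (b, w) * ((P w').conjTranspose * Q w) y' y) : ‖B‖ ≤ ‖A‖ := by
  have h1 : B = (VV K P).conjTranspose * (A ⊗ₖ (1 : Matrix Λ Λ ℂ)) * VV K Q := by
    ext ⟨a, y'⟩ ⟨b, y⟩
    rw [hB, Matrix.mul_apply, Fintype.sum_prod_type, Fintype.sum_prod_type]
    have h2 : ∀ (b1 : K) (w : W) (z : Λ),
        ((VV K P).conjTranspose * (A ⊗ₖ (1 : Matrix Λ Λ ℂ))) (a, y') ((b1, w), z) =
        ∑ w', (P w').conjTranspose y' z * A (a, w') (b1, w) := by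
      intro b1 w z
      rw [Matrix.mul_apply, Fintype.sum_prod_type, Fintype.sum_prod_type,
        Finset.sum_eq_single a]
      · refine Finset.sum_congr rfl (fun w' _ => ?_)
        rw [Finset.sum_eq_single z]
        · simp [VV, Matrix.kroneckerMap_apply]
        · intro z' _ hz'
          simp [Matrix.kroneckerMap_apply, hz']
        · intro h; exact absurd (Finset.mem_univ _) h
      · intro a1 _ ha1
        apply Finset.sum_eq_zero
        intro w' _
        apply Finset.sum_eq_zero
        intro z' _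
        simp [VV, ha1]
      · intro h; exact absurd (Finset.mem_univ _) h
    rw [Finset.sum_eq_single b]
    · have h6 : ∀ w z, ((VV K P).conjTranspose * (A ⊗ₖ (1 : Matrix Λ Λ ℂ))) (a, y') ((b, w), z) *
          VV K Q ((b, w), z) (b, y) =
          ∑ w', (P w').conjTranspose y' z * A (a, w') (b, w) * Q w z y := by
        intro w z
        rw [h2, Finset.sum_mul]
        simp [VV]
      simp only [h6]
      rw [Finset.sum_comm]
      refine Finset.sum_congr rfl (fun w _ => ?_)
      simp only [Matrix.mul_apply, Finset.mul_sum]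
      rw [Finset.sum_comm]
      refine Finset.sum_congr rfl (fun z _ => ?_)
      refine Finset.sum_congr rfl (fun w' _ => ?_)
      ring
    · intro b1 _ hb1
      apply Finset.sum_eq_zero
      intro w _
      apply Finset.sum_eq_zero
      intro z _
      simp [VV, hb1]
    · intro h; exact absurd (Finset.mem_univ _) h
  rw [h1]
  have h3 := norm_VV_le (K := K) P hP
  have h4 := norm_VV_le (K := K) Q hQ
  have h5 := norm_kron_one_le (μ := Λ) A
  calc ‖(VV K P).conjTranspose * (A ⊗ₖ (1 : Matrix Λ Λ ℂ)) * VV K Q‖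
      ≤ ‖(VV K P).conjTranspose * (A ⊗ₖ (1 : Matrix Λ Λ ℂ))‖ * ‖VV K Q‖ := norm_mul_le' _ _
    _ ≤ (‖(VV K P).conjTranspose‖ * ‖A ⊗ₖ (1 : Matrix Λ Λ ℂ)‖) * ‖VV K Q‖ := by
        gcongr; exact norm_mul_le' _ _
    _ = (‖VV K P‖ * ‖A ⊗ₖ (1 : Matrix Λ Λ ℂ)‖) * ‖VV K Q‖ := by
        rw [Matrix.l2_opNorm_conjTranspose]
    _ ≤ (1 * ‖A‖) * 1 := by gcongr
    _ = ‖A‖ := by ring

end Compression

section Dilation

variable {L : Type} [Fintype L] [DecidableEq L] {Λ : Type} [Fintype Λ] [DecidableEq Λ]

/-- dilation of a row contraction to a row co-isometry (at least two letters) -/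
lemma exists_dilation (R : L → Matrix Λ Λ ℂ)
    (hR : ∀ ξ : Λ → ℂ, ∑ q, ∑ i, ‖∑ j, (R q).conjTranspose i j * ξ j‖ ^ 2 ≤ ∑ j, ‖ξ j‖ ^ 2)
    (q0 q1 : L) (hq : q0 ≠ q1) :
    ∃ R' : L → Matrix (Λ ⊕ Λ) (Λ ⊕ Λ) ℂ, (∑ q, R' q * (R' q).conjTranspose = 1) ∧
      ∀ q, (R' q).toBlocks₁₁ = R q := by
  have hpos : ((1 : Matrix Λ Λ ℂ) - ∑ q, R q * (R q).conjTranspose).PosSemidef := by
    refine Matrix.PosSemidef.of_dotProduct_mulVec_nonneg ?_ ?_
    · rw [Matrix.IsHermitian, Matrix.conjTranspose_sub, Matrix.conjTranspose_one,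
        Matrix.conjTranspose_sum]
      simp only [Matrix.conjTranspose_mul, Matrix.conjTranspose_conjTranspose]
    · intro ξ
      have h1 := hR ξ
      have h2 : star ξ ⬝ᵥ ((1 : Matrix Λ Λ ℂ) - ∑ q, R q * (R q).conjTranspose).mulVec ξ =
          ((∑ j, ‖ξ j‖ ^ 2 - ∑ q, ∑ i, ‖∑ j, (R q).conjTranspose i j * ξ j‖ ^ 2 : ℝ) : ℂ) := by
        rw [Matrix.sub_mulVec, dotProduct_sub, Matrix.one_mulVec, Matrix.sum_mulVec,
          dotProduct_sum]
        push_cast
        congr 1
        · rw [dotProduct]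
          refine Finset.sum_congr rfl (fun j _ => ?_)
          rw [Pi.star_apply, Complex.star_def, mul_comm, Complex.mul_conj,
            Complex.normSq_eq_norm_sq]
          push_cast; rfl
        · refine Finset.sum_congr rfl (fun q _ => ?_)
          rw [← Matrix.mulVec_mulVec, Matrix.dotProduct_mulVec]
          have h3 : Matrix.vecMul (star ξ) (R q) = star ((R q).conjTranspose.mulVec ξ) := by
            rw [Matrix.star_mulVec, Matrix.conjTranspose_conjTranspose]
          rw [h3, dotProduct]
          refine Finset.sum_congr rfl (fun j _ => ?_)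
          rw [Pi.star_apply, Complex.star_def, mul_comm, Complex.mul_conj,
            Complex.normSq_eq_norm_sq]
          push_cast; rfl
      rw [h2]
      have h3 : 0 ≤ ∑ j, ‖ξ j‖ ^ 2 - ∑ q, ∑ i, ‖∑ j, (R q).conjTranspose i j * ξ j‖ ^ 2 := by
        linarith
      exact_mod_cast h3
  obtain ⟨B, hB⟩ := CStarAlgebra.nonneg_iff_eq_star_mul_self.mp hpos.nonneg
  rw [Matrix.star_eq_conjTranspose] at hB
  refine ⟨fun q => Matrix.fromBlocks (R q) (if q = q0 then B.conjTranspose else 0) 0
    (if q = q1 then 1 else 0), ?_, fun q => by simp⟩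
  have h1 : ∀ q, Matrix.fromBlocks (R q) (if q = q0 then B.conjTranspose else 0) 0
      (if q = q1 then (1 : Matrix Λ Λ ℂ) else 0) *
      (Matrix.fromBlocks (R q) (if q = q0 then B.conjTranspose else 0) 0
      (if q = q1 then (1 : Matrix Λ Λ ℂ) else 0)).conjTranspose =
      Matrix.fromBlocks (R q * (R q).conjTranspose + if q = q0 then B.conjTranspose * B else 0)
        0 0 (if q = q1 then 1 else 0) := by
    intro q
    rw [Matrix.fromBlocks_conjTranspose, Matrix.fromBlocks_multiply]
    by_cases h0 : q = q0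
    · have h1 : q ≠ q1 := fun h => hq (h0.symm.trans h)
      simp [h0, hq]
    · by_cases h1 : q = q1
      · simp [h1, hq.symm]
      · simp [h0, h1]
  simp only [h1]
  have h2 : ∀ (f g : L → Matrix Λ Λ ℂ), ∑ q, Matrix.fromBlocks (f q) 0 0 (g q) =
      Matrix.fromBlocks (∑ q, f q) 0 0 (∑ q, g q) := by
    intro f g
    ext (i | i) (j | j) <;> simp [Matrix.sum_apply]
  rw [h2, Finset.sum_add_distrib]
  simp only [Finset.sum_ite_eq', Finset.mem_univ, if_true]
  rw [← hB, add_sub_cancel, Matrix.fromBlocks_one]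

end Dilation

end Pool.Agent.Lib_helper97.OS
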