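import Mathlib
import Pool.Agent.Lib_helper97.OSFock
import Pool.Agent.Lib_helper97.OSSpaces

/-!
# `d_SK(R_n ⊕ C_m) = d_SK((R_n ⊕ C_m)*) = 1`
-/

open scoped Matrix.Norms.L2Operator ENNReal Kronecker

set_option linter.unusedSectionVars false

namespace Pool.Agent.Lib_helper97.OS

section Fock

variable {L : Type} [Fintype L] [DecidableEq L]

/-- the row of truncated creation operators is a contraction -/
lemma norm_fockRow_le {I : Type} [Fintype I] [DecidableEq I] (N : ℕ) (f : I → L)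
    (hf : Function.Injective f) :
    ‖(Matrix.of fun (w' : Option (L × Wd L N)) (p : Option (L × Wd L N) × I) =>
      shat L N (f p.2) w' p.1 : Matrix _ _ ℂ)‖ ≤ 1 := by
  apply l2_le_of zero_le_one
  intro ξ
  rw [one_pow, one_mul, Fintype.sum_option]
  have h1 : ∀ (q : L) (v : Wd L N), ∑ p : Option (L × Wd L N) × I,
      (Matrix.of fun (w' : Option (L × Wd L N)) (p : Option (L × Wd L N) × I) =>
      shat L N (f p.2) w' p.1 : Matrix _ _ ℂ) (some (q, v)) p * ξ p =
      ∑ i, if q = f i then ξ (emb L N v, i) else 0 := by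
    intro q v
    rw [Fintype.sum_prod_type, Finset.sum_comm]
    refine Finset.sum_congr rfl (fun i _ => ?_)
    rw [Finset.sum_eq_single (emb L N v)]
    · simp only [Matrix.of_apply, shat_some]
      by_cases h1 : q = f i
      · simp [h1]
      · simp [h1]
    · intro w _ hw
      simp [shat_some, hw]
    · intro h; exact absurd (Finset.mem_univ _) h
  have h0 : ∑ p : Option (L × Wd L N) × I,
      (Matrix.of fun (w' : Option (L × Wd L N)) (p : Option (L × Wd L N) × I) =>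
      shat L N (f p.2) w' p.1 : Matrix _ _ ℂ) none p * ξ p = 0 := by
    apply Finset.sum_eq_zero
    intro p _
    simp [shat_none]
  rw [h0, norm_zero]
  have h2 : ∀ (q : L) (v : Wd L N), ‖∑ i, if q = f i then ξ (emb L N v, i) else 0‖ ^ 2 =
      ∑ i, if q = f i then ‖ξ (emb L N v, i)‖ ^ 2 else 0 := by
    intro q v
    by_cases hq : ∃ i, q = f i
    · obtain ⟨i0, hi0⟩ := hq
      rw [Finset.sum_eq_single i0, Finset.sum_eq_single i0]
      · rw [if_pos hi0, if_pos hi0]
      · intro i _ hi; rw [if_neg (fun h => hi (hf (h.symm.trans hi0)))]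
      · intro h; exact absurd (Finset.mem_univ _) h
      · intro i _ hi; rw [if_neg (fun h => hi (hf (h.symm.trans hi0)))]
      · intro h; exact absurd (Finset.mem_univ _) h
    · push Not at hq
      simp [hq]
  rw [Fintype.sum_prod_type]
  simp only [h1, h2]
  rw [Finset.sum_comm]
  have h3 : ∀ v : Wd L N, ∑ q : L, ∑ i, (if q = f i then ‖ξ (emb L N v, i)‖ ^ 2 else 0) =
      ∑ i, ‖ξ (emb L N v, i)‖ ^ 2 := by
    intro v
    rw [Finset.sum_comm]
    refine Finset.sum_congr rfl (fun i _ => ?_)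
    rw [Finset.sum_ite_eq' Finset.univ (f i)]
    simp
  simp only [h3]
  rw [Fintype.sum_prod_type]
  have h4 : ∑ v : Wd L N, ∑ i, ‖ξ (emb L N v, i)‖ ^ 2 =
      ∑ w ∈ Finset.univ.image (emb L N), ∑ i, ‖ξ (w, i)‖ ^ 2 := by
    rw [Finset.sum_image (fun a _ b _ h => emb_injective L N h)]
  rw [h4]
  have h5 := Finset.sum_le_sum_of_subset_of_nonneg
    (f := fun w => ∑ i, ‖ξ (w, i)‖ ^ 2) (Finset.subset_univ (Finset.univ.image (emb L N)))
    (fun _ _ _ => Finset.sum_nonneg (fun _ _ => by positivity))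
  simpa using h5

end Fock

section Main

variable (n m : ℕ)

/-- The operator space `R_n ⊕ C_m`. -/
noncomputable def RC : OperatorSpace ((Fin n → ℂ) × (Fin m → ℂ)) := sumInf (row n) (col m)

variable {n m}

/-- basis vectors -/
def eL : Fin n ⊕ Fin m → (Fin n → ℂ) × (Fin m → ℂ)
  | Sum.inl i => (Pi.single i 1, 0)
  | Sum.inr j => (0, Pi.single j 1)

/-- coordinates -/
def co (q : Fin n ⊕ Fin m) (z : (Fin n → ℂ) × (Fin m → ℂ)) : ℂ :=
  match q with
  | Sum.inl i => z.1 i
  | Sum.inr j => z.2 j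

lemma sum_co (z : (Fin n → ℂ) × (Fin m → ℂ)) : ∑ q, co q z • eL q = z := by
  rw [Fintype.sum_sum_type]
  ext k
  · simp [co, eL, Finset.sum_apply, Pi.single_apply, Prod.fst_sum]
  · simp [co, eL, Finset.sum_apply, Pi.single_apply, Prod.snd_sum]

lemma co_eL (q q' : Fin n ⊕ Fin m) : co q (eL q' : (Fin n → ℂ) × (Fin m → ℂ)) =
    if q = q' then 1 else 0 := by
  rcases q with i | j <;> rcases q' with i' | j' <;> simp [co, eL, Pi.single_apply]

lemma co_sum (q : Fin n ⊕ Fin m) (c : Fin n ⊕ Fin m → ℂ) :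
    co q (∑ q', c q' • (eL q' : (Fin n → ℂ) × (Fin m → ℂ))) = c q := by
  have h : ∀ (q : Fin n ⊕ Fin m), ∃ l : (Fin n → ℂ) × (Fin m → ℂ) →ₗ[ℂ] ℂ, ∀ z, l z = co q z := by
    rintro (i | j)
    · exact ⟨(LinearMap.proj i) ∘ₗ (LinearMap.fst ℂ _ _), fun z => rfl⟩
    · exact ⟨(LinearMap.proj j) ∘ₗ (LinearMap.snd ℂ _ _), fun z => rfl⟩
  obtain ⟨l, hl⟩ := h q
  have h2 : ∀ q', l (c q' • (eL q' : (Fin n → ℂ) × (Fin m → ℂ))) =
      c q' * (if q = q' then 1 else 0) := by
    intro q'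
    rw [map_smul, hl, co_eL, smul_eq_mul]
  rw [← hl, map_sum, Finset.sum_congr rfl (fun q' _ => h2 q')]
  simp

/-- the operators `σ_q` -/
def sig (N : ℕ) (q : Fin n ⊕ Fin m) :
    Matrix (Option ((Fin n ⊕ Fin m) × Wd (Fin n ⊕ Fin m) N))
      (Option ((Fin n ⊕ Fin m) × Wd (Fin n ⊕ Fin m) N)) ℂ :=
  match q with
  | Sum.inl i => shat (Fin n ⊕ Fin m) N (Sum.inl i)
  | Sum.inr j => (shat (Fin n ⊕ Fin m) N (Sum.inr j)).transpose

/-- the embedding of the dual -/
noncomputable def jN (n m N : ℕ) : Module.Dual ℂ ((Fin n → ℂ) × (Fin m → ℂ)) →ₗ[ℂ]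
    Matrix (Option ((Fin n ⊕ Fin m) × Wd (Fin n ⊕ Fin m) N))
      (Option ((Fin n ⊕ Fin m) × Wd (Fin n ⊕ Fin m) N)) ℂ where
  toFun φ := ∑ q, φ (eL q) • sig N q
  map_add' φ ψ := by simp [add_smul, Finset.sum_add_distrib]
  map_smul' c φ := by simp [Finset.smul_sum, smul_smul]

lemma amp_jN_apply (N k : ℕ) (φ : Matrix (Fin k) (Fin k)
    (Module.Dual ℂ ((Fin n → ℂ) × (Fin m → ℂ)))) (a b : Fin k)
    (w' w : Option ((Fin n ⊕ Fin m) × Wd (Fin n ⊕ Fin m) N)) :
    amp (jN n m N) φ (a, w') (b, w) = ∑ q, φ a b (eL q) * sig N q w' w := by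
  simp [amp, jN, Matrix.sum_apply]

lemma amp_evalMap_apply {k l : ℕ} (φ : Matrix (Fin k) (Fin k)
    (Module.Dual ℂ ((Fin n → ℂ) × (Fin m → ℂ))))
    (x : Matrix (Fin l) (Fin l) ((Fin n → ℂ) × (Fin m → ℂ))) (a b : Fin k) (c d : Fin l) :
    amp (evalMap x) φ (a, c) (b, d) = ∑ q, φ a b (eL q) * co q (x c d) := by
  have h : amp (evalMap x) φ (a, c) (b, d) = φ a b (x c d) := rfl
  rw [h]
  conv_lhs => rw [← sum_co (x c d)]
  rw [map_sum]
  refine Finset.sum_congr rfl (fun q _ => ?_)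
  rw [map_smul, smul_eq_mul, mul_comm]

/-- the embedding of the dual is completely contractive -/
lemma norm_amp_jN_le (N k : ℕ) (φ : Matrix (Fin k) (Fin k)
    (Module.Dual ℂ ((Fin n → ℂ) × (Fin m → ℂ)))) :
    ‖amp (jN n m N) φ‖ ≤ (dual (RC n m)).nrm k φ := by
  classical
  let W := Option ((Fin n ⊕ Fin m) × Wd (Fin n ⊕ Fin m) N)
  let e : W ≃ Fin (Fintype.card W) := Fintype.equivFin W
  let x : Matrix (Fin (Fintype.card W)) (Fin (Fintype.card W)) ((Fin n → ℂ) × (Fin m → ℂ)) :=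
    Matrix.of fun c d => ∑ q, sig N q (e.symm c) (e.symm d) • eL q
  have hco : ∀ q c d, co q (x c d) = sig N q (e.symm c) (e.symm d) := by
    intro q c d
    exact co_sum q _
  have hx : (RC n m).nrm _ x ≤ 1 := by
    apply max_le
    · change rowNrm n _ (x.map Prod.fst) ≤ 1
      rw [rowNrm_eq]
      have h := norm_fockRow_le (L := Fin n ⊕ Fin m) N (Sum.inl : Fin n → Fin n ⊕ Fin m)
        Sum.inl_injective
      refine le_trans (le_of_eq ?_) h
      rw [← norm_submatrix_equiv _ (Equiv.prodUnique (Fin (Fintype.card W)) (Fin 1) |>.trans e.symm)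
        (Equiv.prodCongr e.symm (Equiv.refl (Fin n)))]
      congr 1
      ext ⟨c, c'⟩ ⟨d, i⟩
      exact hco (Sum.inl i) c d
    · change colNrm m _ (x.map Prod.snd) ≤ 1
      rw [colNrm_eq]
      have h := norm_fockRow_le (L := Fin n ⊕ Fin m) N (Sum.inr : Fin m → Fin n ⊕ Fin m)
        Sum.inr_injective
      refine le_trans (le_of_eq ?_) h
      rw [← norm_transpose, ← norm_submatrix_equiv _
        (Equiv.prodUnique (Fin (Fintype.card W)) (Fin 1) |>.trans e.symm)
        (Equiv.prodCongr e.symm (Equiv.refl (Fin m)))]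
      congr 1
      ext ⟨c, c'⟩ ⟨d, i⟩
      exact hco (Sum.inr i) d c
  have h1 : ‖amp (evalMap x) φ‖ ≤ (dual (RC n m)).nrm k φ := by
    obtain ⟨C, hC⟩ := norm_amp_evalMap_le (RC n m) φ
    exact le_ciSup (f := fun t : Ball (RC n m) => ‖amp (evalMap t.mat) φ‖)
      ⟨C, by rintro _ ⟨t, rfl⟩; exact hC _ _ t.mat_le⟩ ⟨_, x, hx⟩
  refine le_trans (le_of_eq ?_) h1
  rw [← norm_submatrix_equiv (amp (jN n m N) φ) (Equiv.prodCongr (Equiv.refl (Fin k)) e.symm)
    (Equiv.prodCongr (Equiv.refl (Fin k)) e.symm)]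
  congr 1
  ext ⟨a, c⟩ ⟨b, d⟩
  rw [amp_evalMap_apply]
  simp only [hco]
  exact amp_jN_apply N k φ a b (e.symm c) (e.symm d)

/-- the embedding of the dual is almost completely isometric -/
lemma le_norm_amp_jN (hn : 0 < n) (hm : 0 < m) (N k : ℕ) (φ : Matrix (Fin k) (Fin k)
    (Module.Dual ℂ ((Fin n → ℂ) × (Fin m → ℂ)))) {l : ℕ}
    (x : Matrix (Fin l) (Fin l) ((Fin n → ℂ) × (Fin m → ℂ))) (hx : (RC n m).nrm l x ≤ 1) :
    (((N : ℝ) + 1) / ((N : ℝ) + 2)) * ‖amp (evalMap x) φ‖ ≤ ‖amp (jN n m N) φ‖ := by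
  classical
  have hx1 : ‖amp (rowMap n) (x.map Prod.fst)‖ ≤ 1 := by
    rw [← rowNrm_eq]
    exact (le_max_left _ _).trans hx
  have hx2 : ‖amp (colMap m) (x.map Prod.snd)‖ ≤ 1 := by
    rw [← colNrm_eq]
    exact (le_max_right _ _).trans hx
  -- the two rows
  let R : Fin n ⊕ Fin m → Matrix (Fin l) (Fin l) ℂ := fun q => match q with
    | Sum.inl i => x.map (co (Sum.inl i))
    | Sum.inr _ => 0
  let T : Fin n ⊕ Fin m → Matrix (Fin l) (Fin l) ℂ := fun q => match q with
    | Sum.inl _ => 0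
    | Sum.inr j => (x.map (co (Sum.inr j))).conjTranspose
  have hR : ∀ ξ : Fin l → ℂ, ∑ q, ∑ i, ‖∑ j, (R q).conjTranspose i j * ξ j‖ ^ 2 ≤
      ∑ j, ‖ξ j‖ ^ 2 := by
    intro ξ
    have h := l2_sq_le (amp (rowMap n) (x.map Prod.fst)).conjTranspose (fun p => ξ p.1)
    rw [Matrix.l2_opNorm_conjTranspose] at h
    have h2 : ∑ p : Fin l × Fin 1, ‖ξ p.1‖ ^ 2 = ∑ j, ‖ξ j‖ ^ 2 := by
      rw [Fintype.sum_prod_type]; simp
    rw [h2] at h
    have h3 : ‖amp (rowMap n) (x.map Prod.fst)‖ ^ 2 * ∑ j, ‖ξ j‖ ^ 2 ≤ ∑ j, ‖ξ j‖ ^ 2 := by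
      have : ‖amp (rowMap n) (x.map Prod.fst)‖ ^ 2 ≤ 1 := pow_le_one₀ (norm_nonneg _) hx1
      have h0 : 0 ≤ ∑ j, ‖ξ j‖ ^ 2 := Finset.sum_nonneg (fun _ _ => by positivity)
      nlinarith
    refine le_trans (le_of_eq ?_) (h.trans h3)
    rw [Fintype.sum_sum_type]
    have h4 : ∀ j : Fin m, ∑ i, ‖∑ j', (R (Sum.inr j)).conjTranspose i j' * ξ j'‖ ^ 2 = 0 := by
      intro j; simp [R]
    simp only [h4, Finset.sum_const_zero, add_zero]
    rw [Finset.sum_comm, Fintype.sum_prod_type]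
    refine Finset.sum_congr rfl (fun d _ => Finset.sum_congr rfl (fun i _ => ?_))
    congr 2
    rw [Fintype.sum_prod_type]
    refine Finset.sum_congr rfl (fun c _ => ?_)
    simp [R, amp, rowMap, co]
  have hT : ∀ ξ : Fin l → ℂ, ∑ q, ∑ i, ‖∑ j, (T q).conjTranspose i j * ξ j‖ ^ 2 ≤
      ∑ j, ‖ξ j‖ ^ 2 := by
    intro ξ
    have h := l2_sq_le (amp (colMap m) (x.map Prod.snd)) (fun p => ξ p.1)
    have h2 : ∑ p : Fin l × Fin 1, ‖ξ p.1‖ ^ 2 = ∑ j, ‖ξ j‖ ^ 2 := by
      rw [Fintype.sum_prod_type]; simp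
    rw [h2] at h
    have h3 : ‖amp (colMap m) (x.map Prod.snd)‖ ^ 2 * ∑ j, ‖ξ j‖ ^ 2 ≤ ∑ j, ‖ξ j‖ ^ 2 := by
      have : ‖amp (colMap m) (x.map Prod.snd)‖ ^ 2 ≤ 1 := pow_le_one₀ (norm_nonneg _) hx2
      have h0 : 0 ≤ ∑ j, ‖ξ j‖ ^ 2 := Finset.sum_nonneg (fun _ _ => by positivity)
      nlinarith
    refine le_trans (le_of_eq ?_) (h.trans h3)
    rw [Fintype.sum_sum_type]
    have h4 : ∀ j : Fin n, ∑ i, ‖∑ j', (T (Sum.inl j)).conjTranspose i j' * ξ j'‖ ^ 2 = 0 := by
      intro j; simp [T]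
    simp only [h4, Finset.sum_const_zero, zero_add]
    rw [Finset.sum_comm, Fintype.sum_prod_type]
    refine Finset.sum_congr rfl (fun d _ => Finset.sum_congr rfl (fun i _ => ?_))
    congr 2
    rw [Fintype.sum_prod_type]
    refine Finset.sum_congr rfl (fun c _ => ?_)
    simp [T, amp, colMap, co]
  have hq : (Sum.inl ⟨0, hn⟩ : Fin n ⊕ Fin m) ≠ Sum.inr ⟨0, hm⟩ := by simp
  obtain ⟨R', hR'1, hR'2⟩ := exists_dilation R hR _ _ hq
  obtain ⟨T', hT'1, hT'2⟩ := exists_dilation T hT _ _ hq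
  let M : Bool → Fin n ⊕ Fin m → Matrix (Fin l ⊕ Fin l) (Fin l ⊕ Fin l) ℂ := fun b =>
    if b then T' else R'
  have hM : ∀ b, ∑ q, M b q * (M b q).conjTranspose = 1 := by
    intro b
    cases b
    · exact hR'1
    · exact hT'1
  have hS := sum_SS M hM
  set S := SS M with hSdef
  have hN2 : (0 : ℝ) < (N : ℝ) + 2 := by positivity
  let θ : ℂ := ((Real.sqrt (1 / ((N : ℝ) + 2)) : ℝ) : ℂ)
  have hθ : θ * θ = 1 / ((N : ℂ) + 2) := by
    simp only [θ]
    rw [← Complex.ofReal_mul, Real.mul_self_sqrt (by positivity)]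
    push_cast; rfl
  have hθstar : star θ = θ := Complex.conj_ofReal _
  have hN2' : (N : ℂ) + 2 ≠ 0 := by
    have : (((N : ℝ) + 2 : ℝ) : ℂ) ≠ 0 := by exact_mod_cast hN2.ne'
    push_cast at this; exact this
  let P : Bool → Option ((Fin n ⊕ Fin m) × Wd (Fin n ⊕ Fin m) N) →
      Matrix (Fin l ⊕ Fin l) (Fin l ⊕ Fin l) ℂ := fun b w => θ • (S b (N + 1) w).conjTranspose
  have hP : ∀ b, ∑ w, (P b w).conjTranspose * P b w = 1 := by
    intro b
    have h1 : ∀ w, (P b w).conjTranspose * P b w =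
        (θ * θ) • (S b (N + 1) w * (S b (N + 1) w).conjTranspose) := by
      intro w
      simp only [P, Matrix.conjTranspose_smul, Matrix.conjTranspose_conjTranspose, hθstar,
        Matrix.smul_mul, Matrix.mul_smul, smul_smul]
    simp only [h1]
    rw [← Finset.smul_sum]
    have h2 : ∑ w : Option ((Fin n ⊕ Fin m) × Wd (Fin n ⊕ Fin m) N),
        S b (N + 1) w * (S b (N + 1) w).conjTranspose =
        (((N + 1 : ℕ) : ℂ) + 1) • (1 : Matrix (Fin l ⊕ Fin l) (Fin l ⊕ Fin l) ℂ) := hS (N + 1) b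
    rw [h2, smul_smul, hθ]
    have h3 : 1 / ((N : ℂ) + 2) * (((N + 1 : ℕ) : ℂ) + 1) = 1 := by
      push_cast
      rw [add_assoc, one_add_one_eq_two]
      field_simp
    rw [h3, one_smul]
  -- the compressed operators
  let Z : Fin n ⊕ Fin m → Matrix (Fin l ⊕ Fin l) (Fin l ⊕ Fin l) ℂ := fun q => match q with
    | Sum.inl i => R' (Sum.inl i)
    | Sum.inr j => (T' (Sum.inr j)).conjTranspose
  let γ : ℂ := ((N : ℂ) + 1) / ((N : ℂ) + 2)
  have hPP : ∀ w' w, (P false w').conjTranspose * P true w =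
      (θ * θ) • (S false (N + 1) w' * (S true (N + 1) w).conjTranspose) := by
    intro w' w
    simp only [P, Matrix.conjTranspose_smul, Matrix.conjTranspose_conjTranspose, hθstar,
      Matrix.smul_mul, Matrix.mul_smul, smul_smul]
  have hγ : θ * θ * ((N : ℂ) + 1) = γ := by
    rw [hθ]; simp only [γ]; ring
  have hZ : ∀ q, ∑ w', ∑ w, sig N q w' w • ((P false w').conjTranspose * P true w) = γ • Z q := by
    rintro (i | j)
    · have h1 := sum_shat N (Sum.inl i : Fin n ⊕ Fin m)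
        (fun w' w => (P false w').conjTranspose * P true w)
      change ∑ w', ∑ w, shat (Fin n ⊕ Fin m) N (Sum.inl i) w' w •
        ((P false w').conjTranspose * P true w) = _
      rw [h1]
      have h2 : ∀ v : Wd (Fin n ⊕ Fin m) N, (P false (some (Sum.inl i, v))).conjTranspose *
          P true (emb (Fin n ⊕ Fin m) N v) =
          (θ * θ) • (R' (Sum.inl i) * (S true N v * (S true N v).conjTranspose)) := by
        intro v
        rw [hPP]
        have e1 : S false (N + 1) (some (Sum.inl i, v) : Option _) =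
          R' (Sum.inl i) * S true N v := rfl
        have e2 : S true (N + 1) (emb (Fin n ⊕ Fin m) N v) = S true N v := SS_emb M true N v
        rw [e1, e2, Matrix.mul_assoc]
      simp only [h2]
      rw [← Finset.smul_sum, ← Finset.mul_sum, hS N true, Matrix.mul_smul, Matrix.mul_one,
        smul_smul, hγ]
    · have h1 := sum_shat N (Sum.inr j : Fin n ⊕ Fin m)
        (fun w w' => (P false w').conjTranspose * P true w)
      have h0 : ∑ w', ∑ w, sig N (Sum.inr j : Fin n ⊕ Fin m) w' w •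
        ((P false w').conjTranspose * P true w) = ∑ w, ∑ w', shat (Fin n ⊕ Fin m) N (Sum.inr j) w w' •
        ((P false w').conjTranspose * P true w) := by
        rw [Finset.sum_comm]
        rfl
      rw [h0, h1]
      have h2 : ∀ v : Wd (Fin n ⊕ Fin m) N, (P false (emb (Fin n ⊕ Fin m) N v)).conjTranspose *
          P true (some (Sum.inr j, v)) =
          (θ * θ) • ((S false N v * (S false N v).conjTranspose) *
            (T' (Sum.inr j)).conjTranspose) := by
        intro v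
        rw [hPP]
        have e1 : S true (N + 1) (some (Sum.inr j, v) : Option _) =
          T' (Sum.inr j) * S false N v := rfl
        have e2 : S false (N + 1) (emb (Fin n ⊕ Fin m) N v) = S false N v := SS_emb M false N v
        rw [e1, e2, Matrix.conjTranspose_mul, Matrix.mul_assoc]
      simp only [h2]
      rw [← Finset.smul_sum, ← Finset.sum_mul, hS N false, Matrix.smul_mul, Matrix.one_mul,
        smul_smul, hγ]
  -- the compressed matrix
  let C : Matrix (Fin k × (Fin l ⊕ Fin l)) (Fin k × (Fin l ⊕ Fin l)) ℂ :=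
    Matrix.of fun p q' => ∑ q, φ p.1 q'.1 (eL q) * Z q p.2 q'.2
  have hB := norm_compress_le (amp (jN n m N) φ) (P false) (P true) (hP false) (hP true)
    (γ • C) (by
      intro a y' b y
      have h1 : ∀ w' w, amp (jN n m N) φ (a, w') (b, w) *
          ((P false w').conjTranspose * P true w) y' y =
          ∑ q, φ a b (eL q) * (sig N q w' w • ((P false w').conjTranspose * P true w)) y' y := by
        intro w' w
        rw [amp_jN_apply, Finset.sum_mul]
        refine Finset.sum_congr rfl (fun q _ => ?_)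
        rw [Matrix.smul_apply, smul_eq_mul, mul_assoc]
      simp only [h1]
      have h2 : ∑ w', ∑ w, ∑ q, φ a b (eL q) *
          (sig N q w' w • ((P false w').conjTranspose * P true w)) y' y =
          ∑ q, φ a b (eL q) *
          (∑ w', ∑ w, sig N q w' w • ((P false w').conjTranspose * P true w)) y' y := by
        have e1 : ∀ q, φ a b (eL q) *
          (∑ w', ∑ w, sig N q w' w • ((P false w').conjTranspose * P true w)) y' y =
          ∑ w', ∑ w, φ a b (eL q) *
          (sig N q w' w • ((P false w').conjTranspose * P true w)) y' y := by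
          intro q
          rw [Matrix.sum_apply, Finset.mul_sum]
          refine Finset.sum_congr rfl (fun w' _ => ?_)
          rw [Matrix.sum_apply, Finset.mul_sum]
        simp only [e1]
        rw [Finset.sum_comm]
        refine Eq.trans (Finset.sum_congr rfl (fun w _ => Finset.sum_comm)) ?_
        rw [Finset.sum_comm]
        refine Eq.trans ?_ (Finset.sum_congr rfl (fun q _ => Finset.sum_comm))
        rfl
      rw [h2]
      simp only [hZ, Matrix.smul_apply, C, Matrix.of_apply, smul_eq_mul, Finset.mul_sum]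
      refine Finset.sum_congr rfl (fun q _ => ?_)
      ring)
  have hC : ‖amp (evalMap x) φ‖ ≤ ‖C‖ := by
    have h1 : amp (evalMap x) φ = C.submatrix (fun p : Fin k × Fin l => (p.1, Sum.inl p.2))
        (fun p : Fin k × Fin l => (p.1, Sum.inl p.2)) := by
      ext ⟨a, c⟩ ⟨b, d⟩
      rw [amp_evalMap_apply]
      change _ = ∑ q, φ a b (eL q) * Z q (Sum.inl c) (Sum.inl d)
      refine Finset.sum_congr rfl (fun q _ => ?_)
      congr 1
      rcases q with i | j
      · have h2 := congrFun (congrFun (hR'2 (Sum.inl i)) c) d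
        exact h2.symm
      · have h2 := congrFun (congrFun (hT'2 (Sum.inr j)) d) c
        change _ = star (T' (Sum.inr j) (Sum.inl d) (Sum.inl c))
        change T' (Sum.inr j) (Sum.inl d) (Sum.inl c) = star (co (Sum.inr j) (x c d)) at h2
        rw [h2, star_star]
    rw [h1]
    apply norm_submatrix_le <;>
    · rintro ⟨a, b⟩ ⟨c, d⟩ h
      simp only [Prod.mk.injEq, Sum.inl.injEq] at h
      exact Prod.ext h.1 h.2
  rw [norm_smul] at hB
  have hγn : ‖γ‖ = ((N : ℝ) + 1) / ((N : ℝ) + 2) := by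
    simp only [γ]
    have h1 : ((N : ℂ) + 1) / ((N : ℂ) + 2) = ((((N : ℝ) + 1) / ((N : ℝ) + 2) : ℝ) : ℂ) := by
      push_cast; rfl
    rw [h1, Complex.norm_of_nonneg (by positivity)]
  rw [hγn] at hB
  refine le_trans ?_ hB
  gcongr

end Main

end Pool.Agent.Lib_helper97.OS
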