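import Mathlib
import Pool.Agent.Lib_helper97.OSMain
import Pool.Agent.Lib_helper97.OSDistance

/-!
# `R_n ⊕ C_m` is a new space with `d_SK(E) = d_SK(E*) = 1`
-/

open scoped Matrix.Norms.L2Operator ENNReal Kronecker

set_option linter.unusedSectionVars false

namespace Pool.Agent.Lib_helper97.OS

section DualDistance

variable {n m : ℕ}

lemma dual_nrm_le (hn : 0 < n) (hm : 0 < m) (N k : ℕ) (φ : Matrix (Fin k) (Fin k)
    (Module.Dual ℂ ((Fin n → ℂ) × (Fin m → ℂ)))) :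
    (((N : ℝ) + 1) / ((N : ℝ) + 2)) * (dual (RC n m)).nrm k φ ≤ ‖amp (jN n m N) φ‖ := by
  have hpos : (0 : ℝ) < ((N : ℝ) + 1) / ((N : ℝ) + 2) := by positivity
  have := nonempty_ball (RC n m)
  rw [mul_comm, ← le_div_iff₀ hpos]
  apply ciSup_le
  intro t
  rw [le_div_iff₀ hpos, mul_comm]
  exact le_norm_amp_jN hn hm N k φ t.mat t.mat_le

lemma dSK_dual_le (hn : 0 < n) (hm : 0 < m) : dSK (dual (RC n m)) ≤ 1 := by
  have h : ∀ N : ℕ, dSK (dual (RC n m)) ≤ ENNReal.ofReal (1 + 1 / ((N : ℝ) + 1)) := by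
    intro N
    have h1 := dSK_le (dual (RC n m)) (jN n m N) (c := ((N : ℝ) + 1) / ((N : ℝ) + 2))
      (by positivity) (fun k φ => norm_amp_jN_le N k φ) (fun k φ => dual_nrm_le hn hm N k φ)
    refine h1.trans (le_of_eq ?_)
    congr 1
    have : (N : ℝ) + 1 ≠ 0 := by positivity
    have : (N : ℝ) + 2 ≠ 0 := by positivity
    field_simp
    ring
  have ht : Filter.Tendsto (fun N : ℕ => ENNReal.ofReal (1 + 1 / ((N : ℝ) + 1))) Filter.atTop
      (nhds 1) := by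
    have h1 : Filter.Tendsto (fun N : ℕ => 1 + 1 / ((N : ℝ) + 1)) Filter.atTop (nhds (1 + 0)) :=
      tendsto_const_nhds.add tendsto_one_div_add_atTop_nhds_zero_nat
    rw [add_zero] at h1
    have h2 := (ENNReal.continuous_ofReal.tendsto 1).comp h1
    rw [ENNReal.ofReal_one] at h2
    exact h2
  exact ge_of_tendsto' ht h

lemma dSK_dual_eq (hn : 0 < n) (hm : 0 < m) : dSK (dual (RC n m)) = 1 := by
  apply le_antisymm (dSK_dual_le hn hm)
  have hne : ((LinearMap.proj (⟨0, hn⟩ : Fin n)) ∘ₗ (LinearMap.fst ℂ (Fin n → ℂ) (Fin m → ℂ)) :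
      Module.Dual ℂ ((Fin n → ℂ) × (Fin m → ℂ))) ≠ 0 := by
    intro h
    have h1 := LinearMap.congr_fun h (Pi.single ⟨0, hn⟩ 1, 0)
    simp at h1
  exact one_le_dSK _ hne

end DualDistance

section Distance

variable {n m : ℕ}

/-- the embedding of `R_n ⊕ C_m` into `M_{1+m,n+1}` -/
def jRC (n m : ℕ) : (Fin n → ℂ) × (Fin m → ℂ) →ₗ[ℂ] Matrix (Fin 1 ⊕ Fin m) (Fin n ⊕ Fin 1) ℂ where
  toFun z := Matrix.fromBlocks (rowMap n z.1) 0 0 (colMap m z.2)
  map_add' z w := by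
    rw [Prod.fst_add, Prod.snd_add, map_add, map_add, Matrix.fromBlocks_add, add_zero, add_zero]
  map_smul' c z := by
    rw [Prod.smul_fst, Prod.smul_snd, map_smul, map_smul, RingHom.id_apply,
      Matrix.fromBlocks_smul, smul_zero, smul_zero]

lemma norm_amp_jRC (k : ℕ) (z : Matrix (Fin k) (Fin k) ((Fin n → ℂ) × (Fin m → ℂ))) :
    ‖amp (jRC n m) z‖ = (RC n m).nrm k z := by
  apply le_antisymm
  · have h0 : 0 ≤ (RC n m).nrm k z := (RC n m).nrm_nonneg k z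
    apply l2_le_of h0
    intro ξ
    have hA : ‖amp (rowMap n) (z.map Prod.fst)‖ ≤ (RC n m).nrm k z := by
      rw [← rowNrm_eq]
      exact le_max_left _ _
    have hB : ‖amp (colMap m) (z.map Prod.snd)‖ ≤ (RC n m).nrm k z := by
      rw [← colNrm_eq]
      exact le_max_right _ _
    have h1 := l2_sq_le (amp (rowMap n) (z.map Prod.fst)) (fun p => ξ (p.1, Sum.inl p.2))
    have h2 := l2_sq_le (amp (colMap m) (z.map Prod.snd)) (fun p => ξ (p.1, Sum.inr p.2))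
    have e1 : ∀ (a : Fin k) (s : Fin 1), ∑ q, amp (jRC n m) z (a, Sum.inl s) q * ξ q =
        ∑ p : Fin k × Fin n, amp (rowMap n) (z.map Prod.fst) (a, s) p * ξ (p.1, Sum.inl p.2) := by
      intro a s
      rw [Fintype.sum_prod_type, Fintype.sum_prod_type]
      refine Finset.sum_congr rfl (fun b _ => ?_)
      rw [Fintype.sum_sum_type]
      simp [amp, jRC]
    have e2 : ∀ (a : Fin k) (s : Fin m), ∑ q, amp (jRC n m) z (a, Sum.inr s) q * ξ q =
        ∑ p : Fin k × Fin 1, amp (colMap m) (z.map Prod.snd) (a, s) p * ξ (p.1, Sum.inr p.2) := by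
      intro a s
      rw [Fintype.sum_prod_type, Fintype.sum_prod_type]
      refine Finset.sum_congr rfl (fun b _ => ?_)
      rw [Fintype.sum_sum_type]
      simp [amp, jRC]
    have e3 : ∑ p : Fin k × (Fin 1 ⊕ Fin m), ‖∑ q, amp (jRC n m) z p q * ξ q‖ ^ 2 =
        ∑ p : Fin k × Fin 1, ‖∑ q : Fin k × Fin n, amp (rowMap n) (z.map Prod.fst) p q *
          ξ (q.1, Sum.inl q.2)‖ ^ 2 +
        ∑ p : Fin k × Fin m, ‖∑ q : Fin k × Fin 1, amp (colMap m) (z.map Prod.snd) p q *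
          ξ (q.1, Sum.inr q.2)‖ ^ 2 := by
      rw [Fintype.sum_prod_type, Fintype.sum_prod_type, Fintype.sum_prod_type,
        ← Finset.sum_add_distrib]
      refine Finset.sum_congr rfl (fun a _ => ?_)
      rw [Fintype.sum_sum_type]
      simp only [e1, e2]
    have e4 : ∑ q : Fin k × (Fin n ⊕ Fin 1), ‖ξ q‖ ^ 2 =
        ∑ q : Fin k × Fin n, ‖ξ (q.1, Sum.inl q.2)‖ ^ 2 +
        ∑ q : Fin k × Fin 1, ‖ξ (q.1, Sum.inr q.2)‖ ^ 2 := by
      rw [Fintype.sum_prod_type, Fintype.sum_prod_type, Fintype.sum_prod_type,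
        ← Finset.sum_add_distrib]
      refine Finset.sum_congr rfl (fun a _ => ?_)
      rw [Fintype.sum_sum_type]
    rw [e3, e4, mul_add]
    apply add_le_add
    · refine h1.trans ?_
      gcongr
    · refine h2.trans ?_
      gcongr
  · apply max_le
    · have h1 : amp (rowMap n) (z.map Prod.fst) = (amp (jRC n m) z).submatrix
          (fun p : Fin k × Fin 1 => (p.1, Sum.inl p.2))
          (fun p : Fin k × Fin n => (p.1, Sum.inl p.2)) := by
        ext p q; rfl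
      change rowNrm n k (z.map Prod.fst) ≤ _
      rw [rowNrm_eq, h1]
      apply norm_submatrix_le <;>
      · rintro ⟨a, b⟩ ⟨c, d⟩ h
        simp only [Prod.mk.injEq, Sum.inl.injEq] at h
        exact Prod.ext h.1 h.2
    · have h1 : amp (colMap m) (z.map Prod.snd) = (amp (jRC n m) z).submatrix
          (fun p : Fin k × Fin m => (p.1, Sum.inr p.2))
          (fun p : Fin k × Fin 1 => (p.1, Sum.inr p.2)) := by
        ext p q; rfl
      change colNrm m k (z.map Prod.snd) ≤ _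
      rw [colNrm_eq, h1]
      apply norm_submatrix_le <;>
      · rintro ⟨a, b⟩ ⟨c, d⟩ h
        simp only [Prod.mk.injEq, Sum.inr.injEq] at h
        exact Prod.ext h.1 h.2

lemma dSK_eq (hn : 0 < n) : dSK (RC n m) = 1 := by
  apply le_antisymm
  · have h := dSK_le (RC n m) (jRC n m) one_pos (fun k z => (norm_amp_jRC k z).le)
      (fun k z => by rw [one_mul, norm_amp_jRC])
    rwa [div_one, ENNReal.ofReal_one] at h
  · have hne : ((Pi.single ⟨0, hn⟩ 1, 0) : (Fin n → ℂ) × (Fin m → ℂ)) ≠ 0 := by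
      intro h
      have h1 := congrFun (congrArg Prod.fst h) ⟨0, hn⟩
      simp at h1
    exact one_le_dSK _ hne

end Distance

section NotInList

variable {n m : ℕ}

lemma n1_row (k : ℕ) (v : Fin k → ℂ) : (row k).n1 v ^ 2 = ∑ i, ‖v i‖ ^ 2 := by
  have hnn : (0 : ℝ) ≤ ∑ i, ‖v i‖ ^ 2 := Finset.sum_nonneg (fun _ _ => by positivity)
  have h0 : (row k).n1 v = ‖(Matrix.of fun (_ : Fin 1) i => v i : Matrix (Fin 1) (Fin k) ℂ)‖ := by
    change rowNrm k 1 (Matrix.of fun (_ _ : Fin 1) => v) = _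
    rw [rowNrm_eq]
    rw [← norm_submatrix_equiv (Matrix.of fun (_ : Fin 1) i => v i : Matrix (Fin 1) (Fin k) ℂ)
      (Equiv.uniqueProd (Fin 1) (Fin 1)) (Equiv.uniqueProd (Fin k) (Fin 1))]
    rfl
  rw [h0]
  apply le_antisymm
  · have h1 := norm_rowvec_le v
    calc _ ≤ (Real.sqrt (∑ i, ‖v i‖ ^ 2)) ^ 2 := by gcongr
      _ = _ := Real.sq_sqrt hnn
  · have h1 := l2_sq_le (Matrix.of fun (_ : Fin 1) i => v i : Matrix (Fin 1) (Fin k) ℂ)
      (fun i => star (v i))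
    have h2 : ∑ i, v i * star (v i) = ((∑ i, ‖v i‖ ^ 2 : ℝ) : ℂ) := by
      push_cast
      refine Finset.sum_congr rfl (fun i _ => ?_)
      rw [Complex.star_def, Complex.mul_conj, Complex.normSq_eq_norm_sq]
      push_cast; rfl
    simp only [Finset.univ_unique, Finset.sum_singleton, Matrix.of_apply, norm_star] at h1
    rw [h2, Complex.norm_of_nonneg hnn] at h1
    rcases eq_or_lt_of_le hnn with h3 | h3
    · rw [← h3]; positivity
    · rw [sq] at h1
      exact le_of_mul_le_mul_right h1 h3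

lemma n1_col (k : ℕ) (v : Fin k → ℂ) : (col k).n1 v ^ 2 = ∑ i, ‖v i‖ ^ 2 := by
  rw [← n1_row]
  congr 1
  change colNrm k 1 (Matrix.of fun (_ _ : Fin 1) => v) =
    rowNrm k 1 (Matrix.of fun (_ _ : Fin 1) => v)
  rw [colNrm_eq, rowNrm_eq, ← norm_transpose]
  rfl

lemma n1_sumInf_zero {E F : Type*} [AddCommGroup E] [Module ℂ E] [AddCommGroup F] [Module ℂ F]
    (X : OperatorSpace E) (Y : OperatorSpace F) (y : F) : (sumInf X Y).n1 (0, y) = Y.n1 y := by
  change max (X.nrm 1 ((Matrix.of fun (_ _ : Fin 1) => ((0, y) : E × F)).map Prod.fst))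
    (Y.nrm 1 ((Matrix.of fun (_ _ : Fin 1) => ((0, y) : E × F)).map Prod.snd)) = _
  have h1 : (Matrix.of fun (_ _ : Fin 1) => ((0, y) : E × F)).map Prod.fst = 0 := rfl
  rw [h1, X.nrm_zero]
  exact max_eq_right (Y.nrm_nonneg _ _)

lemma n1_sumOne_zero {E F : Type*} [AddCommGroup E] [Module ℂ E] [AddCommGroup F] [Module ℂ F]
    (X : OperatorSpace E) (Y : OperatorSpace F) (y : F) : (sumOne X Y).n1 (0, y) = Y.n1 y := by
  have := nonempty_ccPair X Y
  have h0 : (sumOne X Y).n1 (0, y) = ⨆ t : CCPair X Y,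
      ‖amp (t.mapL.coprod t.mapR) (Matrix.of fun (_ _ : Fin 1) => ((0, y) : E × F))‖ :=
    sumOneNrm_eq X Y 1 _
  have hle : ∀ t : CCPair X Y,
      ‖amp (t.mapL.coprod t.mapR) (Matrix.of fun (_ _ : Fin 1) => ((0, y) : E × F))‖ ≤
        Y.n1 y := by
    intro t
    have h1 := t.mapR_cc 1 (Matrix.of fun (_ _ : Fin 1) => y)
    refine le_trans (le_of_eq ?_) h1
    congr 1
    ext p q
    simp [amp]
  apply le_antisymm
  · rw [h0]
    exact ciSup_le hle
  · by_cases hy : y = 0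
    · rw [hy]
      have : Y.n1 0 = 0 := Y.nrm_zero 1
      rw [this]
      exact (sumOne X Y).nrm_nonneg 1 _
    · obtain ⟨g, hg1, hg2⟩ := Y.exists_functional hy
      have h1 := le_ciSup (f := fun t : CCPair X Y =>
        ‖amp (t.mapL.coprod t.mapR) (Matrix.of fun (_ _ : Fin 1) => ((0, y) : E × F))‖)
        ⟨Y.n1 y, by rintro _ ⟨t, rfl⟩; exact hle t⟩
        ⟨1, 0, scalarMap ∘ₗ g, isCC_zero X 1, isCC_scalarMap_comp Y g hg1⟩
      rw [h0]
      refine le_trans ?_ h1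
      have h2 := norm_entry_le (amp ((0 : E →ₗ[ℂ] Matrix (Fin 1) (Fin 1) ℂ).coprod
        (scalarMap ∘ₗ g)) (Matrix.of fun (_ _ : Fin 1) => ((0, y) : E × F))) (0, 0) (0, 0)
      refine le_trans (le_of_eq ?_) h2
      have h3 : amp ((0 : E →ₗ[ℂ] Matrix (Fin 1) (Fin 1) ℂ).coprod
        (scalarMap ∘ₗ g)) (Matrix.of fun (_ _ : Fin 1) => ((0, y) : E × F)) (0, 0) (0, 0) =
        g y := by
        simp [amp, scalarMap]
      rw [h3, hg2]
      exact (Complex.norm_of_nonneg (Y.n1_pos hy).le).symm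

lemma exists_ker {k : ℕ} (hk : 2 ≤ k) (g : (Fin k → ℂ) →ₗ[ℂ] ℂ) :
    ∃ v : Fin k → ℂ, g v = 0 ∧ ∑ i, ‖v i‖ ^ 2 = 1 := by
  have h1 : ¬ Function.Injective g := by
    intro h
    have h2 := LinearMap.finrank_le_finrank_of_injective h
    rw [Module.finrank_fin_fun, Module.finrank_self] at h2
    omega
  rw [injective_iff_map_eq_zero] at h1
  push Not at h1
  obtain ⟨w, hw1, hw2⟩ := h1
  have hpos : 0 < ∑ i, ‖w i‖ ^ 2 := by
    obtain ⟨i, hi⟩ := Function.ne_iff.1 hw2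
    refine Finset.sum_pos' (fun _ _ => by positivity) ⟨i, Finset.mem_univ _, ?_⟩
    have : 0 < ‖w i‖ := norm_pos_iff.2 hi
    positivity
  set s := ∑ i, ‖w i‖ ^ 2 with hs
  refine ⟨((Real.sqrt s : ℝ) : ℂ)⁻¹ • w, by rw [map_smul, hw1, smul_zero], ?_⟩
  have h3 : ∀ i, ‖(((Real.sqrt s : ℝ) : ℂ)⁻¹ • w) i‖ ^ 2 = s⁻¹ * ‖w i‖ ^ 2 := by
    intro i
    rw [Pi.smul_apply, norm_smul, mul_pow, norm_inv, Complex.norm_of_nonneg (Real.sqrt_nonneg _),
      inv_pow, Real.sq_sqrt hpos.le]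
  simp only [h3]
  rw [← Finset.mul_sum, ← hs, inv_mul_cancel₀ hpos.ne']

lemma n1_RC_sq (v : Fin n → ℂ) (w : Fin m → ℂ) :
    (RC n m).n1 (v, w) ^ 2 = max (∑ i, ‖v i‖ ^ 2) (∑ i, ‖w i‖ ^ 2) := by
  have h : (RC n m).n1 (v, w) = max ((row n).n1 v) ((col m).n1 w) := rfl
  rw [← n1_row, ← n1_col, h]
  have h1 : 0 ≤ (row n).n1 v := (row n).nrm_nonneg _ _
  have h2 : 0 ≤ (col m).n1 w := (col m).nrm_nonneg _ _
  rcases le_total ((row n).n1 v) ((col m).n1 w) with h3 | h3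
  · rw [max_eq_right h3, max_eq_right (by gcongr)]
  · rw [max_eq_left h3, max_eq_left (by gcongr)]

lemma not_hilbertian {F : Type*} [AddCommGroup F] [Module ℂ F] (hn : 2 ≤ n) (hm : 2 ≤ m)
    (Z : OperatorSpace F) (g : F →ₗ[ℂ] ℂ)
    (hZ : ∀ a b, g a = 0 → g b = 0 →
      Z.n1 (a + b) ^ 2 + Z.n1 (a - b) ^ 2 = 2 * (Z.n1 a ^ 2 + Z.n1 b ^ 2)) :
    ¬ CompletelyIsometric (RC n m) Z := by
  rintro ⟨u, hu⟩
  have hu1 : ∀ e, Z.n1 (u e) = (RC n m).n1 e := by
    intro e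
    have h := hu 1 (Matrix.of fun _ _ => e)
    exact h
  obtain ⟨v, hv1, hv2⟩ := exists_ker hn (g ∘ₗ u.toLinearMap ∘ₗ
    LinearMap.inl ℂ (Fin n → ℂ) (Fin m → ℂ))
  obtain ⟨w, hw1, hw2⟩ := exists_ker hm (g ∘ₗ u.toLinearMap ∘ₗ
    LinearMap.inr ℂ (Fin n → ℂ) (Fin m → ℂ))
  have h := hZ (u (v, 0)) (u (0, w)) hv1 hw1
  rw [← map_add, ← map_sub, hu1, hu1, hu1, hu1] at h
  have e1 : ((v, 0) : (Fin n → ℂ) × (Fin m → ℂ)) + (0, w) = (v, w) := by simp
  have e2 : ((v, 0) : (Fin n → ℂ) × (Fin m → ℂ)) - (0, w) = (v, -w) := by simp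
  rw [e1, e2, n1_RC_sq, n1_RC_sq, n1_RC_sq, n1_RC_sq] at h
  simp only [Pi.neg_apply, norm_neg, Pi.zero_apply, norm_zero, hv2, hw2] at h
  norm_num at h

lemma parallelogram_sum {k : ℕ} (a b : Fin k → ℂ) :
    ∑ i, ‖(a + b) i‖ ^ 2 + ∑ i, ‖(a - b) i‖ ^ 2 = 2 * (∑ i, ‖a i‖ ^ 2 + ∑ i, ‖b i‖ ^ 2) := by
  rw [← Finset.sum_add_distrib, ← Finset.sum_add_distrib, Finset.mul_sum]
  refine Finset.sum_congr rfl (fun i _ => ?_)
  have := parallelogram_law_with_norm ℝ (a i) (b i)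
  rw [Pi.add_apply, Pi.sub_apply]
  nlinarith [this]

lemma finrank_of_completelyIsometric {E F : Type*} [AddCommGroup E] [Module ℂ E] [AddCommGroup F]
    [Module ℂ F] {X : OperatorSpace E} {Y : OperatorSpace F} (h : CompletelyIsometric X Y) :
    Module.finrank ℂ E = Module.finrank ℂ F := by
  obtain ⟨u, -⟩ := h
  exact u.finrank_eq

lemma finrank_RC : Module.finrank ℂ ((Fin n → ℂ) × (Fin m → ℂ)) = n + m := by
  rw [Module.finrank_prod, Module.finrank_fin_fun, Module.finrank_fin_fun]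

lemma not_inList (hn : 2 ≤ n) (hm : 2 ≤ m) : ¬ InList (RC n m) := by
  rintro (h | h | ⟨k, -, h | h | h | h | h | h⟩)
  · have h1 := finrank_of_completelyIsometric h
    rw [finrank_RC, Module.finrank_fin_fun] at h1
    omega
  · have h1 := finrank_of_completelyIsometric h
    have h2 : Module.finrank ℂ (PiLp 1 (fun _ : Fin 2 => ℂ)) = 2 := by
      rw [LinearEquiv.finrank_eq (WithLp.linearEquiv 1 ℂ (Fin 2 → ℂ)), Module.finrank_fin_fun]
    rw [finrank_RC, h2] at h1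
    omega
  · refine not_hilbertian hn hm _ 0 (fun a b _ _ => ?_) h
    rw [n1_row, n1_row, n1_row, n1_row]
    exact parallelogram_sum a b
  · refine not_hilbertian hn hm _ 0 (fun a b _ _ => ?_) h
    rw [n1_col, n1_col, n1_col, n1_col]
    exact parallelogram_sum a b
  · refine not_hilbertian hn hm _ (LinearMap.fst ℂ _ _) ?_ h
    rintro ⟨a, a'⟩ ⟨b, b'⟩ (rfl : a = 0) (rfl : b = 0)
    rw [Prod.mk_add_mk, Prod.mk_sub_mk, add_zero, sub_zero]
    simp only [n1_sumInf_zero, n1_row]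
    exact parallelogram_sum a' b'
  · refine not_hilbertian hn hm _ (LinearMap.fst ℂ _ _) ?_ h
    rintro ⟨a, a'⟩ ⟨b, b'⟩ (rfl : a = 0) (rfl : b = 0)
    rw [Prod.mk_add_mk, Prod.mk_sub_mk, add_zero, sub_zero]
    simp only [n1_sumInf_zero, n1_col]
    exact parallelogram_sum a' b'
  · refine not_hilbertian hn hm _ (LinearMap.fst ℂ _ _) ?_ h
    rintro ⟨a, a'⟩ ⟨b, b'⟩ (rfl : a = 0) (rfl : b = 0)
    rw [Prod.mk_add_mk, Prod.mk_sub_mk, add_zero, sub_zero]
    simp only [n1_sumOne_zero, n1_row]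
    exact parallelogram_sum a' b'
  · refine not_hilbertian hn hm _ (LinearMap.fst ℂ _ _) ?_ h
    rintro ⟨a, a'⟩ ⟨b, b'⟩ (rfl : a = 0) (rfl : b = 0)
    rw [Prod.mk_add_mk, Prod.mk_sub_mk, add_zero, sub_zero]
    simp only [n1_sumOne_zero, n1_col]
    exact parallelogram_sum a' b'

end NotInList

end Pool.Agent.Lib_helper97.OS
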