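import Mathlib

/-!
# Graphs of convex polytopes

Convex polytopes in Euclidean space, their dimension, their graphs (1-skeletons) and
`d`-realizability of a graph.
-/

open Set

namespace Pool.Agent.Lib_helper97.PolyGraph

section Definitions

variable {E : Type*} [NormedAddCommGroup E] [NormedSpace ℝ E]

/-- The graph (1-skeleton) of a polytope `P`: its vertices are the vertices (extreme points) of `P`,
and two distinct vertices are adjacent iff the segment joining them is a face of `P`, that is, the
set of points of `P` at which some linear functional attains its maximum over `P`. -/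
def polytopeGraph (P : Set E) : SimpleGraph (P.extremePoints ℝ) where
  Adj v w := v ≠ w ∧ IsExposed ℝ P (segment ℝ (v : E) (w : E))
  symm := ⟨by
    rintro v w ⟨h1, h2⟩
    exact ⟨h1.symm, by rwa [segment_symm]⟩⟩
  loopless := ⟨fun v h => h.1 rfl⟩

/-- `P` is a `d`-polytope: a nonempty convex hull of finitely many points whose affine hull has
dimension `d`. -/
def IsDPolytope {N : ℕ} (d : ℕ) (P : Set (EuclideanSpace ℝ (Fin N))) : Prop :=
  P.Nonempty ∧ (∃ S : Finset (EuclideanSpace ℝ (Fin N)), P = convexHull ℝ (S : Set _)) ∧
    Module.finrank ℝ (vectorSpan ℝ P) = d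

/-- `G` is `d`-realizable: isomorphic to the graph of some `d`-polytope. -/
def Realizable (d : ℕ) {V : Type*} (G : SimpleGraph V) : Prop :=
  ∃ (N : ℕ) (P : Set (EuclideanSpace ℝ (Fin N))), IsDPolytope d P ∧
    Nonempty (G ≃g polytopeGraph P)

end Definitions

end Pool.Agent.Lib_helper97.PolyGraph
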