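import Mathlib
import Pool.Agent.Lib_helper97.PolyDefs

/-!
# A dimensionally unambiguous graph of a 5-polytope with ten vertices

The graph has a 6-clique `p₀, …, p₅` and four further pairwise non-adjacent vertices
`u₆, u₇, u₈, u₉`: `u₆` and `u₇` are adjacent to all of the clique, `u₈` to all but `p₄` and `u₉`
to all but `p₅`.

* It is the graph of the 5-polytope obtained from the 5-simplex by adding a point beyond exactly
  the facets opposite to `p₀, p₁`, a point beyond exactly those opposite to `p₂, p₃`, a point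
  beyond exactly the one opposite to `p₄` and a point beyond exactly the one opposite to `p₅`.
* It is not the graph of a 4-polytope: in dimension 4 the six pairwise adjacent vertices have a
  unique affine dependence, with three positive and three negative coefficients, so their hull is
  a cyclic polytope whose 9 facets are the cells of a `3 × 3` grid. A further vertex with all its
  neighbours in the clique sees at least 3 cells if it is adjacent to the whole clique and at
  least 2 cells if it is adjacent to five members of it, and two non-adjacent such vertices see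
  disjoint sets of cells. Since `3 + 3 + 2 + 2 > 9` this is impossible.
* It is not the graph of a polytope of dimension at least 6, as `u₈` has degree 5, nor of one of
  dimension at most 3, as it contains a 5-clique.
-/

open Set

namespace Pool.Agent.Lib_helper97.PolyGraph


section General

variable {E : Type*} [NormedAddCommGroup E] [NormedSpace ℝ E]

/-- membership in the convex hull of a finite family -/
lemma mem_hull_image {ι : Type*} [Fintype ι] (x : ι → E) (s : Set ι) {z : E} :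
    z ∈ convexHull ℝ (x '' s) ↔
      ∃ w : ι → ℝ, (∀ i, 0 ≤ w i) ∧ (∀ i, i ∉ s → w i = 0) ∧ ∑ i, w i = 1 ∧
        ∑ i, w i • x i = z := by
  classical
  constructor
  · intro hz
    have hconv : Convex ℝ {z : E | ∃ w : ι → ℝ, (∀ i, 0 ≤ w i) ∧ (∀ i, i ∉ s → w i = 0) ∧
        ∑ i, w i = 1 ∧ ∑ i, w i • x i = z} := by
      rintro a ⟨w, hw0, hws, hw1, hwa⟩ b ⟨w', hw0', hws', hw1', hwb⟩ s t hs ht hst
      refine ⟨fun i => s * w i + t * w' i, fun i => ?_, fun i hi => ?_, ?_, ?_⟩
      · have := hw0 i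
        have := hw0' i
        positivity
      · simp [hws i hi, hws' i hi]
      · rw [Finset.sum_add_distrib, ← Finset.mul_sum, ← Finset.mul_sum, hw1, hw1']
        linarith
      · simp only [add_smul, mul_smul]
        rw [Finset.sum_add_distrib, ← Finset.smul_sum, ← Finset.smul_sum, hwa, hwb]
    refine convexHull_min ?_ hconv hz
    rintro _ ⟨i, his, rfl⟩
    refine ⟨fun j => if j = i then 1 else 0, fun j => by dsimp only; split_ifs <;> norm_num,
      fun j hj => ?_, by simp, by simp⟩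
    dsimp only
    rw [if_neg]
    rintro rfl
    exact hj his
  · rintro ⟨w, hw0, hws, hw1, rfl⟩
    have hsum : ∑ i, w i • x i = ∑ i ∈ Finset.univ.filter (fun i => i ∈ s), w i • x i := by
      rw [Finset.sum_filter]
      refine Finset.sum_congr rfl (fun i _ => ?_)
      split_ifs with h
      · rfl
      · rw [hws i h, zero_smul]
    have hsum1 : ∑ i ∈ Finset.univ.filter (fun i => i ∈ s), w i = 1 := by
      rw [← hw1, Finset.sum_filter]
      refine Finset.sum_congr rfl (fun i _ => ?_)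
      split_ifs with h
      · rfl
      · rw [hws i h]
    rw [hsum]
    have h3 := Finset.centerMass_mem_convexHull (R := ℝ) (s := x '' s)
      (Finset.univ.filter (fun i => i ∈ s)) (w := w) (fun i _ => hw0 i)
      (by rw [hsum1]; norm_num) (z := x) (fun i hi => mem_image_of_mem x (by simpa using hi))
    rwa [Finset.centerMass_eq_of_sum_1 _ _ hsum1] at h3

/-- functional description of adjacency for a finite family -/
def FAdj {ι : Type*} (x : ι → E) (i j : ι) : Prop :=
  i ≠ j ∧ ∃ l : E →L[ℝ] ℝ, l (x i) = l (x j) ∧ ∀ k, k ≠ i → k ≠ j → l (x i) < l (x k)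

/-- every member of the family is exposed -/
def AllExp {ι : Type*} (x : ι → E) : Prop :=
  ∀ i, ∃ g : E →L[ℝ] ℝ, ∀ k, k ≠ i → g (x i) < g (x k)

lemma AllExp.injective {ι : Type*} {x : ι → E} (h : AllExp x) : Function.Injective x := by
  intro i j hij
  by_contra hne
  obtain ⟨g, hg⟩ := h i
  have := hg j (Ne.symm hne)
  rw [hij] at this
  exact lt_irrefl _ this

/-- exposed edge existence: a functional minimised at `v` and somewhere else is minimised
at a neighbour of `v`. -/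
lemma exists_adj {ι : Type*} [Fintype ι] {x : ι → E} (hx : AllExp x) (v : ι)
    (g : E →L[ℝ] ℝ) (hg : ∀ k, k ≠ v → g (x v) < g (x k)) :
    ∀ (n : ℕ) (f : E →L[ℝ] ℝ), (∀ k, f (x v) ≤ f (x k)) →
      (∃ k, k ≠ v ∧ f (x k) = f (x v)) →
      ({k | k ≠ v ∧ f (x k) = f (x v)} : Set ι).ncard ≤ n →
      ∃ w, f (x w) = f (x v) ∧ FAdj x v w := by
  classical
  intro n
  induction n with
  | zero =>
    intro f hf hne hcard
    obtain ⟨k, hk⟩ := hne
    have : ({k | k ≠ v ∧ f (x k) = f (x v)} : Set ι) = ∅ := by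
      rw [← Set.ncard_eq_zero (Set.toFinite _)]
      omega
    exact absurd hk (by
      intro h
      have h2 : k ∈ ({k | k ≠ v ∧ f (x k) = f (x v)} : Set ι) := h
      rw [this] at h2
      exact h2)
  | succ n ih =>
    intro f hf hne hcard
    obtain ⟨s₁, hs₁v, hs₁⟩ := hne
    by_cases huniq : ∀ k, k ≠ v → f (x k) = f (x v) → k = s₁
    · refine ⟨s₁, hs₁, hs₁v.symm, f, hs₁.symm, fun k hkv hks => ?_⟩
      rcases lt_or_eq_of_le (hf k) with h | h
      · exact h
      · exact absurd (huniq k hkv h.symm) hks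
    · push Not at huniq
      obtain ⟨s₂, hs₂v, hs₂, hs₂₁⟩ := huniq
      -- the two rays are different
      have hg1 : 0 < g (x s₁) - g (x v) := sub_pos.2 (hg _ hs₁v)
      have hg2 : 0 < g (x s₂) - g (x v) := sub_pos.2 (hg _ hs₂v)
      have hray : (g (x s₁) - g (x v))⁻¹ • (x s₁ - x v) ≠
          (g (x s₂) - g (x v))⁻¹ • (x s₂ - x v) := by
        intro heq
        -- x s₁ - x v = c • (x s₂ - x v)
        set c := (g (x s₁) - g (x v)) / (g (x s₂) - g (x v)) with hc
        have hcpos : 0 < c := div_pos hg1 hg2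
        have h1 : x s₁ - x v = c • (x s₂ - x v) := by
          have := congrArg (fun z => (g (x s₁) - g (x v)) • z) heq
          simp only [smul_smul] at this
          rw [mul_inv_cancel₀ hg1.ne', one_smul] at this
          rw [this, hc, div_eq_mul_inv]
        rcases le_total c 1 with hc1 | hc1
        · -- s₁ is between v and s₂
          obtain ⟨g', hg'⟩ := hx s₁
          have h2 := hg' v hs₁v.symm
          have h3 := hg' s₂ hs₂₁
          have h4 : g' (x s₁) - g' (x v) = c * (g' (x s₂) - g' (x v)) := by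
            have := congrArg g' h1
            simpa using this
          nlinarith
        · -- s₂ is between v and s₁
          obtain ⟨g', hg'⟩ := hx s₂
          have h2 := hg' v hs₂v.symm
          have h3 := hg' s₁ (Ne.symm hs₂₁)
          have h4 : g' (x s₁) - g' (x v) = c * (g' (x s₂) - g' (x v)) := by
            have := congrArg g' h1
            simpa using this
          nlinarith
      obtain ⟨h, hh⟩ := SeparatingDual.exists_separating_of_ne (R := ℝ) hray
      -- the minimal ratio over M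
      let M : Finset ι := Finset.univ.filter (fun k => k ≠ v ∧ f (x k) = f (x v))
      have hM1 : s₁ ∈ M := by simp [M, hs₁v, hs₁]
      have hM2 : s₂ ∈ M := by simp [M, hs₂v, hs₂]
      let ρ : ι → ℝ := fun k => (h (x k) - h (x v)) / (g (x k) - g (x v))
      obtain ⟨s₀, hs₀M, hs₀⟩ := Finset.exists_min_image M ρ ⟨s₁, hM1⟩
      have hρne : ρ s₁ ≠ ρ s₂ := by
        intro he
        apply hh
        simp only [map_smul, map_sub, smul_eq_mul]
        simp only [ρ, div_eq_mul_inv] at he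
        rw [mul_comm, he, mul_comm]
      set t := ρ s₀ with ht
      let k0 : E →L[ℝ] ℝ := h - t • g
      have hk0 : ∀ k, k0 (x k) - k0 (x v) = (h (x k) - h (x v)) - t * (g (x k) - g (x v)) := by
        intro k
        simp only [k0, sub_apply, smul_apply, smul_eq_mul]
        ring
      have hk0' : ∀ k, k ≠ v → k0 (x k) - k0 (x v) = (ρ k - t) * (g (x k) - g (x v)) := by
        intro k hk
        rw [hk0 k]
        have : 0 < g (x k) - g (x v) := sub_pos.2 (hg _ hk)
        simp only [ρ]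
        field_simp
      -- choose epsilon
      have hev : ∀ᶠ ε in nhdsWithin (0 : ℝ) (Set.Ioi 0), ∀ k ∈ (Finset.univ : Finset ι),
          (f (x v) < f (x k) → f (x v) + ε * k0 (x v) < f (x k) + ε * k0 (x k)) := by
        rw [Filter.eventually_all_finset]
        intro k _
        by_cases hlt : f (x v) < f (x k)
        · have hcont : Filter.Tendsto (fun ε : ℝ => (f (x k) + ε * k0 (x k)) -
              (f (x v) + ε * k0 (x v))) (nhdsWithin (0 : ℝ) (Set.Ioi 0))
              (nhds ((f (x k) + 0 * k0 (x k)) - (f (x v) + 0 * k0 (x v)))) := by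
            apply Filter.Tendsto.mono_left _ nhdsWithin_le_nhds
            apply Continuous.tendsto
            fun_prop
          have hpos : (0 : ℝ) < (f (x k) + 0 * k0 (x k)) - (f (x v) + 0 * k0 (x v)) := by
            simpa using hlt
          filter_upwards [hcont.eventually (lt_mem_nhds hpos)] with ε hε _
          linarith
        · exact Filter.Eventually.of_forall (fun ε h => absurd h hlt)
      obtain ⟨ε, hε, hεpos⟩ := (hev.and self_mem_nhdsWithin).exists
      have hεpos : (0 : ℝ) < ε := hεpos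
      let f' : E →L[ℝ] ℝ := f + ε • k0
      have hf'v : ∀ k, f' (x k) = f (x k) + ε * k0 (x k) := by
        intro k
        simp [f']
      have hMiff : ∀ k, k ∈ M ↔ (k ≠ v ∧ f (x k) = f (x v)) := by
        intro k; simp [M]
      have hf'M : ∀ k ∈ M, f' (x k) - f' (x v) = ε * ((ρ k - t) * (g (x k) - g (x v))) := by
        intro k hk
        have hk' := (hMiff k).1 hk
        rw [hf'v, hf'v, ← hk0' k hk'.1, hk'.2]
        ring
      have hf'ge : ∀ k, f' (x v) ≤ f' (x k) := by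
        intro k
        by_cases hkv : k = v
        · rw [hkv]
        · by_cases hkM : k ∈ M
          · have h1 := hf'M k hkM
            have h2 : 0 ≤ ρ k - t := sub_nonneg.2 (hs₀ k hkM)
            have h3 : 0 < g (x k) - g (x v) := sub_pos.2 (hg _ hkv)
            have : 0 ≤ f' (x k) - f' (x v) := by
              rw [h1]; positivity
            linarith
          · have h1 : f (x v) < f (x k) := by
              rcases lt_or_eq_of_le (hf k) with h | h
              · exact h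
              · exact absurd ((hMiff k).2 ⟨hkv, h.symm⟩) hkM
            rw [hf'v, hf'v]
            exact (hε k (Finset.mem_univ k) h1).le
      have hf'eq : ∀ k, k ≠ v → f' (x k) = f' (x v) → k ∈ M ∧ ρ k = t := by
        intro k hkv hk
        have hkM : k ∈ M := by
          by_contra hkM
          have h1 : f (x v) < f (x k) := by
            rcases lt_or_eq_of_le (hf k) with h | h
            · exact h
            · exact absurd ((hMiff k).2 ⟨hkv, h.symm⟩) hkM
          have := hε k (Finset.mem_univ k) h1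
          rw [← hf'v, ← hf'v] at this
          linarith
        refine ⟨hkM, ?_⟩
        have h1 := hf'M k hkM
        rw [hk, sub_self] at h1
        have h3 : 0 < g (x k) - g (x v) := sub_pos.2 (hg _ hkv)
        have h4 : ρ k - t = 0 := by
          by_contra hne
          have : ε * ((ρ k - t) * (g (x k) - g (x v))) ≠ 0 :=
            mul_ne_zero hεpos.ne' (mul_ne_zero hne h3.ne')
          exact this h1.symm
        linarith
      have hs₀' := (hMiff s₀).1 hs₀M
      obtain ⟨w, hw1, hw2⟩ := ih f' hf'ge ⟨s₀, hs₀'.1, by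
          have := hf'M s₀ hs₀M
          rw [← ht, sub_self, zero_mul, mul_zero] at this
          linarith⟩ (by
          -- strictly smaller set
          have hsub : ({k | k ≠ v ∧ f' (x k) = f' (x v)} : Set ι) ⊂
              ({k | k ≠ v ∧ f (x k) = f (x v)} : Set ι) := by
            refine ⟨?_, ?_⟩
            · rintro k ⟨hkv, hk⟩
              exact (hMiff k).1 (hf'eq k hkv hk).1
            · intro hsup
              have h1 := hsup (show s₁ ∈ ({k | k ≠ v ∧ f (x k) = f (x v)} : Set ι) from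
                ⟨hs₁v, hs₁⟩)
              have h2 := hsup (show s₂ ∈ ({k | k ≠ v ∧ f (x k) = f (x v)} : Set ι) from
                ⟨hs₂v, hs₂⟩)
              apply hρne
              rw [(hf'eq s₁ h1.1 h1.2).2, (hf'eq s₂ h2.1 h2.2).2]
          have := Set.ncard_lt_ncard hsub (Set.toFinite _)
          omega)
      have hwv : w ≠ v := hw2.1.symm
      have := (hMiff w).1 (hf'eq w hwv hw1).1
      exact ⟨w, this.2, hw2⟩

/-- the vertex cone: the whole family lies in the cone at `v` spanned by the edges at `v` -/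
lemma vertex_cone {ι : Type*} [Fintype ι] {x : ι → E} (hx : AllExp x) (v w : ι) (hw : w ≠ v) :
    ∃ c : ι → ℝ, (∀ y, 0 ≤ c y) ∧ (∀ y, c y ≠ 0 → FAdj x v y) ∧
      x w - x v = ∑ y, c y • (x y - x v) := by
  classical
  obtain ⟨g, hg⟩ := hx v
  have hgpos : ∀ k, k ≠ v → 0 < g (x k) - g (x v) := fun k hk => sub_pos.2 (hg k hk)
  let r : ι → E := fun k => (g (x k) - g (x v))⁻¹ • (x k - x v)
  have hr : ∀ k, k ≠ v → (g (x k) - g (x v)) • r k = x k - x v := by
    intro k hk
    simp only [r, smul_smul]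
    rw [mul_inv_cancel₀ (hgpos k hk).ne', one_smul]
  by_cases hmem : r w ∈ convexHull ℝ (r '' {y | FAdj x v y})
  · obtain ⟨a, ha0, has, ha1, hsum⟩ := (mem_hull_image r _).1 hmem
    refine ⟨fun y => (g (x w) - g (x v)) * a y * (g (x y) - g (x v))⁻¹, fun y => ?_,
      fun y hy => ?_, ?_⟩
    · by_cases hy : FAdj x v y
      · have h1 := hgpos w hw
        have h2 := hgpos y hy.1.symm
        have h3 := ha0 y
        positivity
      · simp [has y hy]
    · by_contra hn
      exact hy (by simp [has y hn])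
    · rw [← hr w hw, ← hsum, Finset.smul_sum]
      refine Finset.sum_congr rfl (fun y _ => ?_)
      simp only [r, smul_smul, mul_assoc]
  · exfalso
    have hcl : IsClosed (convexHull ℝ (r '' {y | FAdj x v y})) :=
      ((Set.toFinite _).isCompact_convexHull ℝ).isClosed
    obtain ⟨f, u, hfu, hub⟩ := geometric_hahn_banach_point_closed (convex_convexHull ℝ _) hcl hmem
    obtain ⟨s₀, hs₀, hmin⟩ := Finset.exists_min_image (Finset.univ.filter (fun k => k ≠ v))
      (fun k => f (r k)) ⟨w, by simp [hw]⟩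
    have hs₀v : s₀ ≠ v := by simpa using hs₀
    set m := f (r s₀) with hm
    let f₁ : E →L[ℝ] ℝ := f - m • g
    have hf₁ : ∀ k, k ≠ v → f₁ (x k) - f₁ (x v) = (g (x k) - g (x v)) * (f (r k) - m) := by
      intro k hk
      have h1 : f (x k) - f (x v) = (g (x k) - g (x v)) * f (r k) := by
        rw [← map_sub, ← hr k hk, map_smul, smul_eq_mul]
      simp only [f₁, sub_apply, smul_apply, smul_eq_mul]
      linear_combination h1
    have hge : ∀ k, f₁ (x v) ≤ f₁ (x k) := by
      intro k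
      by_cases hk : k = v
      · rw [hk]
      · have h1 := hf₁ k hk
        have h2 := hgpos k hk
        have h3 : 0 ≤ f (r k) - m := sub_nonneg.2 (hmin k (by simp [hk]))
        have : 0 ≤ f₁ (x k) - f₁ (x v) := by rw [h1]; positivity
        linarith
    obtain ⟨y, hy1, hy2⟩ := exists_adj hx v g hg _ f₁ hge
      ⟨s₀, hs₀v, by have := hf₁ s₀ hs₀v; rw [← hm, sub_self, mul_zero] at this; linarith⟩ le_rfl
    have hyv : y ≠ v := hy2.1.symm
    have h1 := hf₁ y hyv
    have h2 := hgpos y hyv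
    have h3 := hub (r y) (subset_convexHull ℝ _ (mem_image_of_mem r hy2))
    have h4 : m ≤ f (r w) := hmin w (by simp [hw])
    rw [hy1, sub_self] at h1
    have h5 : 0 < (g (x y) - g (x v)) * (f (r y) - m) := mul_pos h2 (by linarith)
    linarith

/-- points of the hull minimising a functional lie in the hull of the minimising members -/
lemma mem_face {ι : Type*} [Fintype ι] {x : ι → E} {l : E →L[ℝ] ℝ} {m : ℝ}
    (hm : ∀ k, m ≤ l (x k)) {z : E} (hz : z ∈ convexHull ℝ (range x)) (hlz : l z ≤ m) :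
    z ∈ convexHull ℝ (x '' {k | l (x k) = m}) := by
  classical
  rw [← image_univ] at hz
  obtain ⟨w, hw0, -, hw1, rfl⟩ := (mem_hull_image x _).1 hz
  refine (mem_hull_image x _).2 ⟨w, hw0, fun k hk => ?_, hw1, rfl⟩
  have h1 : ∑ k, w k * (l (x k) - m) ≤ 0 := by
    have : ∑ k, w k * (l (x k) - m) = l (∑ k, w k • x k) - m := by
      rw [map_sum]
      simp only [mul_sub, map_smul, smul_eq_mul]
      rw [Finset.sum_sub_distrib, ← Finset.sum_mul, hw1, one_mul]
    rw [this]
    linarith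
  have h2 : ∀ k ∈ Finset.univ, 0 ≤ w k * (l (x k) - m) := fun k _ =>
    mul_nonneg (hw0 k) (sub_nonneg.2 (hm k))
  have h3 : ∑ k, w k * (l (x k) - m) = 0 := le_antisymm h1 (Finset.sum_nonneg h2)
  have h4 := (Finset.sum_eq_zero_iff_of_nonneg h2).1 h3 k (Finset.mem_univ k)
  rcases mul_eq_zero.1 h4 with h | h
  · exact h
  · exact absurd (sub_eq_zero.1 h) hk

lemma le_of_mem_hull {ι : Type*} [Fintype ι] {x : ι → E} {l : E →L[ℝ] ℝ} {m : ℝ}
    (hm : ∀ k, m ≤ l (x k)) {z : E} (hz : z ∈ convexHull ℝ (range x)) : m ≤ l z := by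
  have hconv : Convex ℝ {z : E | m ≤ l z} :=
    convex_halfSpace_ge (f := (l : E → ℝ)) ⟨map_add l, map_smul l⟩ m
  exact (convexHull_min (by rintro _ ⟨k, rfl⟩; exact hm k) hconv) hz

/-- the extreme points of the hull of a family all of whose members are exposed -/
lemma extremePoints_of_allExp {ι : Type*} [Fintype ι] {x : ι → E} (hx : AllExp x) :
    (convexHull ℝ (range x)).extremePoints ℝ = range x := by
  apply Subset.antisymm extremePoints_convexHull_subset
  rintro _ ⟨i, rfl⟩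
  obtain ⟨g, hg⟩ := hx i
  have hge : ∀ k, g (x i) ≤ g (x k) := by
    intro k
    by_cases hk : k = i
    · rw [hk]
    · exact (hg k hk).le
  have hset : {k | g (x k) = g (x i)} = {i} := by
    ext k
    simp only [mem_ofPred_eq, mem_singleton_iff]
    constructor
    · intro h
      by_contra hk
      have := hg k hk
      linarith
    · rintro rfl; rfl
  apply exposedPoints_subset_extremePoints
  refine ⟨subset_convexHull ℝ _ (mem_range_self i), -g, fun y hy => ⟨?_, fun h => ?_⟩⟩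
  · simp only [neg_apply]
    exact neg_le_neg (le_of_mem_hull hge hy)
  · simp only [neg_apply] at h
    have h1 := mem_face hge hy (neg_le_neg_iff.1 h)
    rw [hset, image_singleton, convexHull_singleton] at h1
    exact h1

/-- adjacency in the graph of the hull, for a family of exposed points -/
lemma isExposed_segment_iff {ι : Type*} [Fintype ι] {x : ι → E} (hx : AllExp x) {i j : ι}
    (hij : i ≠ j) :
    IsExposed ℝ (convexHull ℝ (range x)) (segment ℝ (x i) (x j)) ↔ FAdj x i j := by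
  classical
  constructor
  · intro h
    obtain ⟨l, hl⟩ := h ⟨x i, left_mem_segment ℝ _ _⟩
    have hi : x i ∈ segment ℝ (x i) (x j) := left_mem_segment ℝ _ _
    have hj : x j ∈ segment ℝ (x i) (x j) := right_mem_segment ℝ _ _
    have hmem : ∀ k, x k ∈ convexHull ℝ (range x) := fun k =>
      subset_convexHull ℝ _ (mem_range_self k)
    rw [hl] at hi hj
    have heq : l (x i) = l (x j) := le_antisymm (hj.2 _ (hmem i)) (hi.2 _ (hmem j))
    refine ⟨hij, -l, by simp [heq], fun k hki hkj => ?_⟩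
    simp only [neg_apply]
    apply neg_lt_neg
    rcases lt_or_eq_of_le (hi.2 _ (hmem k)) with h' | h'
    · exact h'
    · exfalso
      have hk : x k ∈ segment ℝ (x i) (x j) := by
        rw [hl]
        exact ⟨hmem k, fun y hy => by rw [h']; exact hi.2 y hy⟩
      -- x k is exposed by g, contradiction
      obtain ⟨g, hg⟩ := hx k
      obtain ⟨a, b, ha, hb, hab, hsum⟩ := hk
      have h1 := congrArg g hsum
      simp only [map_add, map_smul, smul_eq_mul] at h1
      have h2 := hg i (Ne.symm hki)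
      have h3 := hg j (Ne.symm hkj)
      have h4 : a * (g (x i) - g (x k)) + b * (g (x j) - g (x k)) = 0 := by
        linear_combination h1 - g (x k) * hab
      have h5 := mul_nonneg ha (sub_pos.2 h2).le
      have h6 := mul_nonneg hb (sub_pos.2 h3).le
      rcases eq_or_lt_of_le ha with ha0 | ha0
      · have hb1 : b = 1 := by linarith
        rw [hb1] at h4 h6
        linarith
      · have := mul_pos ha0 (sub_pos.2 h2)
        linarith
  · rintro ⟨-, l, hl, hlt⟩ -
    have hge : ∀ k, l (x i) ≤ l (x k) := by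
      intro k
      by_cases hki : k = i
      · rw [hki]
      by_cases hkj : k = j
      · rw [hkj, hl]
      exact (hlt k hki hkj).le
    have hset : x '' {k | l (x k) = l (x i)} = {x i, x j} := by
      ext z
      simp only [mem_image, mem_ofPred_eq, mem_insert_iff, mem_singleton_iff]
      constructor
      · rintro ⟨k, hk, rfl⟩
        by_cases hki : k = i
        · left; rw [hki]
        by_cases hkj : k = j
        · right; rw [hkj]
        have := hlt k hki hkj
        linarith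
      · rintro (rfl | rfl)
        · exact ⟨i, rfl, rfl⟩
        · exact ⟨j, hl.symm, rfl⟩
    refine ⟨-l, Subset.antisymm ?_ ?_⟩
    · intro z hz
      have hzP : z ∈ convexHull ℝ (range x) := by
        rw [← convexHull_pair] at hz
        refine convexHull_mono ?_ hz
        rintro _ (rfl | rfl)
        · exact mem_range_self i
        · exact mem_range_self j
      refine ⟨hzP, fun y hy => ?_⟩
      simp only [neg_apply]
      apply neg_le_neg
      obtain ⟨a, b, ha, hb, hab, rfl⟩ := hz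
      have h1 := le_of_mem_hull hge hy
      simp only [map_add, map_smul, smul_eq_mul]
      rw [← hl, ← add_mul, hab, one_mul]
      exact h1
    · rintro z ⟨hzP, hz⟩
      have h1 := hz (x i) (subset_convexHull ℝ _ (mem_range_self i))
      simp only [neg_apply, neg_le_neg_iff] at h1
      have h2 := mem_face hge hzP h1
      rw [hset, convexHull_pair] at h2
      exact h2

/-- An enumeration of the vertices of a polytope. -/
lemma polytope_family {ι : Type*} [Fintype ι] {P : Set E} {S : Finset E}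
    (hP : P = convexHull ℝ (S : Set E)) (e : ι ≃ P.extremePoints ℝ) :
    P = convexHull ℝ (range fun i => (e i : E)) ∧ AllExp (fun i => (e i : E)) := by
  classical
  have hcomp : IsCompact P := by rw [hP]; exact S.finite_toSet.isCompact_convexHull ℝ
  have hconv : Convex ℝ P := by rw [hP]; exact convex_convexHull ℝ _
  have hrange : range (fun i => (e i : E)) = P.extremePoints ℝ := by
    ext z
    constructor
    · rintro ⟨i, rfl⟩; exact (e i).2
    · intro hz
      exact ⟨e.symm ⟨z, hz⟩, by simp⟩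
  have hPeq : P = convexHull ℝ (range fun i => (e i : E)) := by
    have h1 := closure_convexHull_extremePoints hcomp hconv
    rw [← hrange] at h1
    have h2 : IsClosed (convexHull ℝ (range fun i => (e i : E))) :=
      ((Set.finite_range _).isCompact_convexHull ℝ).isClosed
    rw [h2.closure_eq] at h1
    exact h1.symm
  refine ⟨hPeq, fun i => ?_⟩
  have hi := (hconv.mem_extremePoints_iff_mem_sdiff_convexHull_sdiff).1 (e i).2
  have hnot : (e i : E) ∉ convexHull ℝ ((fun i => (e i : E)) '' {k | k ≠ i}) := by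
    intro h
    apply hi.2
    refine convexHull_mono ?_ h
    rintro _ ⟨k, hk, rfl⟩
    refine ⟨(e k).2.1, fun h' => hk ?_⟩
    have : (e k : E) = e i := h'
    exact e.injective (Subtype.ext this)
  have hcl : IsClosed (convexHull ℝ ((fun i => (e i : E)) '' {k | k ≠ i})) :=
    ((Set.toFinite _).isCompact_convexHull ℝ).isClosed
  obtain ⟨f, u, hfu, hub⟩ := geometric_hahn_banach_point_closed (convex_convexHull ℝ _) hcl hnot
  refine ⟨f, fun k hk => hfu.trans (hub _ (subset_convexHull ℝ _ ⟨k, hk, rfl⟩))⟩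

end General

section Clique

variable {E : Type*} [NormedAddCommGroup E] [NormedSpace ℝ E]

/-- Every nontrivial affine dependence among pairwise adjacent vertices has a positive
coefficient outside any given pair. -/
lemma clique_pos {ι κ : Type*} [Fintype κ] {x : ι → E} (hx : AllExp x)
    {c : κ → ι} (hinj : Function.Injective c) (hadj : ∀ a b, a ≠ b → FAdj x (c a) (c b))
    {lam : κ → ℝ} (hsum : ∑ k, lam k = 0) (hdep : ∑ k, lam k • x (c k) = 0)
    (hne : lam ≠ 0) {i j : κ} (hij : i ≠ j) : ∃ k, k ≠ i ∧ k ≠ j ∧ 0 < lam k := by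
  classical
  by_contra hcon
  push Not at hcon
  obtain ⟨-, l, hl, hlt⟩ := hadj i j hij
  have h0 : ∑ k, lam k * (l (x (c k)) - l (x (c i))) = 0 := by
    have h1 := congrArg l hdep
    rw [map_sum, map_zero] at h1
    simp only [map_smul, smul_eq_mul] at h1
    simp only [mul_sub]
    rw [Finset.sum_sub_distrib, h1, ← Finset.sum_mul, hsum]
    ring
  have hle : ∀ k ∈ Finset.univ, lam k * (l (x (c k)) - l (x (c i))) ≤ 0 := by
    intro k _
    by_cases hki : k = i
    · rw [hki]; simp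
    by_cases hkj : k = j
    · rw [hkj, hl]; simp
    have h1 := hcon k hki hkj
    have h2 := hlt (c k) (fun h => hki (hinj h)) (fun h => hkj (hinj h))
    nlinarith
  have hzero : ∀ k, k ≠ i → k ≠ j → lam k = 0 := by
    intro k hki hkj
    have h1 := (Finset.sum_eq_zero_iff_of_nonpos hle).1 h0 k (Finset.mem_univ k)
    have h2 := hlt (c k) (fun h => hki (hinj h)) (fun h => hkj (hinj h))
    rcases mul_eq_zero.1 h1 with h | h
    · exact h
    · linarith
  have hs2 : lam i + lam j = 0 := by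
    rw [← hsum, ← Finset.sum_pair hij]
    apply Finset.sum_subset (Finset.subset_univ _)
    intro k _ hk
    simp only [Finset.mem_insert, Finset.mem_singleton, not_or] at hk
    exact hzero k hk.1 hk.2
  have hd2 : lam i • x (c i) + lam j • x (c j) = 0 := by
    rw [← hdep, ← Finset.sum_pair (f := fun k => lam k • x (c k)) hij]
    apply Finset.sum_subset (Finset.subset_univ _)
    intro k _ hk
    simp only [Finset.mem_insert, Finset.mem_singleton, not_or] at hk
    rw [hzero k hk.1 hk.2, zero_smul]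
  obtain ⟨g, hg⟩ := hx (c i)
  have hgij := hg (c j) (fun h => hij (hinj h).symm)
  have h3 := congrArg g hd2
  simp only [map_add, map_smul, smul_eq_mul, map_zero] at h3
  have hli : lam i = 0 := by
    have h4 : lam i * (g (x (c i)) - g (x (c j))) = 0 := by
      linear_combination h3 - g (x (c j)) * hs2
    rcases mul_eq_zero.1 h4 with h | h
    · exact h
    · linarith
  have hlj : lam j = 0 := by linarith
  apply hne
  funext k
  by_cases hki : k = i
  · rw [hki, hli]; rfl
  by_cases hkj : k = j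
  · rw [hkj, hlj]; rfl
  exact hzero k hki hkj

lemma clique_three_pos {ι κ : Type*} [Fintype κ] [Nontrivial κ] {x : ι → E} (hx : AllExp x)
    {c : κ → ι} (hinj : Function.Injective c) (hadj : ∀ a b, a ≠ b → FAdj x (c a) (c b))
    {lam : κ → ℝ} (hsum : ∑ k, lam k = 0) (hdep : ∑ k, lam k • x (c k) = 0)
    (hne : lam ≠ 0) : ∃ a : Fin 3 → κ, Function.Injective a ∧ ∀ i, 0 < lam (a i) := by
  obtain ⟨i, j, hij⟩ := exists_pair_ne κ
  obtain ⟨a, -, -, ha⟩ := clique_pos hx hinj hadj hsum hdep hne hij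
  obtain ⟨b', hb'⟩ := exists_ne a
  obtain ⟨b, hba, -, hb⟩ := clique_pos hx hinj hadj hsum hdep hne (Ne.symm hb')
  obtain ⟨d, hda, hdb, hd⟩ := clique_pos hx hinj hadj hsum hdep hne (Ne.symm hba)
  refine ⟨![a, b, d], ?_, ?_⟩
  · intro s t hst
    fin_cases s <;> fin_cases t <;> simp_all
  · intro s
    fin_cases s <;> simp_all

lemma clique_three_neg {ι κ : Type*} [Fintype κ] [Nontrivial κ] {x : ι → E} (hx : AllExp x)
    {c : κ → ι} (hinj : Function.Injective c) (hadj : ∀ a b, a ≠ b → FAdj x (c a) (c b))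
    {lam : κ → ℝ} (hsum : ∑ k, lam k = 0) (hdep : ∑ k, lam k • x (c k) = 0)
    (hne : lam ≠ 0) : ∃ a : Fin 3 → κ, Function.Injective a ∧ ∀ i, lam (a i) < 0 := by
  obtain ⟨a, ha, ha'⟩ := clique_three_pos hx hinj hadj (lam := -lam)
    (by simp [hsum]) (by simp [hdep]) (by simpa using hne)
  exact ⟨a, ha, fun i => by simpa using ha' i⟩

/-- a dependence among pairwise adjacent vertices gives an injection `Fin 3 ⊕ Fin 3 → κ`. -/
lemma clique_split {ι κ : Type*} [Fintype κ] [Nontrivial κ] {x : ι → E} (hx : AllExp x)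
    {c : κ → ι} (hinj : Function.Injective c) (hadj : ∀ a b, a ≠ b → FAdj x (c a) (c b))
    {lam : κ → ℝ} (hsum : ∑ k, lam k = 0) (hdep : ∑ k, lam k • x (c k) = 0)
    (hne : lam ≠ 0) : ∃ s : Fin 3 ⊕ Fin 3 → κ, Function.Injective s ∧
      (∀ i, 0 < lam (s (Sum.inl i))) ∧ (∀ i, lam (s (Sum.inr i)) < 0) := by
  obtain ⟨a, ha, ha'⟩ := clique_three_pos hx hinj hadj hsum hdep hne
  obtain ⟨b, hb, hb'⟩ := clique_three_neg hx hinj hadj hsum hdep hne
  refine ⟨Sum.elim a b, ?_, ?_, ?_⟩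
  · apply Function.Injective.sumElim ha hb
    intro i j h
    have h1 := ha' i
    have h2 := hb' j
    rw [h] at h1
    linarith
  · intro i; exact ha' i
  · intro i; exact hb' i

/-- five pairwise adjacent vertices are affinely independent -/
lemma clique_five {ι : Type*} {x : ι → E} (hx : AllExp x)
    {c : Fin 5 → ι} (hinj : Function.Injective c)
    (hadj : ∀ a b, a ≠ b → FAdj x (c a) (c b)) : AffineIndependent ℝ (x ∘ c) := by
  classical
  rw [affineIndependent_iff_of_fintype]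
  intro w hw hw2
  by_contra hne
  push Not at hne
  obtain ⟨i, hi⟩ := hne
  rw [Finset.weightedVSub_eq_linear_combination _ hw] at hw2
  obtain ⟨s, hs, -, -⟩ := clique_split hx hinj hadj hw hw2 (fun h => hi (congrFun h i))
  have := Fintype.card_le_of_injective s hs
  simp at this

/-- the visibility inequality -/
lemma visible_of_adj (pa pb : Fin 3 → E) (la lb : Fin 3 → ℝ) (hla : ∀ a, 0 < la a)
    (hlb : ∀ b, 0 < lb b) (hsum : ∑ a, la a = ∑ b, lb b)
    (hdep : ∑ a, la a • pa a = ∑ b, lb b • pb b) (ma mb : Fin 3 → ℝ)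
    (hm : ∑ a, ma a + ∑ b, mb b = 1) {u : E}
    (hu : ∑ a, ma a • pa a + ∑ b, mb b • pb b = u) (a0 : Fin 3) (l : E →L[ℝ] ℝ)
    (hl : l u = l (pa a0)) (hla' : ∀ a, a ≠ a0 → l u < l (pa a)) (hlb' : ∀ b, l u < l (pb b))
    (hne : u ≠ pa a0) : ∃ a b, a ≠ a0 ∧ ma a / la a + mb b / lb b < 0 := by
  classical
  by_contra hcon
  push Not at hcon
  obtain ⟨b1, -, hb1⟩ := Finset.exists_min_image Finset.univ (fun b => mb b / lb b)
    ⟨0, Finset.mem_univ 0⟩
  set m := mb b1 / lb b1 with hmdef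
  have hA : ∀ a, a ≠ a0 → 0 ≤ ma a + m * la a := by
    intro a ha
    have h1 := hcon a b1 ha
    have h2 : 0 ≤ (ma a / la a + m) * la a := mul_nonneg h1 (hla a).le
    rw [add_mul, div_mul_cancel₀ _ (hla a).ne'] at h2
    exact h2
  have hB : ∀ b, 0 ≤ mb b - m * lb b := by
    intro b
    have h1 := hb1 b (Finset.mem_univ b)
    have h2 : 0 ≤ (mb b / lb b - m) * lb b := mul_nonneg (sub_nonneg.2 h1) (hlb b).le
    rw [sub_mul, div_mul_cancel₀ _ (hlb b).ne'] at h2
    exact h2
  have hdep' := congrArg l hdep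
  have hu' := congrArg l hu
  simp only [map_sum, map_add, map_smul, smul_eq_mul] at hdep' hu'
  have hTA : ∀ a ∈ Finset.univ, 0 ≤ (ma a + m * la a) * (l (pa a) - l u) := by
    intro a _
    by_cases ha : a = a0
    · rw [ha, hl, sub_self, mul_zero]
    · exact mul_nonneg (hA a ha) (sub_nonneg.2 (hla' a ha).le)
  have hTB : ∀ b ∈ Finset.univ, 0 ≤ (mb b - m * lb b) * (l (pb b) - l u) := by
    intro b _
    exact mul_nonneg (hB b) (sub_nonneg.2 (hlb' b).le)
  have e1 : ∑ a, (ma a + m * la a) * (l (pa a) - l u) =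
      ∑ a, ma a * l (pa a) + m * ∑ a, la a * l (pa a) - l u * ∑ a, ma a
        - l u * m * ∑ a, la a := by
    simp only [Finset.mul_sum, ← Finset.sum_add_distrib, ← Finset.sum_sub_distrib]
    exact Finset.sum_congr rfl (fun a _ => by ring)
  have e2 : ∑ b, (mb b - m * lb b) * (l (pb b) - l u) =
      ∑ b, mb b * l (pb b) - m * ∑ b, lb b * l (pb b) - l u * ∑ b, mb b
        + l u * m * ∑ b, lb b := by
    simp only [Finset.mul_sum, ← Finset.sum_add_distrib, ← Finset.sum_sub_distrib]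
    exact Finset.sum_congr rfl (fun a _ => by ring)
  have e3 : ∑ a, (ma a + m * la a) * (l (pa a) - l u) +
      ∑ b, (mb b - m * lb b) * (l (pb b) - l u) = 0 := by
    rw [e1, e2]
    linear_combination hu' + m * hdep' - l u * hm - l u * m * hsum
  have z1 := Finset.sum_nonneg hTA
  have z2 := Finset.sum_nonneg hTB
  have y1 : ∑ a, (ma a + m * la a) * (l (pa a) - l u) = 0 := by linarith
  have y2 : ∑ b, (mb b - m * lb b) * (l (pb b) - l u) = 0 := by linarith
  have hA0 : ∀ a, a ≠ a0 → ma a + m * la a = 0 := by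
    intro a ha
    have h1 := (Finset.sum_eq_zero_iff_of_nonneg hTA).1 y1 a (Finset.mem_univ a)
    rcases mul_eq_zero.1 h1 with h | h
    · exact h
    · have := hla' a ha
      linarith
  have hB0 : ∀ b, mb b - m * lb b = 0 := by
    intro b
    have h1 := (Finset.sum_eq_zero_iff_of_nonneg hTB).1 y2 b (Finset.mem_univ b)
    rcases mul_eq_zero.1 h1 with h | h
    · exact h
    · have := hlb' b
      linarith
  have hs1 : ∑ a, (ma a + m * la a) = ma a0 + m * la a0 := by
    apply Finset.sum_eq_single a0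
    · intro a _ ha; exact hA0 a ha
    · intro h; exact absurd (Finset.mem_univ _) h
  have hs2 : ∑ a, (ma a + m * la a) • pa a = (ma a0 + m * la a0) • pa a0 := by
    apply Finset.sum_eq_single a0
    · intro a _ ha; rw [hA0 a ha, zero_smul]
    · intro h; exact absurd (Finset.mem_univ _) h
  have hs3 : ∑ b, (mb b - m * lb b) = 0 := Finset.sum_eq_zero (fun b _ => hB0 b)
  have hs4 : ∑ b, (mb b - m * lb b) • pb b = 0 :=
    Finset.sum_eq_zero (fun b _ => by rw [hB0 b, zero_smul])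
  rw [Finset.sum_add_distrib, ← Finset.mul_sum] at hs1
  rw [Finset.sum_sub_distrib, ← Finset.mul_sum] at hs3
  have hone : ma a0 + m * la a0 = 1 := by
    rw [← hs1]
    linear_combination hm + m * hsum - hs3
  simp only [add_smul, mul_smul] at hs2
  rw [Finset.sum_add_distrib, ← Finset.smul_sum] at hs2
  simp only [sub_smul, mul_smul] at hs4
  rw [Finset.sum_sub_distrib, ← Finset.smul_sum] at hs4
  apply hne
  have : u = (∑ a, ma a • pa a + m • ∑ a, la a • pa a) +
      (∑ b, mb b • pb b - m • ∑ b, lb b • pb b) := by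
    rw [← hu, hdep]; abel
  rw [this, hs2, hs4, add_zero, ← mul_smul, ← add_smul, hone, one_smul]

end Clique

section Core

variable {E : Type*} [NormedAddCommGroup E] [NormedSpace ℝ E]

/-- comparison of coordinates of two non-adjacent vertices -/
lemma coords_compare {ι κ : Type*} [Fintype ι] [Fintype κ] {x : ι → E} (hx : AllExp x)
    {p : κ → ι} (hp : Function.Injective p) {lam : κ → ℝ}
    (huniq : ∀ δ : κ → ℝ, ∑ k, δ k = 0 → ∑ k, δ k • x (p k) = 0 → ∃ t, ∀ k, δ k = t * lam k)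
    {u u' : ι} (huu' : u' ≠ u) (hu' : u' ∉ range p)
    (hN : ∀ y, FAdj x u y → y ∈ range p)
    {mu mu' : κ → ℝ} (hmu : ∑ k, mu k = 1) (hmu' : ∑ k, mu' k = 1)
    (hmux : ∑ k, mu k • x (p k) = x u) (hmux' : ∑ k, mu' k • x (p k) = x u') :
    ∃ C : ℝ, 1 < C ∧ ∃ c : κ → ℝ, (∀ k, 0 ≤ c k) ∧ ∃ t : ℝ, ∀ k,
      mu' k = (1 - C) * mu k + c k + t * lam k := by
  classical
  obtain ⟨c0, hc0, hc0N, hc0s⟩ := vertex_cone hx u u' huu'
  have hsupp : ∀ i, i ∉ range p → c0 i = 0 := by
    intro i hi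
    by_contra h
    exact hi (hN i (hc0N i h))
  have hE1 : x u' - x u = ∑ k, c0 (p k) • (x (p k) - x u) := by
    rw [hc0s]
    symm
    apply Fintype.sum_of_injective p hp
    · intro i hi; rw [hsupp i hi, zero_smul]
    · intro i; rfl
  set C := ∑ k, c0 (p k) with hC
  have hC1 : 1 < C := by
    by_contra hle
    push Not at hle
    obtain ⟨g, hg⟩ := hx u'
    have h1 := congrArg g hE1
    simp only [map_sub, map_sum, map_smul, smul_eq_mul] at h1
    have h2 : (1 - C) * (g (x u) - g (x u')) + ∑ k, c0 (p k) * (g (x (p k)) - g (x u')) = 0 := by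
      have e1 : ∑ k, c0 (p k) * (g (x (p k)) - g (x u)) =
          ∑ k, c0 (p k) * g (x (p k)) - C * g (x u) := by
        simp only [mul_sub, Finset.sum_sub_distrib, hC, Finset.sum_mul]
      have e2 : ∑ k, c0 (p k) * (g (x (p k)) - g (x u')) =
          ∑ k, c0 (p k) * g (x (p k)) - C * g (x u') := by
        simp only [mul_sub, Finset.sum_sub_distrib, hC, Finset.sum_mul]
      rw [e1] at h1
      rw [e2]
      linear_combination -h1
    have h3 : 0 < g (x u) - g (x u') := sub_pos.2 (hg u huu'.symm)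
    have h4 : ∀ k ∈ Finset.univ, 0 ≤ c0 (p k) * (g (x (p k)) - g (x u')) := by
      intro k _
      apply mul_nonneg (hc0 _)
      exact (sub_pos.2 (hg (p k) (fun h => hu' ⟨k, h⟩))).le
    have h5 := Finset.sum_nonneg h4
    have h6 : 0 ≤ (1 - C) * (g (x u) - g (x u')) := mul_nonneg (by linarith) h3.le
    have h7 : (1 - C) * (g (x u) - g (x u')) = 0 := by linarith
    have h8 : ∑ k, c0 (p k) * (g (x (p k)) - g (x u')) = 0 := by linarith
    have h9 : C = 1 := by
      rcases mul_eq_zero.1 h7 with h | h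
      · linarith
      · linarith
    have h10 : C = 0 := by
      rw [hC]
      apply Finset.sum_eq_zero
      intro k hk
      have h11 := (Finset.sum_eq_zero_iff_of_nonneg h4).1 h8 k hk
      rcases mul_eq_zero.1 h11 with h | h
      · exact h
      · have := hg (p k) (fun h => hu' ⟨k, h⟩)
        linarith
    linarith
  refine ⟨C, hC1, fun k => c0 (p k), fun k => hc0 _, ?_⟩
  obtain ⟨t, ht⟩ := huniq (fun k => mu' k - (1 - C) * mu k - c0 (p k)) (by
      simp only [Finset.sum_sub_distrib, ← Finset.mul_sum]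
      rw [hmu, hmu', ← hC]; ring) (by
      simp only [sub_smul, mul_smul, Finset.sum_sub_distrib, ← Finset.smul_sum]
      rw [hmux, hmux']
      have : ∑ k, c0 (p k) • x (p k) = x u' - x u + C • x u := by
        rw [hE1]
        simp only [smul_sub, Finset.sum_sub_distrib, hC, Finset.sum_smul]
        abel
      rw [this]
      module)
  exact ⟨t, fun k => by have := ht k; linarith⟩

lemma three_le_card {V : Finset (Fin 3 × Fin 3)}
    (h1 : ∀ a0, ∃ a b, a ≠ a0 ∧ (a, b) ∈ V) (h2 : ∀ b0, ∃ a b, b ≠ b0 ∧ (a, b) ∈ V)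
    (h3 : ∀ a b a' b', (a, b) ∈ V → (a', b') ∈ V → (a, b') ∈ V ∨ (a', b) ∈ V) :
    3 ≤ V.card := by
  have key : ∀ q r s : Fin 3 × Fin 3, q ∈ V → r ∈ V → s ∈ V → q ≠ r → q ≠ s → r ≠ s →
      3 ≤ V.card := by
    intro q r s hq hr hs hqr hqs hrs
    have : ({q, r, s} : Finset (Fin 3 × Fin 3)).card = 3 :=
      Finset.card_eq_three.2 ⟨q, r, s, hqr, hqs, hrs, rfl⟩
    have hsub : ({q, r, s} : Finset (Fin 3 × Fin 3)) ⊆ V := by
      intro z hz
      simp only [Finset.mem_insert, Finset.mem_singleton] at hz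
      rcases hz with rfl | rfl | rfl <;> assumption
    have := Finset.card_le_card hsub
    omega
  obtain ⟨a0, b0, -, h00⟩ := h1 0
  obtain ⟨a1, b1, ha1, h11⟩ := h1 a0
  obtain ⟨a2, b2, hb2, h22⟩ := h2 b0
  by_cases he : (a1, b1) = (a2, b2)
  · obtain ⟨rfl, rfl⟩ := Prod.mk.inj he
    rcases h3 a0 b0 a1 b1 h00 h11 with h | h
    · refine key _ _ _ h00 h11 h ?_ ?_ ?_
      · intro h'; exact ha1 (Prod.mk.inj h').1.symm
      · intro h'; exact hb2 (Prod.mk.inj h').2.symm
      · intro h'; exact ha1 (Prod.mk.inj h').1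
    · refine key _ _ _ h00 h11 h ?_ ?_ ?_
      · intro h'; exact ha1 (Prod.mk.inj h').1.symm
      · intro h'; exact ha1 (Prod.mk.inj h').1.symm
      · intro h'; exact hb2 (Prod.mk.inj h').2
  · refine key _ _ _ h00 h11 h22 ?_ ?_ he
    · intro h'; exact ha1 (Prod.mk.inj h').1.symm
    · intro h'; exact hb2 (Prod.mk.inj h').2.symm

lemma two_le_card {V : Finset (Fin 3 × Fin 3)} (h0 : ∃ a b, (a, b) ∈ V)
    (h1 : ∀ a b, (a, b) ∈ V → ∃ a' b', (a', b') ∈ V ∧ (a' ≠ a ∨ b' ≠ b)) :
    2 ≤ V.card := by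
  obtain ⟨a, b, hab⟩ := h0
  obtain ⟨a', b', hab', hne⟩ := h1 a b hab
  have : ({(a, b), (a', b')} : Finset (Fin 3 × Fin 3)).card = 2 := by
    apply Finset.card_pair
    intro h
    obtain ⟨h1, h2⟩ := Prod.mk.inj h
    rcases hne with h3 | h3
    · exact h3 h1.symm
    · exact h3 h2.symm
  have hsub : ({(a, b), (a', b')} : Finset (Fin 3 × Fin 3)) ⊆ V := by
    intro z hz
    simp only [Finset.mem_insert, Finset.mem_singleton] at hz
    rcases hz with rfl | rfl <;> assumption
  have := Finset.card_le_card hsub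
  omega

/-- No family of points in general convex position spanning a `4`-dimensional space can have the
adjacency pattern: a `6`-clique, two further vertices adjacent to the whole clique, two further
vertices adjacent to all but at most one vertex of the clique, the four further vertices having
all their neighbours in the clique. -/
lemma no_four_dim {ι : Type*} [Fintype ι] {x : ι → E} (hx : AllExp x)
    (c : Fin 6 → ι) (hc : Function.Injective c)
    (hclique : ∀ a b, a ≠ b → FAdj x (c a) (c b))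
    (u : Fin 4 → ι) (hu : Function.Injective u) (huc : ∀ i, u i ∉ range c)
    (hN : ∀ i y, FAdj x (u i) y → y ∈ range c)
    (h0 : ∀ a, FAdj x (u 0) (c a)) (h1 : ∀ a, FAdj x (u 1) (c a))
    (e2 e3 : Fin 6) (h2 : ∀ a, a ≠ e2 → FAdj x (u 2) (c a))
    (h3 : ∀ a, a ≠ e3 → FAdj x (u 3) (c a))
    (hdim : Module.finrank ℝ (vectorSpan ℝ (range x)) = 4) : False := by
  classical
  -- coordinates with respect to the clique
  have hcs : Function.Injective (fun i : Fin 5 => c (Fin.castSucc i)) := fun i j h =>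
    Fin.castSucc_injective 5 (hc h)
  have hind : AffineIndependent ℝ (x ∘ fun i : Fin 5 => c (Fin.castSucc i)) :=
    clique_five hx hcs (fun a b hab => hclique _ _ (fun h => hab (Fin.castSucc_injective 5 h)))
  have hfd : FiniteDimensional ℝ (vectorSpan ℝ (range x)) :=
    finiteDimensional_vectorSpan_of_finite ℝ (Set.finite_range x)
  have hspan : affineSpan ℝ (range (x ∘ fun i : Fin 5 => c (Fin.castSucc i))) =
      affineSpan ℝ (range x) := by
    have : FiniteDimensional ℝ (affineSpan ℝ (range x)).direction := by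
      rw [direction_affineSpan]; exact hfd
    apply hind.affineSpan_eq_of_le_of_card_eq_finrank_add_one
    · apply affineSpan_mono
      rintro _ ⟨i, rfl⟩
      exact mem_range_self _
    · rw [direction_affineSpan, hdim]; rfl
  have hcoord5 : ∀ k, ∃ w : Fin 5 → ℝ, ∑ i, w i = 1 ∧
      ∑ i, w i • x (c (Fin.castSucc i)) = x k := by
    intro k
    have hk : x k ∈ affineSpan ℝ (range (x ∘ fun i : Fin 5 => c (Fin.castSucc i))) := by
      rw [hspan]
      exact subset_affineSpan ℝ _ (mem_range_self k)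
    obtain ⟨w, hw, hwk⟩ := eq_affineCombination_of_mem_affineSpan_of_fintype hk
    refine ⟨w, hw, ?_⟩
    rw [hwk, Finset.affineCombination_eq_linear_combination _ _ _ hw]
    rfl
  -- the affine dependence
  obtain ⟨w5, hw5, hw5'⟩ := hcoord5 (c (Fin.last 5))
  let lam6 : Fin 6 → ℝ := Fin.snoc (α := fun _ => ℝ) w5 (-1)
  have hlam6s : ∑ k, lam6 k = 0 := by
    rw [Fin.sum_univ_castSucc]
    simp only [lam6, Fin.snoc_castSucc, Fin.snoc_last, hw5]
    norm_num
  have hlam6d : ∑ k, lam6 k • x (c k) = 0 := by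
    rw [Fin.sum_univ_castSucc]
    simp only [lam6, Fin.snoc_castSucc, Fin.snoc_last]
    rw [hw5', neg_one_smul, add_neg_cancel]
  have hlam6ne : lam6 ≠ 0 := by
    intro h
    have := congrFun h (Fin.last 5)
    simp only [lam6, Fin.snoc_last, Pi.zero_apply] at this
    norm_num at this
  obtain ⟨s, hs, hspos, hsneg⟩ := clique_split hx hc hclique hlam6s hlam6d hlam6ne
  have hsbij : Function.Bijective s := by
    rw [Fintype.bijective_iff_injective_and_card]
    exact ⟨hs, by simp⟩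
  let se : Fin 3 ⊕ Fin 3 ≃ Fin 6 := Equiv.ofBijective s hsbij
  let p : Fin 3 ⊕ Fin 3 → ι := fun k => c (s k)
  let lam : Fin 3 ⊕ Fin 3 → ℝ := fun k => lam6 (s k)
  have hp : Function.Injective p := hc.comp hs
  have hprange : range p = range c := by
    ext y
    constructor
    · rintro ⟨k, rfl⟩; exact mem_range_self _
    · rintro ⟨k, rfl⟩
      obtain ⟨j, rfl⟩ := hsbij.2 k
      exact ⟨j, rfl⟩
  have hlams : ∑ k, lam k = 0 := by
    rw [← hlam6s]
    exact Equiv.sum_comp se lam6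
  have hlamd : ∑ k, lam k • x (p k) = 0 := by
    rw [← hlam6d]
    exact Equiv.sum_comp se (fun k => lam6 k • x (c k))
  have hpadj : ∀ a b, a ≠ b → FAdj x (p a) (p b) := fun a b hab =>
    hclique _ _ (fun h => hab (hs h))
  have hnt : Nontrivial (Fin 3 ⊕ Fin 3) := ⟨⟨Sum.inl 0, Sum.inr 0, by simp⟩⟩
  have huniq : ∀ δ : Fin 3 ⊕ Fin 3 → ℝ, ∑ k, δ k = 0 → ∑ k, δ k • x (p k) = 0 →
      ∃ t, ∀ k, δ k = t * lam k := by
    intro δ hδ hδ'
    have hl0 : lam (Sum.inl 0) ≠ 0 := (hspos 0).ne'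
    refine ⟨δ (Sum.inl 0) / lam (Sum.inl 0), ?_⟩
    by_contra hcon
    push Not at hcon
    obtain ⟨k0, hk0⟩ := hcon
    obtain ⟨s', hs', hs'1, hs'2⟩ := clique_split hx hp hpadj
      (lam := fun k => δ k - δ (Sum.inl 0) / lam (Sum.inl 0) * lam k)
      (by simp only [Finset.sum_sub_distrib, ← Finset.mul_sum]; rw [hδ, hlams]; simp)
      (by
        simp only [sub_smul, mul_smul, Finset.sum_sub_distrib, ← Finset.smul_sum]
        rw [hδ', hlamd]; simp)
      (by
        intro h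
        have := congrFun h k0
        simp only [Pi.zero_apply] at this
        exact hk0 (by linarith))
    have hs'bij : Function.Bijective s' := by
      rw [Fintype.bijective_iff_injective_and_card]
      exact ⟨hs', rfl⟩
    obtain ⟨j, hj⟩ := hs'bij.2 (Sum.inl 0)
    have hz : δ (s' j) - δ (Sum.inl 0) / lam (Sum.inl 0) * lam (s' j) = 0 := by
      rw [hj, div_mul_cancel₀ _ hl0, sub_self]
    rcases j with j | j
    · have := hs'1 j; linarith
    · have := hs'2 j; linarith
  -- coordinates of all points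
  have hcoord : ∀ k, ∃ w : Fin 3 ⊕ Fin 3 → ℝ, ∑ i, w i = 1 ∧ ∑ i, w i • x (p i) = x k := by
    intro k
    obtain ⟨w, hw, hwk⟩ := hcoord5 k
    refine ⟨fun i => (Fin.snoc (α := fun _ => ℝ) w 0 : Fin 6 → ℝ) (s i), ?_, ?_⟩
    · refine (Equiv.sum_comp se (Fin.snoc (α := fun _ => ℝ) w 0 : Fin 6 → ℝ)).trans ?_
      rw [Fin.sum_univ_castSucc]
      simp only [Fin.snoc_castSucc, Fin.snoc_last, hw, add_zero]
    · refine (Equiv.sum_comp se
        (fun i => (Fin.snoc (α := fun _ => ℝ) w 0 : Fin 6 → ℝ) i • x (c i))).trans ?_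
      rw [Fin.sum_univ_castSucc]
      simp only [Fin.snoc_castSucc, Fin.snoc_last, hwk, zero_smul, add_zero]
  choose mu hmu hmux using hcoord
  -- the visible cells
  let Vis : Fin 4 → Finset (Fin 3 × Fin 3) := fun i => Finset.univ.filter (fun ab =>
    mu (u i) (Sum.inl ab.1) / lam (Sum.inl ab.1) +
      mu (u i) (Sum.inr ab.2) / (-lam (Sum.inr ab.2)) < 0)
  have hVis : ∀ i a b, (a, b) ∈ Vis i ↔ mu (u i) (Sum.inl a) / lam (Sum.inl a) +
      mu (u i) (Sum.inr b) / (-lam (Sum.inr b)) < 0 := by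
    intro i a b
    simp [Vis]
  have hlamneg : ∀ b : Fin 3, 0 < -lam (Sum.inr b) := fun b => neg_pos.2 (hsneg b)
  have hsum' : ∑ a : Fin 3, lam (Sum.inl a) = ∑ b : Fin 3, -lam (Sum.inr b) := by
    have := hlams
    rw [Fintype.sum_sum_type] at this
    rw [Finset.sum_neg_distrib]
    linarith
  have hdep' : ∑ a : Fin 3, lam (Sum.inl a) • x (p (Sum.inl a)) =
      ∑ b : Fin 3, (-lam (Sum.inr b)) • x (p (Sum.inr b)) := by
    have := hlamd
    rw [Fintype.sum_sum_type] at this
    simp only [neg_smul, Finset.sum_neg_distrib]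
    exact eq_neg_of_add_eq_zero_left this
  have hunp : ∀ i, u i ∉ range p := fun i => by rw [hprange]; exact huc i
  have hune : ∀ i k, u i ≠ p k := fun i k h => hunp i ⟨k, h.symm⟩
  have hxinj := hx.injective
  have hV1 : ∀ i a0, FAdj x (u i) (p (Sum.inl a0)) → ∃ a b, a ≠ a0 ∧ (a, b) ∈ Vis i := by
    intro i a0 hadj
    obtain ⟨-, l, hl, hlt⟩ := hadj
    obtain ⟨a, b, hab, h⟩ := visible_of_adj (fun a => x (p (Sum.inl a)))
      (fun b => x (p (Sum.inr b))) (fun a => lam (Sum.inl a)) (fun b => -lam (Sum.inr b))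
      hspos hlamneg hsum' hdep' (fun a => mu (u i) (Sum.inl a)) (fun b => mu (u i) (Sum.inr b))
      (by rw [← Fintype.sum_sum_type]; exact hmu (u i))
      (by rw [← hmux (u i), Fintype.sum_sum_type]) a0 l hl
      (fun a ha => hlt _ (hune i _).symm (fun h => ha (Sum.inl_injective (hp h))))
      (fun b => hlt _ (hune i _).symm (fun h => by simpa using hp h))
      (fun h => hune i _ (hxinj h))
    exact ⟨a, b, hab, (hVis i a b).2 h⟩
  have hV2 : ∀ i b0, FAdj x (u i) (p (Sum.inr b0)) → ∃ a b, b ≠ b0 ∧ (a, b) ∈ Vis i := by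
    intro i b0 hadj
    obtain ⟨-, l, hl, hlt⟩ := hadj
    obtain ⟨b, a, hab, h⟩ := visible_of_adj (fun b => x (p (Sum.inr b)))
      (fun a => x (p (Sum.inl a))) (fun b => -lam (Sum.inr b)) (fun a => lam (Sum.inl a))
      hlamneg hspos hsum'.symm hdep'.symm (fun b => mu (u i) (Sum.inr b))
      (fun a => mu (u i) (Sum.inl a))
      (by rw [add_comm, ← Fintype.sum_sum_type]; exact hmu (u i))
      (by rw [← hmux (u i), Fintype.sum_sum_type, add_comm]) b0 l hl
      (fun a ha => hlt _ (hune i _).symm (fun h => ha (Sum.inr_injective (hp h))))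
      (fun b => hlt _ (hune i _).symm (fun h => by simpa using hp h))
      (fun h => hune i _ (hxinj h))
    exact ⟨a, b, hab, (hVis i a b).2 (by rw [add_comm]; exact h)⟩
  have hV3 : ∀ i a b a' b', (a, b) ∈ Vis i → (a', b') ∈ Vis i →
      (a, b') ∈ Vis i ∨ (a', b) ∈ Vis i := by
    intro i a b a' b' h h'
    rw [hVis] at h h'
    rw [hVis, hVis]
    by_contra hcon
    push Not at hcon
    linarith [hcon.1, hcon.2]
  -- disjointness
  have hdisj : ∀ i j, i ≠ j → Disjoint (Vis i) (Vis j) := by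
    intro i j hij
    rw [Finset.disjoint_left]
    rintro ⟨a, b⟩ hi hj
    rw [hVis] at hi hj
    obtain ⟨C, hC, cc, hcc, t, ht⟩ := coords_compare hx hp huniq (u := u i) (u' := u j)
      (fun h => hij (hu h).symm) (hunp j) (fun y hy => by rw [hprange]; exact hN i y hy)
      (hmu (u i)) (hmu (u j)) (hmux (u i)) (hmux (u j))
    have ha := ht (Sum.inl a)
    have hb := ht (Sum.inr b)
    have hla : 0 < lam (Sum.inl a) := hspos a
    have hlb := hlamneg b
    have hca := div_nonneg (hcc (Sum.inl a)) hla.le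
    have hcb := div_nonneg (hcc (Sum.inr b)) hlb.le
    have key : mu (u j) (Sum.inl a) / lam (Sum.inl a) +
        mu (u j) (Sum.inr b) / (-lam (Sum.inr b)) =
        (1 - C) * (mu (u i) (Sum.inl a) / lam (Sum.inl a) +
          mu (u i) (Sum.inr b) / (-lam (Sum.inr b))) +
        cc (Sum.inl a) / lam (Sum.inl a) + cc (Sum.inr b) / (-lam (Sum.inr b)) := by
      have hlb' : lam (Sum.inr b) ≠ 0 := by
        intro h; rw [h] at hlb; simp at hlb
      rw [ha, hb]
      field_simp
      ring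
    have h5 : 0 < (1 - C) * (mu (u i) (Sum.inl a) / lam (Sum.inl a) +
          mu (u i) (Sum.inr b) / (-lam (Sum.inr b))) := mul_pos_of_neg_of_neg (by linarith) hi
    linarith
  -- cardinalities
  have hc0 : 3 ≤ (Vis 0).card := three_le_card (fun a0 => hV1 0 a0 (h0 _))
    (fun b0 => hV2 0 b0 (h0 _)) (hV3 0)
  have hc1 : 3 ≤ (Vis 1).card := three_le_card (fun a0 => hV1 1 a0 (h1 _))
    (fun b0 => hV2 1 b0 (h1 _)) (hV3 1)
  have htwo : ∀ (i : Fin 4) (e : Fin 6), (∀ a, a ≠ e → FAdj x (u i) (c a)) →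
      2 ≤ (Vis i).card := by
    intro i e he
    apply two_le_card
    · by_cases hs0 : s (Sum.inl 0) = e
      · obtain ⟨a, b, -, h⟩ := hV1 i 1 (he _ (fun h => by
          have := hs (hs0.trans h.symm)
          simp at this))
        exact ⟨a, b, h⟩
      · obtain ⟨a, b, -, h⟩ := hV1 i 0 (he _ hs0)
        exact ⟨a, b, h⟩
    · intro a b _
      by_cases hsa : s (Sum.inl a) = e
      · obtain ⟨a', b', hne, h⟩ := hV2 i b (he _ (fun h => by
          have := hs (hsa.trans h.symm)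
          simp at this))
        exact ⟨a', b', h, Or.inr hne⟩
      · obtain ⟨a', b', hne, h⟩ := hV1 i a (he _ hsa)
        exact ⟨a', b', h, Or.inl hne⟩
  have hc2 := htwo 2 e2 h2
  have hc3 := htwo 3 e3 h3
  have hunion : ((Vis 0 ∪ Vis 1) ∪ (Vis 2 ∪ Vis 3)).card ≤ 9 := by
    have := Finset.card_le_univ ((Vis 0 ∪ Vis 1) ∪ (Vis 2 ∪ Vis 3))
    simpa using this
  have hd01 := hdisj 0 1 (by decide)
  have hd23 := hdisj 2 3 (by decide)
  have hd : Disjoint (Vis 0 ∪ Vis 1) (Vis 2 ∪ Vis 3) := by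
    rw [Finset.disjoint_union_left, Finset.disjoint_union_right, Finset.disjoint_union_right]
    exact ⟨⟨hdisj 0 2 (by decide), hdisj 0 3 (by decide)⟩,
      ⟨hdisj 1 2 (by decide), hdisj 1 3 (by decide)⟩⟩
  rw [Finset.card_union_of_disjoint hd, Finset.card_union_of_disjoint hd01,
    Finset.card_union_of_disjoint hd23] at hunion
  omega

end Core

section Example

/-- Integer coordinates of the ten vertices of the example (in the hyperplane `∑ = 18` of `ℝ⁶`). -/
def pt : Fin 10 → Fin 6 → ℤ :=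
  ![![18, 0, 0, 0, 0, 0],
  ![0, 18, 0, 0, 0, 0],
  ![0, 0, 18, 0, 0, 0],
  ![0, 0, 0, 18, 0, 0],
  ![0, 0, 0, 0, 18, 0],
  ![0, 0, 0, 0, 0, 18],
  ![-3, -3, 6, 6, 6, 6],
  ![6, 6, -3, -3, 6, 6],
  ![4, 4, 4, 4, -2, 4],
  ![4, 4, 4, 4, 4, -2]]

/-- functionals exposing the vertices -/
def vtab : Fin 10 → Fin 6 → ℤ :=
  ![![0, 1, 1, 1, 1, 1],
  ![1, 0, 1, 1, 1, 1],
  ![1, 1, 0, 1, 1, 1],
  ![1, 1, 1, 0, 1, 1],
  ![1, 1, 1, 1, 0, 1],
  ![1, 1, 1, 1, 1, 0],
  ![5, 5, 1, 1, 1, 1],
  ![1, 1, 5, 5, 1, 1],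
  ![1, 1, 1, 1, 11, 1],
  ![1, 1, 1, 1, 1, 11]]

/-- functionals exposing the edges -/
def etab : Fin 10 → Fin 10 → Fin 6 → ℤ :=
  ![![![0, 0, 0, 0, 0, 0],
  ![0, 0, 1, 1, 1, 1],
  ![0, 1, 0, 1, 1, 1],
  ![0, 1, 1, 0, 1, 1],
  ![0, 1, 1, 1, 0, 1],
  ![0, 1, 1, 1, 1, 0],
  ![0, 8, 1, 1, 1, 1],
  ![0, 1, 3, 3, 1, 1],
  ![0, 1, 1, 1, 8, 1],
  ![0, 1, 1, 1, 1, 8]],
  ![![0, 0, 1, 1, 1, 1],
  ![0, 0, 0, 0, 0, 0],
  ![1, 0, 0, 1, 1, 1],
  ![1, 0, 1, 0, 1, 1],
  ![1, 0, 1, 1, 0, 1],
  ![1, 0, 1, 1, 1, 0],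
  ![8, 0, 1, 1, 1, 1],
  ![1, 0, 3, 3, 1, 1],
  ![1, 0, 1, 1, 8, 1],
  ![1, 0, 1, 1, 1, 8]],
  ![![0, 1, 0, 1, 1, 1],
  ![1, 0, 0, 1, 1, 1],
  ![0, 0, 0, 0, 0, 0],
  ![1, 1, 0, 0, 1, 1],
  ![1, 1, 0, 1, 0, 1],
  ![1, 1, 0, 1, 1, 0],
  ![3, 3, 0, 1, 1, 1],
  ![1, 1, 0, 8, 1, 1],
  ![1, 1, 0, 1, 8, 1],
  ![1, 1, 0, 1, 1, 8]],
  ![![0, 1, 1, 0, 1, 1],
  ![1, 0, 1, 0, 1, 1],
  ![1, 1, 0, 0, 1, 1],
  ![0, 0, 0, 0, 0, 0],
  ![1, 1, 1, 0, 0, 1],
  ![1, 1, 1, 0, 1, 0],
  ![3, 3, 1, 0, 1, 1],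
  ![1, 1, 8, 0, 1, 1],
  ![1, 1, 1, 0, 8, 1],
  ![1, 1, 1, 0, 1, 8]],
  ![![0, 1, 1, 1, 0, 1],
  ![1, 0, 1, 1, 0, 1],
  ![1, 1, 0, 1, 0, 1],
  ![1, 1, 1, 0, 0, 1],
  ![0, 0, 0, 0, 0, 0],
  ![1, 1, 1, 1, 0, 0],
  ![3, 3, 1, 1, 0, 1],
  ![1, 1, 3, 3, 0, 1],
  ![0, 0, 0, 0, 0, 0],
  ![1, 1, 1, 1, 0, 8]],
  ![![0, 1, 1, 1, 1, 0],
  ![1, 0, 1, 1, 1, 0],
  ![1, 1, 0, 1, 1, 0],
  ![1, 1, 1, 0, 1, 0],
  ![1, 1, 1, 1, 0, 0],
  ![0, 0, 0, 0, 0, 0],
  ![3, 3, 1, 1, 1, 0],
  ![1, 1, 3, 3, 1, 0],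
  ![1, 1, 1, 1, 8, 0],
  ![0, 0, 0, 0, 0, 0]],
  ![![0, 8, 1, 1, 1, 1],
  ![8, 0, 1, 1, 1, 1],
  ![3, 3, 0, 1, 1, 1],
  ![3, 3, 1, 0, 1, 1],
  ![3, 3, 1, 1, 0, 1],
  ![3, 3, 1, 1, 1, 0],
  ![0, 0, 0, 0, 0, 0],
  ![0, 0, 0, 0, 0, 0],
  ![0, 0, 0, 0, 0, 0],
  ![0, 0, 0, 0, 0, 0]],
  ![![0, 1, 3, 3, 1, 1],
  ![1, 0, 3, 3, 1, 1],
  ![1, 1, 0, 8, 1, 1],
  ![1, 1, 8, 0, 1, 1],
  ![1, 1, 3, 3, 0, 1],
  ![1, 1, 3, 3, 1, 0],
  ![0, 0, 0, 0, 0, 0],
  ![0, 0, 0, 0, 0, 0],
  ![0, 0, 0, 0, 0, 0],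
  ![0, 0, 0, 0, 0, 0]],
  ![![0, 1, 1, 1, 8, 1],
  ![1, 0, 1, 1, 8, 1],
  ![1, 1, 0, 1, 8, 1],
  ![1, 1, 1, 0, 8, 1],
  ![0, 0, 0, 0, 0, 0],
  ![1, 1, 1, 1, 8, 0],
  ![0, 0, 0, 0, 0, 0],
  ![0, 0, 0, 0, 0, 0],
  ![0, 0, 0, 0, 0, 0],
  ![0, 0, 0, 0, 0, 0]],
  ![![0, 1, 1, 1, 1, 8],
  ![1, 0, 1, 1, 1, 8],
  ![1, 1, 0, 1, 1, 8],
  ![1, 1, 1, 0, 1, 8],
  ![1, 1, 1, 1, 0, 8],
  ![0, 0, 0, 0, 0, 0],
  ![0, 0, 0, 0, 0, 0],
  ![0, 0, 0, 0, 0, 0],
  ![0, 0, 0, 0, 0, 0],
  ![0, 0, 0, 0, 0, 0]]]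

/-- certificates for the non-edges -/
def ctab : Fin 10 → Fin 10 → Fin 10 → ℤ :=
  ![![![0, 0, 0, 0, 0, 0, 0, 0, 0, 0],
  ![0, 0, 0, 0, 0, 0, 0, 0, 0, 0],
  ![0, 0, 0, 0, 0, 0, 0, 0, 0, 0],
  ![0, 0, 0, 0, 0, 0, 0, 0, 0, 0],
  ![0, 0, 0, 0, 0, 0, 0, 0, 0, 0],
  ![0, 0, 0, 0, 0, 0, 0, 0, 0, 0],
  ![0, 0, 0, 0, 0, 0, 0, 0, 0, 0],
  ![0, 0, 0, 0, 0, 0, 0, 0, 0, 0],
  ![0, 0, 0, 0, 0, 0, 0, 0, 0, 0],
  ![0, 0, 0, 0, 0, 0, 0, 0, 0, 0]],
  ![![0, 0, 0, 0, 0, 0, 0, 0, 0, 0],
  ![0, 0, 0, 0, 0, 0, 0, 0, 0, 0],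
  ![0, 0, 0, 0, 0, 0, 0, 0, 0, 0],
  ![0, 0, 0, 0, 0, 0, 0, 0, 0, 0],
  ![0, 0, 0, 0, 0, 0, 0, 0, 0, 0],
  ![0, 0, 0, 0, 0, 0, 0, 0, 0, 0],
  ![0, 0, 0, 0, 0, 0, 0, 0, 0, 0],
  ![0, 0, 0, 0, 0, 0, 0, 0, 0, 0],
  ![0, 0, 0, 0, 0, 0, 0, 0, 0, 0],
  ![0, 0, 0, 0, 0, 0, 0, 0, 0, 0]],
  ![![0, 0, 0, 0, 0, 0, 0, 0, 0, 0],
  ![0, 0, 0, 0, 0, 0, 0, 0, 0, 0],
  ![0, 0, 0, 0, 0, 0, 0, 0, 0, 0],
  ![0, 0, 0, 0, 0, 0, 0, 0, 0, 0],
  ![0, 0, 0, 0, 0, 0, 0, 0, 0, 0],
  ![0, 0, 0, 0, 0, 0, 0, 0, 0, 0],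
  ![0, 0, 0, 0, 0, 0, 0, 0, 0, 0],
  ![0, 0, 0, 0, 0, 0, 0, 0, 0, 0],
  ![0, 0, 0, 0, 0, 0, 0, 0, 0, 0],
  ![0, 0, 0, 0, 0, 0, 0, 0, 0, 0]],
  ![![0, 0, 0, 0, 0, 0, 0, 0, 0, 0],
  ![0, 0, 0, 0, 0, 0, 0, 0, 0, 0],
  ![0, 0, 0, 0, 0, 0, 0, 0, 0, 0],
  ![0, 0, 0, 0, 0, 0, 0, 0, 0, 0],
  ![0, 0, 0, 0, 0, 0, 0, 0, 0, 0],
  ![0, 0, 0, 0, 0, 0, 0, 0, 0, 0],
  ![0, 0, 0, 0, 0, 0, 0, 0, 0, 0],
  ![0, 0, 0, 0, 0, 0, 0, 0, 0, 0],
  ![0, 0, 0, 0, 0, 0, 0, 0, 0, 0],
  ![0, 0, 0, 0, 0, 0, 0, 0, 0, 0]],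
  ![![0, 0, 0, 0, 0, 0, 0, 0, 0, 0],
  ![0, 0, 0, 0, 0, 0, 0, 0, 0, 0],
  ![0, 0, 0, 0, 0, 0, 0, 0, 0, 0],
  ![0, 0, 0, 0, 0, 0, 0, 0, 0, 0],
  ![0, 0, 0, 0, 0, 0, 0, 0, 0, 0],
  ![0, 0, 0, 0, 0, 0, 0, 0, 0, 0],
  ![0, 0, 0, 0, 0, 0, 0, 0, 0, 0],
  ![0, 0, 0, 0, 0, 0, 0, 0, 0, 0],
  ![4, 4, 4, 4, -2, 4, 0, 0, -18, 0],
  ![0, 0, 0, 0, 0, 0, 0, 0, 0, 0]],
  ![![0, 0, 0, 0, 0, 0, 0, 0, 0, 0],
  ![0, 0, 0, 0, 0, 0, 0, 0, 0, 0],
  ![0, 0, 0, 0, 0, 0, 0, 0, 0, 0],
  ![0, 0, 0, 0, 0, 0, 0, 0, 0, 0],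
  ![0, 0, 0, 0, 0, 0, 0, 0, 0, 0],
  ![0, 0, 0, 0, 0, 0, 0, 0, 0, 0],
  ![0, 0, 0, 0, 0, 0, 0, 0, 0, 0],
  ![0, 0, 0, 0, 0, 0, 0, 0, 0, 0],
  ![0, 0, 0, 0, 0, 0, 0, 0, 0, 0],
  ![4, 4, 4, 4, 4, -2, 0, 0, 0, -18]],
  ![![0, 0, 0, 0, 0, 0, 0, 0, 0, 0],
  ![0, 0, 0, 0, 0, 0, 0, 0, 0, 0],
  ![0, 0, 0, 0, 0, 0, 0, 0, 0, 0],
  ![0, 0, 0, 0, 0, 0, 0, 0, 0, 0],
  ![0, 0, 0, 0, 0, 0, 0, 0, 0, 0],
  ![0, 0, 0, 0, 0, 0, 0, 0, 0, 0],
  ![0, 0, 0, 0, 0, 0, 0, 0, 0, 0],
  ![1, 1, 1, 1, 4, 4, -6, -6, 0, 0],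
  ![1, 1, 10, 10, 4, 10, -18, 0, -18, 0],
  ![1, 1, 10, 10, 10, 4, -18, 0, 0, -18]],
  ![![0, 0, 0, 0, 0, 0, 0, 0, 0, 0],
  ![0, 0, 0, 0, 0, 0, 0, 0, 0, 0],
  ![0, 0, 0, 0, 0, 0, 0, 0, 0, 0],
  ![0, 0, 0, 0, 0, 0, 0, 0, 0, 0],
  ![0, 0, 0, 0, 0, 0, 0, 0, 0, 0],
  ![0, 0, 0, 0, 0, 0, 0, 0, 0, 0],
  ![1, 1, 1, 1, 4, 4, -6, -6, 0, 0],
  ![0, 0, 0, 0, 0, 0, 0, 0, 0, 0],
  ![10, 10, 1, 1, 4, 10, 0, -18, -18, 0],
  ![10, 10, 1, 1, 10, 4, 0, -18, 0, -18]],
  ![![0, 0, 0, 0, 0, 0, 0, 0, 0, 0],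
  ![0, 0, 0, 0, 0, 0, 0, 0, 0, 0],
  ![0, 0, 0, 0, 0, 0, 0, 0, 0, 0],
  ![0, 0, 0, 0, 0, 0, 0, 0, 0, 0],
  ![4, 4, 4, 4, -2, 4, 0, 0, -18, 0],
  ![0, 0, 0, 0, 0, 0, 0, 0, 0, 0],
  ![1, 1, 10, 10, 4, 10, -18, 0, -18, 0],
  ![10, 10, 1, 1, 4, 10, 0, -18, -18, 0],
  ![0, 0, 0, 0, 0, 0, 0, 0, 0, 0],
  ![8, 8, 8, 8, 2, 2, 0, 0, -18, -18]],
  ![![0, 0, 0, 0, 0, 0, 0, 0, 0, 0],
  ![0, 0, 0, 0, 0, 0, 0, 0, 0, 0],
  ![0, 0, 0, 0, 0, 0, 0, 0, 0, 0],
  ![0, 0, 0, 0, 0, 0, 0, 0, 0, 0],
  ![0, 0, 0, 0, 0, 0, 0, 0, 0, 0],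
  ![4, 4, 4, 4, 4, -2, 0, 0, 0, -18],
  ![1, 1, 10, 10, 10, 4, -18, 0, 0, -18],
  ![10, 10, 1, 1, 10, 4, 0, -18, 0, -18],
  ![8, 8, 8, 8, 2, 2, 0, 0, -18, -18],
  ![0, 0, 0, 0, 0, 0, 0, 0, 0, 0]]]

/-- the adjacency pattern of the example -/
def adjB (i j : Fin 10) : Bool :=
  !(i == j) && !(decide (6 ≤ i) && decide (6 ≤ j)) && !((i == 4) && (j == 8)) &&
    !((i == 8) && (j == 4)) && !((i == 5) && (j == 9)) && !((i == 9) && (j == 5))

/-- integer dot product -/
def dot (w v : Fin 6 → ℤ) : ℤ := w 0 * v 0 + w 1 * v 1 + w 2 * v 2 + w 3 * v 3 + w 4 * v 4 + w 5 * v 5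

lemma vtab_spec : ∀ i k : Fin 10, k ≠ i → dot (vtab i) (pt i) < dot (vtab i) (pt k) := by
  decide

lemma etab_spec : ∀ i j : Fin 10, adjB i j = true → dot (etab i j) (pt i) = dot (etab i j) (pt j) ∧
    ∀ k, k ≠ i → k ≠ j → dot (etab i j) (pt i) < dot (etab i j) (pt k) := by
  decide

lemma ctab_sum : ∀ i j : Fin 10, i ≠ j → adjB i j = false → ∑ k, ctab i j k = 0 := by
  decide

lemma ctab_dep : ∀ i j : Fin 10, i ≠ j → adjB i j = false →
    ∀ t : Fin 6, ∑ k, ctab i j k * pt k t = 0 := by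
  decide

lemma ctab_nonneg : ∀ i j : Fin 10, i ≠ j → adjB i j = false →
    ∀ k, k ≠ i → k ≠ j → 0 ≤ ctab i j k := by
  decide

lemma ctab_pos : ∀ i j : Fin 10, i ≠ j → adjB i j = false →
    ∃ k, k ≠ i ∧ k ≠ j ∧ 0 < ctab i j k := by
  decide

end Example

section Final

/-- the graph of the example -/
def exGraph : SimpleGraph (Fin 10) where
  Adj i j := adjB i j = true
  symm := ⟨by decide⟩
  loopless := ⟨by decide⟩

lemma adjB_ne {i j : Fin 10} (h : adjB i j = true) : i ≠ j := by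
  rintro rfl
  revert i
  decide

/-- the linear functional with integer coefficients `w` -/
noncomputable def functional (w : Fin 6 → ℤ) : EuclideanSpace ℝ (Fin 6) →L[ℝ] ℝ :=
  ∑ t, (w t : ℝ) • EuclideanSpace.proj (𝕜 := ℝ) t

/-- the points of the example -/
noncomputable def ptR (k : Fin 10) : EuclideanSpace ℝ (Fin 6) :=
  WithLp.toLp 2 (fun t => (pt k t : ℝ))

lemma ptR_apply (k : Fin 10) (t : Fin 6) : ptR k t = (pt k t : ℝ) := rfl

lemma functional_ptR (w : Fin 6 → ℤ) (k : Fin 10) :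
    functional w (ptR k) = ((dot w (pt k) : ℤ) : ℝ) := by
  simp [functional, dot, Fin.sum_univ_succ, ptR_apply]
  ring

lemma allExp_ptR : AllExp ptR := by
  intro i
  refine ⟨functional (vtab i), fun k hk => ?_⟩
  rw [functional_ptR, functional_ptR]
  exact_mod_cast vtab_spec i k hk

lemma fadj_ptR (i j : Fin 10) : FAdj ptR i j ↔ adjB i j = true := by
  constructor
  · rintro ⟨hij, l, hl, hlt⟩
    by_contra hadj
    have hadj : adjB i j = false := by simpa using hadj
    have hdep : ∑ k, (ctab i j k : ℝ) • ptR k = 0 := by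
      ext t
      have := ctab_dep i j hij hadj t
      simp only [PiLp.zero_apply]
      have h2 : (∑ k, (ctab i j k : ℝ) • ptR k) t = ∑ k, (ctab i j k : ℝ) * (pt k t : ℝ) := by
        simp [ptR_apply]
      rw [h2]
      exact_mod_cast this
    have hsum : ∑ k, (ctab i j k : ℝ) = 0 := by exact_mod_cast ctab_sum i j hij hadj
    have h1 : ∑ k, (ctab i j k : ℝ) * (l (ptR k) - l (ptR i)) = 0 := by
      have h2 := congrArg l hdep
      simp only [map_sum, map_smul, smul_eq_mul, map_zero] at h2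
      simp only [mul_sub, Finset.sum_sub_distrib, ← Finset.sum_mul]
      rw [h2, hsum]; ring
    have hnn : ∀ k ∈ Finset.univ, 0 ≤ (ctab i j k : ℝ) * (l (ptR k) - l (ptR i)) := by
      intro k _
      by_cases hki : k = i
      · rw [hki]; simp
      by_cases hkj : k = j
      · rw [hkj, hl]; simp
      · apply mul_nonneg
        · exact_mod_cast ctab_nonneg i j hij hadj k hki hkj
        · exact (sub_pos.2 (hlt k hki hkj)).le
    obtain ⟨k, hki, hkj, hk⟩ := ctab_pos i j hij hadj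
    have h3 := (Finset.sum_eq_zero_iff_of_nonneg hnn).1 h1 k (Finset.mem_univ k)
    have h4 : (0 : ℝ) < (ctab i j k : ℝ) := by exact_mod_cast hk
    have h5 := mul_pos h4 (sub_pos.2 (hlt k hki hkj))
    linarith
  · intro h
    obtain ⟨h1, h2⟩ := etab_spec i j h
    refine ⟨adjB_ne h, functional (etab i j), ?_, fun k hki hkj => ?_⟩
    · rw [functional_ptR, functional_ptR, h1]
    · rw [functional_ptR, functional_ptR]
      exact_mod_cast h2 k hki hkj

lemma finrank_ptR : Module.finrank ℝ (vectorSpan ℝ (range ptR)) = 5 := by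
  apply le_antisymm
  · -- contained in a hyperplane
    have hlt : Module.finrank ℝ (vectorSpan ℝ (range ptR)) <
        Module.finrank ℝ (EuclideanSpace ℝ (Fin 6)) := by
      apply Submodule.finrank_lt
      intro htop
      have hle : vectorSpan ℝ (range ptR) ≤
          LinearMap.ker ((functional (fun _ => 1) : EuclideanSpace ℝ (Fin 6) →L[ℝ] ℝ) :
            EuclideanSpace ℝ (Fin 6) →ₗ[ℝ] ℝ) := by
        rw [vectorSpan, Submodule.span_le]
        rintro _ ⟨_, ⟨i, rfl⟩, _, ⟨j, rfl⟩, rfl⟩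
        simp only [SetLike.mem_coe, LinearMap.mem_ker, vsub_eq_sub, map_sub]
        have h : ∀ k : Fin 10, dot (fun _ => 1) (pt k) = 18 := by decide
        change functional (fun _ => 1) (ptR i) - functional (fun _ => 1) (ptR j) = 0
        rw [functional_ptR, functional_ptR, h, h, sub_self]
      rw [htop] at hle
      have h0 := hle (Submodule.mem_top (x := ptR 0))
      rw [LinearMap.mem_ker] at h0
      change functional (fun _ => 1) (ptR 0) = 0 at h0
      rw [functional_ptR] at h0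
      have h1 : dot (fun _ => 1) (pt 0) = 18 := by decide
      rw [h1] at h0
      norm_num at h0
    rw [finrank_euclideanSpace_fin] at hlt
    omega
  · have hind : AffineIndependent ℝ (ptR ∘ (Fin.castLE (by norm_num) : Fin 6 → Fin 10)) := by
      rw [affineIndependent_iff_of_fintype]
      intro w hw hw2 t
      rw [Finset.weightedVSub_eq_linear_combination _ hw] at hw2
      have h1 := congrArg (fun z : EuclideanSpace ℝ (Fin 6) => z t) hw2
      have h2 : ∀ k t : Fin 6, pt (Fin.castLE (by norm_num) k) t = if k = t then 18 else 0 := by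
        decide
      simp [ptR_apply, h2] at h1
      exact h1
    have h1 := hind.card_le_finrank_succ
    have h2 : Module.finrank ℝ (vectorSpan ℝ
        (range (ptR ∘ (Fin.castLE (by norm_num) : Fin 6 → Fin 10)))) ≤
        Module.finrank ℝ (vectorSpan ℝ (range ptR)) :=
      Submodule.finrank_mono (vectorSpan_mono ℝ (by
        rintro _ ⟨i, rfl⟩; exact mem_range_self _))
    rw [Fintype.card_fin] at h1
    omega

lemma vectorSpan_hull {N : ℕ} (s : Set (EuclideanSpace ℝ (Fin N))) :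
    vectorSpan ℝ (convexHull ℝ s) = vectorSpan ℝ s := by
  rw [← direction_affineSpan, affineSpan_convexHull, direction_affineSpan]

lemma exGraph_realizable : Realizable 5 exGraph := by
  classical
  have hext := extremePoints_of_allExp allExp_ptR
  refine ⟨6, convexHull ℝ (range ptR), ⟨⟨ptR 0, subset_convexHull ℝ _ (mem_range_self 0)⟩,
    ⟨Finset.univ.image ptR, by simp⟩, ?_⟩, ?_⟩
  · rw [vectorSpan_hull, finrank_ptR]
  · let e : Fin 10 ≃ (convexHull ℝ (range ptR)).extremePoints ℝ :=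
      (Equiv.ofInjective ptR allExp_ptR.injective).trans (Equiv.setCongr hext.symm)
    have he : ∀ i, (e i : EuclideanSpace ℝ (Fin 6)) = ptR i := fun i => rfl
    refine ⟨⟨e, ?_⟩⟩
    intro i j
    change (e i ≠ e j ∧ IsExposed ℝ (convexHull ℝ (range ptR))
      (segment ℝ (e i : EuclideanSpace ℝ (Fin 6)) (e j))) ↔ adjB i j = true
    rw [he, he]
    constructor
    · rintro ⟨hne, h⟩
      have hij : i ≠ j := fun h => hne (by rw [h])
      exact (fadj_ptR i j).1 ((isExposed_segment_iff allExp_ptR hij).1 h)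
    · intro h
      have hij := adjB_ne h
      exact ⟨fun h' => hij (e.injective h'),
        (isExposed_segment_iff allExp_ptR hij).2 ((fadj_ptR i j).2 h)⟩

lemma exGraph_not_realizable {d : ℕ} (h : Realizable d exGraph) : d = 5 := by
  classical
  obtain ⟨N, P, ⟨-, ⟨S, hS⟩, hd⟩, ⟨φ⟩⟩ := h
  obtain ⟨hP, hx⟩ := polytope_family hS φ.toEquiv
  set x : Fin 10 → EuclideanSpace ℝ (Fin N) := fun i => (φ.toEquiv i : EuclideanSpace ℝ (Fin N))
    with hxdef
  have hdim : Module.finrank ℝ (vectorSpan ℝ (range x)) = d := by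
    rw [← hd, hP, vectorSpan_hull]
  have hadj : ∀ i j, FAdj x i j ↔ adjB i j = true := by
    intro i j
    have h1 : (polytopeGraph P).Adj (φ i) (φ j) ↔ exGraph.Adj i j := φ.map_adj_iff
    have h2 : exGraph.Adj i j ↔ adjB i j = true := Iff.rfl
    rw [← h2, ← h1]
    have h3 : (polytopeGraph P).Adj (φ i) (φ j) ↔ (φ i ≠ φ j ∧
      IsExposed ℝ P (segment ℝ (φ i : EuclideanSpace ℝ (Fin N)) (φ j))) := Iff.rfl
    rw [h3]
    constructor
    · intro h
      refine ⟨fun h' => h.1 (φ.injective h'), ?_⟩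
      have := (isExposed_segment_iff hx h.1).2 h
      rw [← hP] at this
      exact this
    · rintro ⟨hne, h⟩
      have hij : i ≠ j := fun h => hne (by rw [h])
      apply (isExposed_segment_iff hx hij).1
      rw [← hP]
      exact h
  -- lower bound
  have hd4 : 4 ≤ d := by
    have hind := clique_five hx (c := (Fin.castLE (by norm_num) : Fin 5 → Fin 10))
      (Fin.castLE_injective _) (by
        intro a b hab
        rw [hadj]
        revert a b
        decide)
    have h1 := hind.card_le_finrank_succ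
    have hfd : FiniteDimensional ℝ (vectorSpan ℝ (range x)) :=
      finiteDimensional_vectorSpan_of_finite ℝ (Set.finite_range x)
    have h2 : Module.finrank ℝ (vectorSpan ℝ
        (range (x ∘ (Fin.castLE (by norm_num) : Fin 5 → Fin 10)))) ≤
        Module.finrank ℝ (vectorSpan ℝ (range x)) :=
      Submodule.finrank_mono (vectorSpan_mono ℝ (by
        rintro _ ⟨i, rfl⟩; exact mem_range_self _))
    rw [Fintype.card_fin] at h1
    omega
  -- upper bound
  have hd5 : d ≤ 5 := by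
    rw [← hdim]
    have hle : vectorSpan ℝ (range x) ≤ Submodule.span ℝ
        (((Finset.univ.filter (fun y : Fin 10 => adjB 8 y = true)).image
          (fun y => x y - x 8) : Finset _) : Set (EuclideanSpace ℝ (Fin N))) := by
      rw [vectorSpan_eq_span_vsub_set_right ℝ (mem_range_self (8 : Fin 10)), Submodule.span_le]
      rintro _ ⟨_, ⟨w, rfl⟩, rfl⟩
      by_cases hw : w = 8
      · rw [hw]; simp
      · obtain ⟨c, -, hc, hsum⟩ := vertex_cone hx 8 w hw
        simp only [vsub_eq_sub, SetLike.mem_coe]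
        rw [hsum]
        apply Submodule.sum_mem
        intro y _
        by_cases hy : c y = 0
        · rw [hy, zero_smul]; exact Submodule.zero_mem _
        · apply Submodule.smul_mem
          apply Submodule.subset_span
          have := (hadj 8 y).1 (hc y hy)
          simp only [Finset.coe_image, Finset.coe_filter, Finset.mem_univ, true_and]
          exact ⟨y, this, rfl⟩
    have h1 := Submodule.finrank_mono hle
    have h2 := finrank_span_finset_le_card (R := ℝ)
      ((Finset.univ.filter (fun y : Fin 10 => adjB 8 y = true)).image (fun y => x y - x 8))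
    have h3 := Finset.card_image_le (s := Finset.univ.filter (fun y : Fin 10 => adjB 8 y = true))
      (f := fun y => x y - x 8)
    have h4 : (Finset.univ.filter (fun y : Fin 10 => adjB 8 y = true)).card = 5 := by decide
    have h5 : Module.finrank ℝ (Submodule.span ℝ
        (((Finset.univ.filter (fun y : Fin 10 => adjB 8 y = true)).image
          (fun y => x y - x 8) : Finset _) : Set (EuclideanSpace ℝ (Fin N)))) ≤ 5 := by
      refine le_trans h2 (le_trans h3 (le_of_eq h4))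
    exact h1.trans h5
  rcases (by omega : d = 4 ∨ d = 5) with h | h
  · exfalso
    rw [h] at hdim
    refine no_four_dim hx (Fin.castLE (by norm_num) : Fin 6 → Fin 10) (Fin.castLE_injective _)
      ?_ ![6, 7, 8, 9] (by decide) ?_ ?_ ?_ ?_ 4 5 ?_ ?_ hdim
    · intro a b hab
      rw [hadj]
      revert a b
      decide
    · rintro i ⟨a, ha⟩
      revert i a
      decide
    · intro i y hy
      rw [hadj] at hy
      revert i y
      decide
    · intro a
      rw [hadj]
      revert a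
      decide
    · intro a
      rw [hadj]
      revert a
      decide
    · intro a ha
      rw [hadj]
      revert a
      decide
    · intro a ha
      rw [hadj]
      revert a
      decide
  · exact h

end Final

end Pool.Agent.Lib_helper97.PolyGraph
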