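import Pool.Agent.Lib_helper45.REll.Defs3

/-!
# Block ERR: inner products of the `R`'s
(import of `Wanted2` is only for `IsGen`, `orb`, `ip_R_R`; replace it in the final assembly)
-/

open scoped BigOperators ComplexConjugate
open Polynomial

namespace Pool.Agent.REll
namespace ERR

variable {F : Type} [Field F] [Finite F] {K : Type} [Field K] [Finite K] [Algebra F K]

open CF

theorem ip_R_R_orb (ι : MulChar K ℂ) (hι : IsGen ι) (m : ℕ) (hm : 1 ≤ m) (hK : Big F m K)
    (a b : ℕ) (R R' : CF F) (hR : R * allOne = Bf K (ι ^ a)) (hR' : R' * allOne = Bf K (ι ^ b)) :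
    ip m R R' = (orb (Nat.card F) m a b : ℂ) := by
  classical
  have hmain := ip_R_R (ι ^ a) (ι ^ b) m hm hK R R' hR hR'
  set q := Nat.card F with hq
  have hq2 : 2 ≤ q := Finite.one_lt_card
  have hqm : 1 < q ^ m := Nat.one_lt_pow (by omega) (by omega)
  set N := q ^ m - 1 with hN
  have hN0 : 0 < N := by omega
  have hNC : ((q : ℂ) ^ m - 1) = (N : ℂ) := by
    rw [hN, Nat.cast_sub hqm.le]; push_cast; ring
  rw [hNC] at hmain
  have hfin : Fintype {x : K // x ^ N = 1} := Fintype.ofFinite _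
  have hne : ∀ x : {x : K // x ^ N = 1}, x.1 ≠ 0 := by
    rintro ⟨x, hx⟩ h0
    simp only at h0
    rw [h0, zero_pow (by omega)] at hx
    exact zero_ne_one hx
  have hpow : ∀ (c : ℕ) (y : K), y ≠ 0 → (ι ^ c) y = (ι y) ^ c := by
    intro c y hy
    have := MulChar.pow_apply_coe ι c (Units.mk0 y hy)
    simpa using this
  -- `conj ι(x) = ι(x)^(N-1)`
  have hroot : ∀ x : {x : K // x ^ N = 1}, (ι x.1) ^ N = 1 := by
    intro x
    rw [← map_pow, x.2, map_one]
  have hconj : ∀ x : {x : K // x ^ N = 1}, conj (ι x.1) = (ι x.1) ^ (N - 1) := by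
    intro x
    have h1 : ‖ι x.1‖ = 1 := Complex.norm_eq_one_of_pow_eq_one (hroot x) hN0.ne'
    have h2 : ι x.1 ≠ 0 := by
      intro h
      rw [h, norm_zero] at h1
      exact zero_ne_one h1
    have h3 : ι x.1 * conj (ι x.1) = 1 := by
      rw [Complex.mul_conj, Complex.normSq_eq_norm_sq, h1]; norm_num
    have h4 : ι x.1 * (ι x.1) ^ (N - 1) = 1 := by
      rw [← pow_succ', Nat.sub_add_cancel (by omega)]
      exact hroot x
    exact mul_left_cancel₀ h2 (h3.trans h4.symm)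
  have hterm : ∀ (x : {x : K // x ^ N = 1}) (i : ℕ),
      (ι ^ a) x.1 * conj ((ι ^ b) (x.1 ^ (q ^ i))) = (ι ^ (a + (N - 1) * (b * q ^ i))) x.1 := by
    intro x i
    rw [hpow _ _ (hne x), hpow _ _ (pow_ne_zero _ (hne x)), hpow _ _ (hne x), map_pow, map_pow,
      map_pow, hconj x, pow_add]
    congr 1
    rw [← pow_mul, ← pow_mul]
    congr 1
    ring
  have hsum : ∀ i : ℕ, ∑ x : {x : K // x ^ N = 1}, (ι ^ a) x.1 * conj ((ι ^ b) (x.1 ^ (q ^ i))) =
      if ((q : ℤ) ^ m - 1) ∣ (a : ℤ) - b * (q : ℤ) ^ i then (N : ℂ) else 0 := by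
    intro i
    rw [Finset.sum_congr rfl fun x _ => hterm x i, ← finsum_eq_sum_of_fintype,
      hι.2 N _ (hK m hm le_rfl) hN0]
    congr 1
    rw [eq_iff_iff]
    have h1 : ((q : ℤ) ^ m - 1) = (N : ℤ) := by
      rw [hN, Nat.cast_sub hqm.le]; push_cast; ring
    rw [h1, ← Int.natCast_dvd_natCast]
    have h3 : ((a + (N - 1) * (b * q ^ i) : ℕ) : ℤ) = ((a : ℤ) - b * (q : ℤ) ^ i) +
        N * (b * (q : ℤ) ^ i) := by
      have h4 : ((N - 1 : ℕ) : ℤ) = (N : ℤ) - 1 := by
        rw [Nat.cast_sub (by omega)]; simp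
      rw [Nat.cast_add, Nat.cast_mul, h4]
      push_cast
      ring
    rw [h3]
    exact (dvd_add_left (dvd_mul_right _ _))
  rw [finsum_eq_sum_of_fintype, Finset.sum_comm, Finset.sum_congr rfl fun i _ => hsum i,
    ← Finset.sum_filter, Finset.sum_const, nsmul_eq_mul, mul_comm] at hmain
  have hNC0 : (N : ℂ) ≠ 0 := by exact_mod_cast hN0.ne'
  have := mul_right_cancel₀ hNC0 hmain
  rw [this]
  rfl

end ERR
end Pool.Agent.REll
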