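import Pool.Agent.Lib_helper25.REll_NUM

namespace Pool.Agent.REll

open Classical in
/-- `#{i < m | a ≡ b q^i mod q^m - 1}` -/
noncomputable def orb (q m a b : ℕ) : ℕ :=
  ((Finset.range m).filter (fun i : ℕ => ((q : ℤ) ^ m - 1) ∣ (a : ℤ) - b * (q : ℤ) ^ i)).card

end Pool.Agent.REll
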